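import Pool.Agent.Helper25.BC.Defs

/-!
Block BC-U (MP_bd232a_nt, part C). `c` is completely multiplicative on units.
PROOF. Given a unit `r` and `x`, let `x' = (x.val + q)` (so `x' ≥ 1`, `x' = x` in `ZMod q`) and choose a prime `r' ≡ r mod q` with `r' > x'` (Dirichlet,
`Nat.setOf_prime_and_eq_mod_infinite` / `Nat.forall_exists_prime_gt_and_eq_mod`); then `r', x'` are coprime, so `c(r x) = c(r' x') = c(r') c(x') = c(r) c(x)`.
`c r ^ φ(q) = c(r^φ(q)) = c 1 = 1` (`ZMod.pow_totient`), so `‖c r‖ = 1`. The character: `MulChar.ofUnitHom` of `u ↦ c u` (a unit of `ℂ`).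
-/

open Complex

namespace Pool.Agent.Helper25.BC

open Pool.Agent.Helper19.BD

theorem c_mul {q : ℕ} [NeZero q] {c : ZMod q → ℂ}
    (hm : ∀ m n : ℕ, 1 ≤ m → 1 ≤ n → Nat.Coprime m n → c ((m * n : ℕ) : ZMod q) = c (m : ZMod q) * c (n : ZMod q))
    (r : (ZMod q)ˣ) (x : ZMod q) : c (r * x) = c r * c x := by
  obtain ⟨p, hp1, hp, hpr⟩ := Nat.forall_exists_prime_gt_and_eq_mod (r.isUnit) (x.val + q)
  have hq : 0 < q := Nat.pos_of_ne_zero (NeZero.ne q)
  have hx : ((x.val + q : ℕ) : ZMod q) = x := by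
    push_cast
    rw [ZMod.natCast_zmod_val, ZMod.natCast_self, add_zero]
  have hc : Nat.Coprime p (x.val + q) := by
    rw [hp.coprime_iff_not_dvd]
    intro h
    exact absurd (Nat.le_of_dvd (by omega) h) (by omega)
  have h := hm p (x.val + q) hp.one_lt.le (by omega) hc
  rw [Nat.cast_mul, hx, hpr] at h
  exact h

theorem c_totient {q : ℕ} [NeZero q] {c : ZMod q → ℂ} (h1 : c 1 = 1)
    (hm : ∀ m n : ℕ, 1 ≤ m → 1 ≤ n → Nat.Coprime m n → c ((m * n : ℕ) : ZMod q) = c (m : ZMod q) * c (n : ZMod q))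
    (r : (ZMod q)ˣ) : c r ^ Nat.totient q = 1 := by
  have hpow : ∀ n : ℕ, c ((r ^ n : (ZMod q)ˣ) : ZMod q) = c r ^ n := by
    intro n
    induction n with
    | zero => simpa using h1
    | succ n ih =>
      rw [pow_succ', Units.val_mul, c_mul hm, ih, pow_succ']
  rw [← hpow, ZMod.pow_totient, Units.val_one, h1]

theorem c_norm {q : ℕ} [NeZero q] {c : ZMod q → ℂ} (h1 : c 1 = 1)
    (hm : ∀ m n : ℕ, 1 ≤ m → 1 ≤ n → Nat.Coprime m n → c ((m * n : ℕ) : ZMod q) = c (m : ZMod q) * c (n : ZMod q))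
    (r : (ZMod q)ˣ) : ‖c r‖ = 1 := by
  have hq : 0 < q := Nat.pos_of_ne_zero (NeZero.ne q)
  have h := c_totient h1 hm r
  have h2 : ‖c r‖ ^ Nat.totient q = 1 := by rw [← norm_pow, h, norm_one]
  exact (pow_eq_one_iff_of_nonneg (norm_nonneg _) (Nat.totient_pos.2 hq).ne').1 h2

theorem c_char {q : ℕ} [NeZero q] {c : ZMod q → ℂ} (h1 : c 1 = 1)
    (hm : ∀ m n : ℕ, 1 ≤ m → 1 ≤ n → Nat.Coprime m n → c ((m * n : ℕ) : ZMod q) = c (m : ZMod q) * c (n : ZMod q)) :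
    ∃ χ : DirichletCharacter ℂ q, ∀ n : ℕ, n.Coprime q → χ (n : ZMod q) = c (n : ZMod q) := by
  let f : (ZMod q)ˣ →* ℂ :=
    { toFun := fun u => c (u : ZMod q)
      map_one' := by simpa using h1
      map_mul' := fun u v => by rw [Units.val_mul]; exact c_mul hm u _ }
  refine ⟨MulChar.ofUnitHom f.toHomUnits, fun n hn => ?_⟩
  have h := MulChar.ofUnitHom_coe f.toHomUnits (ZMod.unitOfCoprime n hn)
  rw [ZMod.coe_unitOfCoprime] at h
  rw [h, MonoidHom.coe_toHomUnits]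
  change c ((ZMod.unitOfCoprime n hn : (ZMod q)ˣ) : ZMod q) = c (n : ZMod q)
  rw [ZMod.coe_unitOfCoprime]

end Pool.Agent.Helper25.BC
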