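import Pool.Agent.Helper25.BC.Defs
import Pool.Agent.Helper25.BC.CUnit

/-!
Block BC-A (MP_bd232a_nt, part C). Choice of the cusp and of the prime.
PROOF. `g = gcd(q,49)`, `u = 49/g`, `v = q/g`, `gcd(u,v) = 1`, `-q/(49m-q) = -v/(um-v)`, `u ∈ {1,7,49}`. (I) if `u = 1` or some divisor `v'` of `v` has `v' % 7 ∉ {1,6}` (`v' % 7 ≠ 0` if `7 ∣ u` since
`gcd(u,v)=1`): let `v'' = v/v'` and let `p` be a prime `≡ -v' mod u` (if `u = 1`: `v' = v`, `p ≡ 3 mod 7`); then `v'' p ≡ -v mod u`, `um - v = v'' p` for some `m`, and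
`-v/(um-v) = -v'/p`: `a = -v'`. Dirichlet's theorem (`Nat.infinite_setOf_prime_and_eq_mod` or similar) gives infinitely many such primes; `p % 7 = -v' % 7 ∉ {0,1,6}`.
(II) otherwise `7 ∣ u`, all divisors of `v` are `≡ ±1 mod 7`; so `v` is odd (`2`), `q = g v` odd, `v ≡ ±1 mod 7`; `p ≡ -v/2 mod u` (`2` is invertible mod `u`), `p % 7 ∈ {3,4}`, `um - v = 2p`, `a = -v` odd.
`exists_prime`: `c p` is a root of unity for `p ∤ q` (`c_totient`). If `(c p p^{iη})^3 = 1` and `(c p' p'^{iη})^3 = 1` for two primes `p ≠ p'`, raise to the power `φ(q)`: `3 φ(q) η log p ∈ 2πℤ`, the same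
for `p'`, both nonzero; so `p^k = p'^l` with positive integers (up to sign): impossible. Hence at most one `p > q` in `S` is bad.
-/

open Complex

namespace Pool.Agent.Helper25.BC

open Pool.Agent.Helper19.BD

theorem arith_key (q g u v : ℕ) (hg : 0 < g) (hv : 0 < v) (h49 : 49 = g * u) (hq : q = g * v)
    (m t : ℤ) (ht : t ≠ 0) (h : (u : ℤ) * m - v = t) :
    49 / (q : ℝ) * m - 1 ≠ 0 ∧ -1 / (49 / (q : ℝ) * m - 1) = -(v : ℝ) / t := by
  have hgR : (g : ℝ) ≠ 0 := by exact_mod_cast hg.ne'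
  have hvR : (v : ℝ) ≠ 0 := by exact_mod_cast hv.ne'
  have htR : (t : ℝ) ≠ 0 := by exact_mod_cast ht
  have e49 : (49 : ℝ) = g * u := by exact_mod_cast h49
  have eq : (q : ℝ) = g * v := by exact_mod_cast hq
  have hR : (u : ℝ) * m - v = t := by exact_mod_cast h
  have key : 49 / (q : ℝ) * m - 1 = t / v := by
    rw [e49, eq, ← hR]
    field_simp
  rw [key]
  refine ⟨div_ne_zero htR hvR, ?_⟩
  field_simp

theorem arith (q : ℕ) (hq : 1 ≤ q) :
    (∃ a : ℤ, a ≠ 0 ∧ {p : ℕ | p.Prime ∧ p % 7 ≠ 0 ∧ p % 7 ≠ 1 ∧ p % 7 ≠ 6 ∧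
      ∃ m : ℤ, 49 / (q : ℝ) * m - 1 ≠ 0 ∧ -1 / (49 / (q : ℝ) * m - 1) = (a : ℝ) / p}.Infinite) ∨
    (Odd q ∧ ∃ a : ℤ, Odd a ∧ {p : ℕ | p.Prime ∧ p % 7 ≠ 0 ∧ p % 7 ≠ 1 ∧ p % 7 ≠ 6 ∧
      ∃ m : ℤ, 49 / (q : ℝ) * m - 1 ≠ 0 ∧ -1 / (49 / (q : ℝ) * m - 1) = (a : ℝ) / (2 * p)}.Infinite) := by
  obtain ⟨g, hg⟩ : ∃ g, g = Nat.gcd q 49 := ⟨_, rfl⟩
  have hgpos : 0 < g := by rw [hg]; exact Nat.gcd_pos_of_pos_left _ hq
  obtain ⟨v, hv⟩ : g ∣ q := by rw [hg]; exact Nat.gcd_dvd_left _ _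
  obtain ⟨u, hu⟩ : g ∣ 49 := by rw [hg]; exact Nat.gcd_dvd_right _ _
  have hvpos : 0 < v := by
    rcases Nat.eq_zero_or_pos v with h0 | h0
    · subst h0; omega
    · exact h0
  have hcop : Nat.Coprime v u := by
    have h1 := Nat.coprime_div_gcd_div_gcd (m := q) (n := 49) (by rw [← hg]; exact hgpos)
    rw [← hg] at h1
    have e1 : q / g = v := by rw [hv]; exact Nat.mul_div_cancel_left _ hgpos
    have e2 : 49 / g = u := by rw [hu]; exact Nat.mul_div_cancel_left _ hgpos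
    rwa [e1, e2] at h1
  have hu49 : u ∣ 49 := ⟨g, by rw [hu]; ring⟩
  have hucases : u = 1 ∨ u = 7 ∨ u = 49 := by
    have hle : u ≤ 49 := Nat.le_of_dvd (by norm_num) hu49
    interval_cases u <;> omega
  have hg49 : g ∣ 49 := ⟨u, hu⟩
  rcases hucases with hu1 | hu7
  · -- `u = 1`
    left
    refine ⟨-(v : ℤ), by simpa using hvpos.ne', Set.infinite_of_forall_exists_gt ?_⟩
    intro n
    obtain ⟨p, hpn, hpp, hpm⟩ := Nat.forall_exists_prime_gt_and_modEq n (q := 7) (a := 3)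
      (by norm_num) (by norm_num)
    have hpm' : p % 7 = 3 := by simpa [Nat.ModEq] using hpm
    have hp0 : (p : ℤ) ≠ 0 := by exact_mod_cast hpp.ne_zero
    obtain ⟨h1, h2⟩ := arith_key q g u v hgpos hvpos hu hv ((v : ℤ) + p) p hp0
      (by rw [hu1]; push_cast; ring)
    refine ⟨p, ⟨hpp, by omega, by omega, by omega, (v : ℤ) + p, h1, ?_⟩, hpn⟩
    rw [h2]; push_cast; ring
  · have h7u : 7 ∣ u := by
      rcases hu7 with h | h
      · rw [h]
      · rw [h]; norm_num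
    have hu0 : u ≠ 0 := by rcases hu7 with h | h <;> omega
    have hv7 : ∀ v', v' ∣ v → v' % 7 ≠ 0 := by
      intro v' hv' h0
      have h7 : 7 ∣ v := (Nat.dvd_of_mod_eq_zero h0).trans hv'
      have := Nat.dvd_gcd h7 h7u
      rw [hcop] at this
      omega
    by_cases hex : ∃ v', v' ∣ v ∧ v' % 7 ≠ 1 ∧ v' % 7 ≠ 6
    · left
      obtain ⟨v', ⟨v'', hvv⟩, h1, h6⟩ := hex
      have h0 : v' % 7 ≠ 0 := hv7 v' ⟨v'', hvv⟩
      have hv'0 : v' ≠ 0 := by rintro rfl; simp at h0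
      have hv''0 : v'' ≠ 0 := by rintro rfl; simp at hvv; omega
      refine ⟨-(v' : ℤ), by simpa using hv'0, Set.infinite_of_forall_exists_gt ?_⟩
      intro n
      have hcop' : IsCoprime (-(v' : ℤ)) (u : ℤ) := by
        refine IsCoprime.neg_left ?_
        exact Nat.isCoprime_iff_coprime.mpr (Nat.Coprime.coprime_dvd_left ⟨v'', hvv⟩ hcop)
      obtain ⟨p, hpn, hpp, hpm⟩ := Nat.forall_exists_prime_gt_and_zmodEq n hu0 hcop'
      obtain ⟨k, hk⟩ := (Int.modEq_iff_dvd.mp hpm)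
      -- `-v' - p = u k`
      have hp0 : (p : ℤ) ≠ 0 := by exact_mod_cast hpp.ne_zero
      have hv''0' : (v'' : ℤ) ≠ 0 := by exact_mod_cast hv''0
      have ht : (v'' : ℤ) * p ≠ 0 := mul_ne_zero hv''0' hp0
      have hm : (u : ℤ) * (-(v'' : ℤ) * k) - v = (v'' : ℤ) * p := by
        have : (v : ℤ) = v' * v'' := by exact_mod_cast hvv
        rw [this]
        linear_combination (-(v'' : ℤ)) * (- hk)
      obtain ⟨e1, e2⟩ := arith_key q g u v hgpos hvpos hu hv _ _ ht hm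
      have h7 : (7 : ℤ) ∣ -(v' : ℤ) - p := by
        rw [hk]
        exact Dvd.dvd.mul_right (by exact_mod_cast h7u) k
      refine ⟨p, ⟨hpp, by omega, by omega, by omega, _, e1, ?_⟩, hpn⟩
      rw [e2]
      have hvR : (v : ℝ) = v' * v'' := by exact_mod_cast hvv
      have hpR : (p : ℝ) ≠ 0 := by exact_mod_cast hpp.ne_zero
      have hv''R : (v'' : ℝ) ≠ 0 := by exact_mod_cast hv''0
      rw [hvR]
      push_cast
      field_simp
    · right
      have hall : ∀ v', v' ∣ v → v' % 7 = 1 ∨ v' % 7 = 6 := by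
        intro v' hv'
        by_contra hcon
        exact hex ⟨v', hv', fun h => hcon (Or.inl h), fun h => hcon (Or.inr h)⟩
      have hvodd : Odd v := by
        rw [← Nat.not_even_iff_odd]
        intro hev
        have := hall 2 hev.two_dvd
        omega
      have hgodd : Odd g := by
        rcases hu7 with h | h
        · have : g = 7 := by rw [h] at hu; omega
          rw [this]; decide
        · have : g = 1 := by rw [h] at hu; omega
          rw [this]; decide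
      refine ⟨by rw [hv]; exact hgodd.mul hvodd, -(v : ℤ), ?_, Set.infinite_of_forall_exists_gt ?_⟩
      · exact (Int.odd_coe_nat v).mpr hvodd |>.neg
      intro n
      obtain ⟨w, hw⟩ : ∃ w : ℕ, 2 * w = u + 1 := by
        rcases hu7 with h | h
        · exact ⟨4, by omega⟩
        · exact ⟨25, by omega⟩
      have hcopw : Nat.Coprime w u := by
        have h1 : Nat.Coprime (2 * w) u := by
          rw [hw]; exact Nat.coprime_self_add_left.mpr (Nat.coprime_one_left _)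
        exact Nat.Coprime.coprime_mul_left h1
      have hcop' : IsCoprime (-((v : ℤ) * w)) (u : ℤ) := by
        refine IsCoprime.neg_left ?_
        have : IsCoprime (((v * w : ℕ)) : ℤ) (u : ℤ) :=
          Nat.isCoprime_iff_coprime.mpr (Nat.Coprime.mul_left hcop hcopw)
        simpa using this
      obtain ⟨p, hpn, hpp, hpm⟩ := Nat.forall_exists_prime_gt_and_zmodEq n hu0 hcop'
      obtain ⟨k, hk⟩ := (Int.modEq_iff_dvd.mp hpm)
      have hp0 : (p : ℤ) ≠ 0 := by exact_mod_cast hpp.ne_zero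
      have ht : (2 : ℤ) * p ≠ 0 := mul_ne_zero (by norm_num) hp0
      have hwZ : (2 : ℤ) * w = u + 1 := by exact_mod_cast hw
      have hm : (u : ℤ) * (-2 * k - v) - v = 2 * (p : ℤ) := by
        have e : (u : ℤ) * k = -((v : ℤ) * w) - p := hk.symm
        linear_combination (-2) * e + (v : ℤ) * hwZ
      obtain ⟨e1, e2⟩ := arith_key q g u v hgpos hvpos hu hv _ _ ht hm
      have h7 : (7 : ℤ) ∣ 2 * (p : ℤ) + v := by
        rw [← hm]
        have : (u : ℤ) * (-2 * k - v) - v + v = (u : ℤ) * (-2 * k - v) := by ring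
        rw [this]
        exact Dvd.dvd.mul_right (by exact_mod_cast h7u) _
      have hv16 := hall v dvd_rfl
      refine ⟨p, ⟨hpp, by omega, by omega, by omega, _, e1, ?_⟩, hpn⟩
      rw [e2]
      push_cast
      ring

theorem arith_c_totient {q : ℕ} [NeZero q] {c : ZMod q → ℂ} (h : Nice q c) {p : ℕ} (hp : p.Prime)
    (hqp : q < p) : c (p : ZMod q) ^ Nat.totient q = 1 := by
  have hcop : Nat.Coprime p q :=
    (Nat.Prime.coprime_iff_not_dvd hp).mpr fun hd =>
      absurd (Nat.le_of_dvd (Nat.pos_of_ne_zero (NeZero.ne q)) hd) (by omega)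
  have := c_totient h.c_one h.mult (ZMod.unitOfCoprime p hcop)
  simpa using this

theorem arith_log_of_cube {q : ℕ} [NeZero q] {c : ZMod q → ℂ} (h : Nice q c) {η : ℝ} {p : ℕ} (hp : p.Prime)
    (hqp : q < p) (h3 : (c (p : ZMod q) * npow p η) ^ 3 = 1) :
    ∃ k : ℤ, (3 * Nat.totient q : ℕ) * (η * Real.log p) = k * (2 * Real.pi) := by
  have h1 : npow p η ^ (3 * Nat.totient q) = 1 := by
    have e : (c (p : ZMod q) * npow p η) ^ (3 * Nat.totient q) = 1 := by
      rw [pow_mul, h3, one_pow]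
    rw [mul_pow, mul_comm 3, pow_mul, arith_c_totient h hp hqp, one_pow, one_mul] at e
    rw [mul_comm 3]
    exact e
  rw [npow, ← Complex.exp_nat_mul, Complex.exp_eq_one_iff] at h1
  obtain ⟨k, hk⟩ := h1
  refine ⟨k, ?_⟩
  have h2 : (((3 * Nat.totient q : ℕ) * (η * Real.log p) : ℝ) : ℂ) * I
      = ((k * (2 * Real.pi) : ℝ) : ℂ) * I := by
    push_cast
    push_cast at hk
    linear_combination hk
  have h3' := mul_right_cancel₀ I_ne_zero h2
  exact_mod_cast h3'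

theorem exists_prime {q : ℕ} [NeZero q] {c : ZMod q → ℂ} (h : Nice q c) {η : ℝ} (hη : η ≠ 0) {S : Set ℕ}
    (hS : S.Infinite) (hSp : ∀ p ∈ S, p.Prime) (N : ℕ) :
    ∃ p ∈ S, N < p ∧ (c (p : ZMod q) * npow p η) ^ 3 ≠ 1 := by
  by_contra hcon
  have hall : ∀ p ∈ S, N < p → (c (p : ZMod q) * npow p η) ^ 3 = 1 := by
    intro p hp hN
    by_contra h3
    exact hcon ⟨p, hp, hN, h3⟩
  obtain ⟨p, hpS, hpN⟩ := hS.exists_gt (max N q)
  obtain ⟨p', hpS', hpN'⟩ := hS.exists_gt p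
  have hp := hSp p hpS
  have hp' := hSp p' hpS'
  have hNp : N < p := lt_of_le_of_lt (le_max_left _ _) hpN
  have hqp : q < p := lt_of_le_of_lt (le_max_right _ _) hpN
  obtain ⟨k, hk⟩ := arith_log_of_cube h hp hqp (hall p hpS hNp)
  obtain ⟨k', hk'⟩ := arith_log_of_cube h hp' (hqp.trans hpN') (hall p' hpS' (hNp.trans hpN'))
  have hφ : 0 < Nat.totient q := Nat.totient_pos.mpr (Nat.pos_of_ne_zero (NeZero.ne q))
  have hφR : (0 : ℝ) < ((3 * Nat.totient q : ℕ) : ℝ) := by exact_mod_cast (by omega)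
  have hlp : 0 < Real.log p := Real.log_pos (by exact_mod_cast hp.one_lt)
  have hlp' : 0 < Real.log p' := Real.log_pos (by exact_mod_cast hp'.one_lt)
  have hπ : (0 : ℝ) < 2 * Real.pi := by positivity
  -- `k' log p = k log p'`
  have e1 : (k' : ℝ) * Real.log p = k * Real.log p' := by
    have hne : ((3 * Nat.totient q : ℕ) : ℝ) * η * (2 * Real.pi) ≠ 0 :=
      mul_ne_zero (mul_ne_zero hφR.ne' hη) hπ.ne'
    apply mul_left_cancel₀ hne
    linear_combination (2 * Real.pi * (k' : ℝ)) * hk - (2 * Real.pi * (k : ℝ)) * hk'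
  have hk0 : k' ≠ 0 := by
    rintro rfl
    have : ((3 * Nat.totient q : ℕ) : ℝ) * (η * Real.log p') ≠ 0 :=
      mul_ne_zero hφR.ne' (mul_ne_zero hη hlp'.ne')
    apply this
    rw [hk']; simp
  have e2 : (k'.natAbs : ℝ) * Real.log p = (k.natAbs : ℝ) * Real.log p' := by
    have := congrArg abs e1
    rw [abs_mul, abs_mul, abs_of_pos hlp, abs_of_pos hlp'] at this
    rw [Nat.cast_natAbs, Nat.cast_natAbs]
    push_cast
    exact this
  have e3 : p ^ k'.natAbs = p' ^ k.natAbs := by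
    have h1 : Real.log ((p : ℝ) ^ k'.natAbs) = Real.log ((p' : ℝ) ^ k.natAbs) := by
      rw [Real.log_pow, Real.log_pow]; exact e2
    have h2 := Real.log_injOn_pos (Set.mem_Ioi.mpr (pow_pos (by exact_mod_cast hp.pos) _))
      (Set.mem_Ioi.mpr (pow_pos (by exact_mod_cast hp'.pos) _)) h1
    exact_mod_cast h2
  have hdvd : p ∣ p' ^ k.natAbs := by
    rw [← e3]
    exact dvd_pow_self p (Int.natAbs_ne_zero.mpr hk0)
  have hd := hp.dvd_of_dvd_pow hdvd
  rcases (Nat.dvd_prime hp').mp hd with h1 | h1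
  · exact hp.one_lt.ne' h1
  · omega

end Pool.Agent.Helper25.BC
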