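import Pool.Agent.Helper25.BC.Defs

/-!
Block BC-V (MP_bd232a_nt, part C). Dirichlet convolution `a = a₁ * a₂` and completely multiplicative twists.
PROOF. `conv_coeff`: for `Re s > 1`, `LSeries H.a s = H.F s = F₁ s F₂ s = LSeries a₁ s * LSeries a₂ s`, `a₁ n = n^{iη} c(n)` for `n ≥ 1` (`h₁.coeff`) `= LSeries (a₁ ⍟ a₂) s`
(`LSeries_convolution'`/`LSeries.convolution`), and uniqueness of coefficients (`LSeries_eq_iff_of_abscissaOfAbsConv_lt_top` or similar). `H.a 0` is irrelevant.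
`twist_mul`: `ψ(n) a(n) = ∑_{d ∣ n} (ψ(d) a₁(d)) (ψ(n/d) a₂(n/d))`, again `LSeries_convolution`.
`inert_sum`: `∑_{p ∣ n} ψ(n) a(n) n^{-s} = ∑_m ψ(pm) a(pm) (pm)^{-s} = ∑_k ψ(p³k) a(k) (p³k)^{-s}` (`H.inert`). `deg1_sum`: `c(pn) = c(p)c(n)` (`c_mul`-type hypothesis `hu`), so
`∑_{p ∣ n} ψ(n) c(n) n^{iη} n^{-s} = ψ(p)c(p)p^{iη}p^{-s} ∑_m ...`.
-/

open Complex

namespace Pool.Agent.Helper25.BC

open Pool.Agent.Helper19.BD

/-- product with a function bounded by `1` -/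
theorem summable_mul_bdd {ψ f : ℕ → ℂ} (hψ : ∀ n, ‖ψ n‖ ≤ 1) {s : ℂ} (hf : LSeriesSummable f s) :
    LSeriesSummable (fun n => ψ n * f n) s := by
  unfold LSeriesSummable at hf ⊢
  refine Summable.of_norm_bounded hf.norm fun n => ?_
  rcases eq_or_ne n 0 with rfl | hn
  · simp
  · rw [LSeries.term_of_ne_zero hn, LSeries.term_of_ne_zero hn, mul_div_assoc, norm_mul]
    exact mul_le_of_le_one_left (norm_nonneg _) (hψ n)

theorem deg1_coeff_eq {F₁ : ℂ → ℂ} {q : ℕ} [NeZero q] {c : ZMod q → ℂ} {η : ℝ} {C₂ : ℂ}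
    (h₁ : Deg1Form F₁ q c η C₂) : ∃ (a₁ : ℕ → ℂ) (D : FE), IsSelbergWith F₁ a₁ D ∧ ∀ n : ℕ, n ≠ 0 → a₁ n = npow n η * c (n : ZMod q) := by
  obtain ⟨a₁, D, hD, _, hc⟩ := h₁.coeff
  exact ⟨a₁, D, hD, fun n hn => hc n (Nat.one_le_iff_ne_zero.mpr hn)⟩

theorem conv_coeff (H : HeckeF) {F₁ F₂ : ℂ → ℂ} {q : ℕ} [NeZero q] {c : ZMod q → ℂ} {η : ℝ} {C₂ : ℂ}
    (h₁ : Deg1Form F₁ q c η C₂) {a₂ : ℕ → ℂ} {D₂ : FE} (h₂ : IsSelbergWith F₂ a₂ D₂)
    (heq : EqOff H.F (fun s => F₁ s * F₂ s)) {n : ℕ} (hn : 1 ≤ n) :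
    H.a n = ∑ d ∈ n.divisors, (npow d η * c (d : ZMod q)) * a₂ (n / d) := by
  obtain ⟨a₁, D, hD, hc⟩ := deg1_coeff_eq h₁
  have habs : ∀ {G : ℂ → ℂ} {b : ℕ → ℂ} {E : FE}, IsSelbergWith G b E → LSeries.abscissaOfAbsConv b ≤ ((1 : ℝ) : EReal) := by
    intro G b E hG
    exact LSeries.abscissaOfAbsConv_le_of_forall_lt_LSeriesSummable fun y hy => hG.summable y (by simpa using hy)
  have hconvsum : ∀ s : ℂ, 1 < s.re → LSeriesSummable (LSeries.convolution a₁ a₂) s := fun s hs =>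
    (hD.summable s hs).convolution (h₂.summable s hs)
  have habs3 : LSeries.abscissaOfAbsConv (LSeries.convolution a₁ a₂) ≤ ((1 : ℝ) : EReal) :=
    LSeries.abscissaOfAbsConv_le_of_forall_lt_LSeriesSummable fun y hy => hconvsum y (by simpa using hy)
  have hlt : ((1 : ℝ) : EReal) < ⊤ := EReal.coe_lt_top 1
  have hev : (fun x : ℝ => LSeries H.a x) =ᶠ[Filter.atTop] fun x : ℝ => LSeries (LSeries.convolution a₁ a₂) x := by
    filter_upwards [Filter.eventually_gt_atTop (1 : ℝ)] with x hx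
    have hx' : 1 < ((x : ℂ)).re := by simpa using hx
    have hne : (x : ℂ) ≠ 1 := by
      intro h
      rw [h] at hx'
      simp at hx'
    rw [LSeries_convolution' (hD.summable _ hx') (h₂.summable _ hx'), ← hD.eq _ hx', ← h₂.eq _ hx', ← H.selberg.eq _ hx']
    exact heq _ hne
  have hn0 : n ≠ 0 := by omega
  have key := LSeries.eq_of_LSeries_eventually_eq ((habs H.selberg).trans_lt hlt) (habs3.trans_lt hlt) hev hn0
  rw [key, LSeries.convolution_def]
  show ∑ p ∈ n.divisorsAntidiagonal, a₁ p.1 * a₂ p.2 = _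
  rw [Nat.sum_divisorsAntidiagonal (fun i j => a₁ i * a₂ j)]
  refine Finset.sum_congr rfl fun d hd => ?_
  have hd0 : d ≠ 0 := by
    rintro rfl
    simp at hd
  rw [hc d hd0]

theorem summable_deg1 {q : ℕ} [NeZero q] (c : ZMod q → ℂ) (η : ℝ) {ψ : ℕ → ℂ} (hψ : ∀ n, ‖ψ n‖ ≤ 1) {s : ℂ} (hs : 1 < s.re) :
    LSeriesSummable (fun n => ψ n * (npow n η * c (n : ZMod q))) s := by
  apply summable_mul_bdd hψ
  obtain ⟨M, hM⟩ := (Set.finite_range fun x : ZMod q => ‖c x‖).bddAbove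
  refine LSeriesSummable_of_bounded_of_one_lt_re (m := M) (fun n _ => ?_) hs
  have h1 : ‖npow n η‖ = 1 := by
    unfold npow
    rw [norm_exp]
    have : (((η : ℂ) * I * (Real.log n : ℂ))).re = 0 := by
      rw [re_mul_ofReal]; simp
    rw [this, Real.exp_zero]
  rw [norm_mul, h1, one_mul]
  exact hM ⟨_, rfl⟩

theorem twist_mul (H : HeckeF) {F₁ F₂ : ℂ → ℂ} {q : ℕ} [NeZero q] {c : ZMod q → ℂ} {η : ℝ} {C₂ : ℂ}
    (h₁ : Deg1Form F₁ q c η C₂) {a₂ : ℕ → ℂ} {D₂ : FE} (h₂ : IsSelbergWith F₂ a₂ D₂)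
    (heq : EqOff H.F (fun s => F₁ s * F₂ s)) {ψ : ℕ → ℂ} (hψ : CM ψ) {s : ℂ} (hs : 1 < s.re) :
    LSeries (fun n => ψ n * (npow n η * c (n : ZMod q))) s * LSeries (fun n => ψ n * a₂ n) s =
      LSeries (fun n => ψ n * H.a n) s := by
  rw [← LSeries_convolution' (summable_deg1 c η hψ.bound hs) (summable_mul_bdd hψ.bound (h₂.summable s hs))]
  refine LSeries_congr (fun {n} hn => ?_) s
  rw [conv_coeff H h₁ h₂ heq (Nat.one_le_iff_ne_zero.mpr hn), LSeries.convolution_def]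
  show ∑ p ∈ n.divisorsAntidiagonal, (ψ p.1 * (npow p.1 η * c (p.1 : ZMod q))) * (ψ p.2 * a₂ p.2) = _
  rw [Nat.sum_divisorsAntidiagonal (fun i j => (ψ i * (npow i η * c (i : ZMod q))) * (ψ j * a₂ j)), Finset.mul_sum]
  refine Finset.sum_congr rfl fun d hd => ?_
  have hdn : d * (n / d) = n := Nat.mul_div_cancel' (Nat.dvd_of_mem_divisors hd)
  have : ψ n = ψ d * ψ (n / d) := by rw [← hψ.mul, hdn]
  rw [this]
  ring

theorem cm_rem {ψ : ℕ → ℂ} (hψ : CM ψ) {p : ℕ} (hp : p.Prime) : CM (rem p ψ) where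
  one := by
    unfold rem
    rw [if_neg (by simpa using hp.one_lt.ne'), hψ.one]
  mul := by
    intro m n
    unfold rem
    by_cases hm : p ∣ m
    · rw [if_pos (hm.mul_right n), if_pos hm, zero_mul]
    · by_cases hn : p ∣ n
      · rw [if_pos (hn.mul_left m), if_pos hn, mul_zero]
      · rw [if_neg (fun h => (hp.dvd_mul.mp h).elim hm hn), if_neg hm, if_neg hn, hψ.mul]
  bound := by
    intro n
    unfold rem
    split_ifs
    · simp
    · exact hψ.bound n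

/-- Dirichlet series supported on the multiples of `d`. -/
theorem lseries_mult {d : ℕ} (hd : d ≠ 0) (h : ℕ → ℂ) (s : ℂ) :
    LSeries (fun n => if d ∣ n then h (n / d) else 0) s = (d : ℂ) ^ (-s) * LSeries h s := by
  unfold LSeries
  have hinj : Function.Injective (fun k : ℕ => d * k) := fun a b hab => Nat.eq_of_mul_eq_mul_left (Nat.pos_of_ne_zero hd) hab
  rw [← hinj.tsum_eq, ← tsum_mul_left]
  · refine tsum_congr fun k => ?_
    rcases eq_or_ne k 0 with rfl | hk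
    · simp
    · rw [LSeries.term_of_ne_zero (mul_ne_zero hd hk), LSeries.term_of_ne_zero hk, if_pos (dvd_mul_right d k),
        Nat.mul_div_cancel_left k (Nat.pos_of_ne_zero hd), Nat.cast_mul, Complex.natCast_mul_natCast_cpow, cpow_neg]
      have h1 : (d : ℂ) ^ s ≠ 0 := by
        rw [Ne, cpow_eq_zero_iff]; exact fun h => (Nat.cast_ne_zero.mpr hd) h.1
      have h2 : (k : ℂ) ^ s ≠ 0 := by
        rw [Ne, cpow_eq_zero_iff]; exact fun h => (Nat.cast_ne_zero.mpr hk) h.1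
      field_simp
  · intro n hn
    rw [Function.mem_support] at hn
    by_cases hdn : d ∣ n
    · obtain ⟨k, rfl⟩ := hdn
      exact ⟨k, rfl⟩
    · exfalso
      apply hn
      rcases eq_or_ne n 0 with rfl | hn0
      · simp
      · rw [LSeries.term_of_ne_zero hn0, if_neg hdn, zero_div]

theorem inert_sum (H : HeckeF) {ψ : ℕ → ℂ} (hψ : CM ψ) {p : ℕ} (hp : p.Prime) (h0 : p % 7 ≠ 0) (h1 : p % 7 ≠ 1)
    (h6 : p % 7 ≠ 6) {s : ℂ} (hs : 1 < s.re) :
    LSeries (fun n => rem p ψ n * H.a n) s =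
      (1 - ψ p ^ 3 * (p : ℂ) ^ (-(3 * s))) * LSeries (fun n => ψ n * H.a n) s := by
  have hf := summable_mul_bdd hψ.bound (H.selberg.summable s hs)
  have hr := summable_mul_bdd (cm_rem hψ hp).bound (H.selberg.summable s hs)
  have hp0 : p ≠ 0 := hp.ne_zero
  have h3 : LSeries ((fun n => ψ n * H.a n) - fun n => rem p ψ n * H.a n) s =
      LSeries (fun n => if p ^ 3 ∣ n then (ψ p ^ 3 • fun n => ψ n * H.a n) (n / p ^ 3) else 0) s := by
    refine LSeries_congr (fun {n} hn => ?_) s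
    simp only [Pi.sub_apply, Pi.smul_apply, smul_eq_mul]
    unfold rem
    by_cases hpn : p ∣ n
    · obtain ⟨m, rfl⟩ := hpn
      have hm : 1 ≤ m := Nat.one_le_iff_ne_zero.mpr (fun h => hn (by rw [h, mul_zero]))
      rw [if_pos (dvd_mul_right p m), zero_mul, sub_zero, H.inert p hp h0 h1 h6 m hm]
      by_cases hpm : p ^ 2 ∣ m
      · obtain ⟨k, rfl⟩ := hpm
        have e1 : p * (p ^ 2 * k) = p ^ 3 * k := by ring
        have e2 : p ^ 2 * k / p ^ 2 = k := Nat.mul_div_cancel_left k (by positivity)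
        have e3 : p ^ 3 * k / p ^ 3 = k := Nat.mul_div_cancel_left k (by positivity)
        have e4 : ψ (p ^ 3 * k) = ψ p ^ 3 * ψ k := by
          rw [hψ.mul, pow_succ, pow_succ, pow_one, hψ.mul, hψ.mul]; ring
        rw [e1, if_pos (dvd_mul_right _ k), if_pos (dvd_mul_right _ k), e2, e3, e4]
        ring
      · rw [if_neg hpm, if_neg, mul_zero]
        intro h
        apply hpm
        have : p * p ^ 2 ∣ p * m := by rwa [← pow_succ']
        exact Nat.dvd_of_mul_dvd_mul_left hp.pos this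
    · rw [if_neg hpn, sub_self, if_neg]
      exact fun h => hpn ((dvd_pow_self p (by norm_num)).trans h)
  rw [LSeries_sub hf hr, lseries_mult (pow_ne_zero 3 hp0), LSeries_smul] at h3
  have h4 : ((p ^ 3 : ℕ) : ℂ) ^ (-s) = (p : ℂ) ^ (-(3 * s)) := by
    rw [Nat.cast_pow, show (-(3 * s) : ℂ) = (-s) * 3 by ring, ← natCast_cpow_natCast_mul, mul_comm]
    norm_num
  rw [h4] at h3
  linear_combination (-1) * h3

theorem deg1_sum {q : ℕ} [NeZero q] {c : ZMod q → ℂ} (hu : ∀ (r : (ZMod q)ˣ) (x : ZMod q), c (r * x) = c r * c x)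
    (η : ℝ) {ψ : ℕ → ℂ} (hψ : CM ψ) {p : ℕ} (hp : p.Prime) (hpq : p.Coprime q) {s : ℂ} (hs : 1 < s.re) :
    LSeries (fun n => rem p ψ n * (npow n η * c (n : ZMod q))) s =
      (1 - ψ p * (c (p : ZMod q) * npow p η) * (p : ℂ) ^ (-s)) *
        LSeries (fun n => ψ n * (npow n η * c (n : ZMod q))) s := by
  have hf := summable_deg1 c η hψ.bound hs
  have hr := summable_deg1 c η (cm_rem hψ hp).bound hs
  have h3 : LSeries ((fun n => ψ n * (npow n η * c (n : ZMod q))) - fun n => rem p ψ n * (npow n η * c (n : ZMod q))) s =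
      LSeries (fun n => if p ∣ n then ((ψ p * (c (p : ZMod q) * npow p η)) • fun n => ψ n * (npow n η * c (n : ZMod q))) (n / p) else 0) s := by
    refine LSeries_congr (fun {n} hn => ?_) s
    simp only [Pi.sub_apply, Pi.smul_apply, smul_eq_mul]
    unfold rem
    by_cases hpn : p ∣ n
    · obtain ⟨m, rfl⟩ := hpn
      have hm : m ≠ 0 := fun h => hn (by rw [h, mul_zero])
      rw [if_pos (dvd_mul_right p m), if_pos (dvd_mul_right p m), zero_mul, sub_zero, Nat.mul_div_cancel_left m hp.pos, hψ.mul]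
      have e1 : npow (p * m) η = npow p η * npow m η := by
        unfold npow
        rw [← exp_add, Nat.cast_mul, Real.log_mul (Nat.cast_ne_zero.mpr hp.ne_zero) (Nat.cast_ne_zero.mpr hm)]
        congr 1; push_cast; ring
      have e2 : c ((p * m : ℕ) : ZMod q) = c (p : ZMod q) * c (m : ZMod q) := by
        have := hu (ZMod.unitOfCoprime p hpq) (m : ZMod q)
        rw [ZMod.coe_unitOfCoprime] at this
        rw [Nat.cast_mul, this]
      rw [e1, e2]
      ring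
    · rw [if_neg hpn, if_neg hpn, sub_self]
  rw [LSeries_sub hf hr, lseries_mult hp.ne_zero, LSeries_smul] at h3
  linear_combination (-1) * h3

end Pool.Agent.Helper25.BC
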