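import Pool.Agent.Helper25.BC.Defs

/-!
Block BC-R (MP_bd232a_nt, part C). The abstract twist argument.
PROOF. For `Re s > 1`, multiply `hE1` by `P₁ D ∏_i D_i`:
`P₁ D (∏ D_i) E = P₁ F ∏ D_i - κ P₃ F ∏ D_i + ∑_i κ_i P₁ D F_i ∏_{j ≠ i} D_j`. Both sides are analytic on the (convex) half plane `Re s > -1/2`, so they agree there
(identity theorem). At `s` with `P₁ s = 0` only `κ P₃ F ∏ D_i` remains.
-/

open Complex

namespace Pool.Agent.Helper25.BC

open Pool.Agent.Helper19.BD

theorem twist_core {ι : Type} [Fintype ι] {E D F P₁ P₃ X Xp : ℂ → ℂ} {Di Fi Xi : ι → ℂ → ℂ} {κ : ℂ} {κi : ι → ℂ}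
    (hE : DifferentiableOn ℂ E {s : ℂ | -(1 / 2) < s.re}) (hD : Differentiable ℂ D) (hF : Differentiable ℂ F)
    (hP₁ : Differentiable ℂ P₁) (hP₃ : Differentiable ℂ P₃) (hDi : ∀ i, Differentiable ℂ (Di i))
    (hFi : ∀ i, Differentiable ℂ (Fi i)) (h0 : ∀ s : ℂ, 1 < s.re → D s * X s = F s)
    (hp : ∀ s : ℂ, 1 < s.re → P₁ s * D s * Xp s = P₃ s * F s)
    (hi : ∀ i, ∀ s : ℂ, 1 < s.re → Di i s * Xi i s = Fi i s)
    (hE1 : ∀ s : ℂ, 1 < s.re → E s = X s - κ * Xp s + ∑ i, κi i * Xi i s) {s : ℂ} (hs : -(1 / 2) < s.re)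
    (hs1 : P₁ s = 0) : κ * P₃ s * F s * ∏ i, Di i s = 0 := by
  classical
  set U : Set ℂ := {s : ℂ | -(1 / 2) < s.re} with hU
  have hUo : IsOpen U := isOpen_lt continuous_const Complex.continuous_re
  have hUc : IsPreconnected U := (convex_halfSpace_re_gt _).isPreconnected
  set l : ℂ → ℂ := fun s => P₁ s * D s * (∏ i, Di i s) * E s with hl
  set r : ℂ → ℂ := fun s => P₁ s * F s * (∏ i, Di i s) - κ * P₃ s * F s * (∏ i, Di i s) +
    ∑ i, κi i * (P₁ s * D s * Fi i s * ∏ j ∈ Finset.univ.erase i, Di j s) with hr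
  have hprod : Differentiable ℂ fun s => ∏ i, Di i s :=
    Differentiable.fun_finsetProd fun i _ => hDi i
  have hla : DifferentiableOn ℂ l U :=
    (((hP₁.mul hD).mul hprod).differentiableOn).mul hE
  have hra : DifferentiableOn ℂ r U := by
    apply Differentiable.differentiableOn
    refine Differentiable.add ?_ ?_
    · exact ((hP₁.mul hF).mul hprod).sub ((((hP₃.const_mul κ)).mul hF).mul hprod)
    · refine Differentiable.fun_sum fun i _ => ?_
      refine Differentiable.const_mul ?_ _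
      refine ((hP₁.mul hD).mul (hFi i)).mul ?_
      exact Differentiable.fun_finsetProd fun j _ => hDi j
  have hagree : ∀ s : ℂ, 1 < s.re → l s = r s := by
    intro s hs
    rw [hl, hr]
    simp only
    rw [hE1 s hs]
    have e1 : P₁ s * D s * (∏ i, Di i s) * (∑ i, κi i * Xi i s) =
        ∑ i, κi i * (P₁ s * D s * Fi i s * ∏ j ∈ Finset.univ.erase i, Di j s) := by
      rw [Finset.mul_sum]
      refine Finset.sum_congr rfl fun i _ => ?_
      rw [← hi i s hs, ← Finset.mul_prod_erase Finset.univ (fun j => Di j s) (Finset.mem_univ i)]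
      ring
    rw [← e1]
    linear_combination (P₁ s * ∏ i, Di i s) * h0 s hs - κ * (∏ i, Di i s) * hp s hs
  have heq : Set.EqOn l r U := by
    refine (hla.analyticOnNhd hUo).eqOn_of_preconnected_of_eventuallyEq (hra.analyticOnNhd hUo) hUc
      (z₀ := 2) (by rw [hU]; simp; norm_num) ?_
    have : {s : ℂ | 1 < s.re} ∈ nhds (2 : ℂ) :=
      (isOpen_lt continuous_const Complex.continuous_re).mem_nhds (by simp)
    filter_upwards [this] with s hs
    exact hagree s hs
  have h1 := heq hs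
  rw [hl, hr] at h1
  simp only [hs1] at h1
  simp only [zero_mul, mul_zero, Finset.sum_const_zero, add_zero, zero_sub] at h1
  have h2 := neg_eq_zero.1 h1.symm
  exact h2

end Pool.Agent.Helper25.BC
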