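import Pool.Agent.Helper25.BC.Defs

/-!
Block BC-X (MP_bd232a_nt, part C). Expansion of `cos(2π n a/p)` in even characters.
PROOF. `p` odd prime, `p ∤ a`. For `p ∣ n` both sides are `1` (`ψ n = 0` for `ψ ≠ 1` and for all characters mod `p`). For `p ∤ n`: orthogonality
(`DirichletCharacter.sum_char_inv_mul_char_eq` over `ℂ`): `e(na/p) = (1/(p-1)) ∑_ψ τ(ψ̄) ψ(na)`, `τ(ψ̄) = ∑_x ψ̄(x) e(x/p)`; add the same for `-n`, `ψ(-1) = ±1`: only even `ψ` remain;
the principal character contributes `-1/(p-1)` (`∑_{x ≠ 0} e(x/p) = -1`), and `1 - p/(p-1) = -1/(p-1)`. `κ ψ = τ(ψ̄) ψ(a)/(p-1)`.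
-/

open Complex

namespace Pool.Agent.Helper25.BC

open Pool.Agent.Helper19.BD

/-- The function `y ↦ cos(2π a y/p)` on `ZMod p`. -/
noncomputable def cosF (p : ℕ) [NeZero p] (a : ℤ) (y : ZMod p) : ℂ :=
  (ZMod.stdAddChar ((a : ZMod p) * y) + ZMod.stdAddChar (-((a : ZMod p) * y))) / 2

lemma cosF_nat (p : ℕ) [NeZero p] (a : ℤ) (n : ℕ) :
    (Real.cos (2 * Real.pi * n * ((a : ℝ) / p)) : ℂ) = cosF p a (n : ZMod p) := by
  unfold cosF
  have h1 : ((a : ZMod p) * (n : ZMod p)) = ((a * n : ℤ) : ZMod p) := by push_cast; rfl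
  have h2 : -((a : ZMod p) * (n : ZMod p)) = ((-(a * n) : ℤ) : ZMod p) := by push_cast; rfl
  rw [h2, h1, ZMod.stdAddChar_coe, ZMod.stdAddChar_coe, ofReal_cos, Complex.cos]
  push_cast
  congr 3 <;> ring

lemma cosF_neg (p : ℕ) [NeZero p] (a : ℤ) (y : ZMod p) : cosF p a (-y) = cosF p a y := by
  unfold cosF
  rw [mul_neg, neg_neg, add_comm]

lemma cosF_zero (p : ℕ) [NeZero p] (a : ℤ) : cosF p a 0 = 1 := by
  unfold cosF
  simp

lemma cosF_sum {p : ℕ} [Fact p.Prime] {a : ℤ} (ha : (a : ZMod p) ≠ 0) : ∑ y, cosF p a y = 0 := by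
  have h1 : ∑ y : ZMod p, ZMod.stdAddChar ((a : ZMod p) * y) = (0 : ℂ) := by
    have := AddChar.sum_mulShift (R := ZMod p) (a : ZMod p) (ZMod.isPrimitive_stdAddChar p)
    rw [if_neg ha] at this
    simpa [mul_comm] using this
  have h2 : ∑ y : ZMod p, ZMod.stdAddChar (-((a : ZMod p) * y)) = (0 : ℂ) := by
    have := AddChar.sum_mulShift (R := ZMod p) (-(a : ZMod p)) (ZMod.isPrimitive_stdAddChar p)
    rw [if_neg (neg_ne_zero.2 ha)] at this
    simpa [mul_comm] using this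
  unfold cosF
  rw [← Finset.sum_div, Finset.sum_add_distrib, h1, h2]
  simp

theorem cos_expand {p : ℕ} (hp : p.Prime) (hp2 : 2 < p) {a : ℤ} (ha : ¬ (p : ℤ) ∣ a) :
    ∃ κ : DirichletCharacter ℂ p → ℂ, ∀ n : ℕ,
      (Real.cos (2 * Real.pi * n * ((a : ℝ) / p)) : ℂ) =
        1 - (p : ℂ) / ((p : ℂ) - 1) * (if p ∣ n then 0 else 1) +
        ∑' ψ : {ψ : DirichletCharacter ℂ p // ψ ≠ 1 ∧ ψ.Even}, κ ψ.1 * ψ.1 (n : ZMod p) := by
  have : Fact p.Prime := ⟨hp⟩
  have ha' : (a : ZMod p) ≠ 0 := by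
    rw [Ne, ZMod.intCast_zmod_eq_zero_iff_dvd]; exact ha
  have hp1 : (p : ℂ) - 1 ≠ 0 := by
    have : (p : ℂ) ≠ 1 := by exact_mod_cast (by omega : p ≠ 1)
    exact sub_ne_zero.2 this
  refine ⟨fun ψ => 1 / ((p : ℂ) - 1) * ∑ y : ZMod p, ψ y⁻¹ * cosF p a y, fun n => ?_⟩
  rw [cosF_nat]
  have hts : ∑' ψ : {ψ : DirichletCharacter ℂ p // ψ ≠ 1 ∧ ψ.Even},
      (1 / ((p : ℂ) - 1) * ∑ y : ZMod p, ψ.1 y⁻¹ * cosF p a y) * ψ.1 (n : ZMod p) =
      ∑ ψ : DirichletCharacter ℂ p, Set.indicator {ψ : DirichletCharacter ℂ p | ψ ≠ 1 ∧ ψ.Even}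
        (fun ψ => (1 / ((p : ℂ) - 1) * ∑ y : ZMod p, ψ y⁻¹ * cosF p a y) * ψ (n : ZMod p)) ψ := by
    rw [← tsum_fintype (L := SummationFilter.unconditional _)]
    exact tsum_subtype {ψ : DirichletCharacter ℂ p | ψ ≠ 1 ∧ ψ.Even}
      (fun ψ : DirichletCharacter ℂ p => (1 / ((p : ℂ) - 1) * ∑ y : ZMod p, ψ y⁻¹ * cosF p a y) * ψ (n : ZMod p))
  rw [hts]
  by_cases hn : (n : ZMod p) = 0
  · have hd : p ∣ n := (ZMod.natCast_eq_zero_iff n p).1 hn
    rw [if_pos hd, hn, cosF_zero]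
    have : ∀ ψ : DirichletCharacter ℂ p, Set.indicator {ψ : DirichletCharacter ℂ p | ψ ≠ 1 ∧ ψ.Even}
        (fun ψ => (1 / ((p : ℂ) - 1) * ∑ y : ZMod p, ψ y⁻¹ * cosF p a y) * ψ (0 : ZMod p)) ψ = 0 := by
      intro ψ
      have h0 : ∀ χ : DirichletCharacter ℂ p, χ 0 = 0 := fun χ => MulChar.map_zero χ
      simp only [h0, mul_zero]
      rw [Set.indicator_zero]
    simp only [this]
    simp
  · have hd : ¬ p ∣ n := fun h => hn ((ZMod.natCast_eq_zero_iff n p).2 h)
    rw [if_neg hd]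
    set x : ZMod p := (n : ZMod p) with hx
    -- orthogonality
    have horth : ∑ ψ : DirichletCharacter ℂ p, (1 / ((p : ℂ) - 1) * ∑ y : ZMod p, ψ y⁻¹ * cosF p a y) * ψ x = cosF p a x := by
      have e1 : ∀ ψ : DirichletCharacter ℂ p, (1 / ((p : ℂ) - 1) * ∑ y : ZMod p, ψ y⁻¹ * cosF p a y) * ψ x =
          1 / ((p : ℂ) - 1) * ∑ y : ZMod p, cosF p a y * (ψ y⁻¹ * ψ x) := by
        intro ψ
        rw [mul_assoc, Finset.sum_mul]
        congr 1
        refine Finset.sum_congr rfl fun y _ => by ring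
      simp only [e1]
      rw [← Finset.mul_sum, Finset.sum_comm]
      have e2 : ∀ y : ZMod p, ∑ ψ : DirichletCharacter ℂ p, cosF p a y * (ψ y⁻¹ * ψ x) =
          if y = x then ((p : ℂ) - 1) * cosF p a x else 0 := by
        intro y
        rw [← Finset.mul_sum]
        by_cases hy : y = 0
        · have hne : y ≠ x := fun h => hn (by rw [← h, hy])
          rw [if_neg hne, hy]
          have h0 : ∀ χ : DirichletCharacter ℂ p, χ 0 = 0 := fun χ => MulChar.map_zero χ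
          simp [h0]
        · rw [DirichletCharacter.sum_char_inv_mul_char_eq ℂ (isUnit_iff_ne_zero.2 hy) x]
          by_cases hyx : y = x
          · rw [if_pos hyx, if_pos hyx, hyx, Nat.totient_prime hp, Nat.cast_sub hp.one_lt.le]
            push_cast; ring
          · rw [if_neg hyx, if_neg hyx, mul_zero]
      simp only [e2]
      rw [Finset.sum_ite_eq' Finset.univ x]
      simp only [Finset.mem_univ, if_true]
      field_simp
    rw [← horth]
    have hpt : ∀ ψ : DirichletCharacter ℂ p,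
        (1 / ((p : ℂ) - 1) * ∑ y : ZMod p, ψ y⁻¹ * cosF p a y) * ψ x =
        Set.indicator {ψ : DirichletCharacter ℂ p | ψ ≠ 1 ∧ ψ.Even}
          (fun ψ => (1 / ((p : ℂ) - 1) * ∑ y : ZMod p, ψ y⁻¹ * cosF p a y) * ψ x) ψ +
        (if ψ = 1 then (-1 / ((p : ℂ) - 1)) else 0) := by
      intro ψ
      by_cases h1 : ψ = 1
      · rw [if_pos h1]
        have hnot : ψ ∉ {ψ : DirichletCharacter ℂ p | ψ ≠ 1 ∧ ψ.Even} := fun h => h.1 h1
        rw [Set.indicator_of_notMem hnot, h1, zero_add]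
        have hone : ∀ y : ZMod p, (1 : DirichletCharacter ℂ p) y⁻¹ * cosF p a y = cosF p a y - (if y = 0 then 1 else 0) := by
          intro y
          by_cases hy : y = 0
          · rw [if_pos hy, hy, cosF_zero, inv_zero, MulChar.map_zero]
            simp
          · rw [if_neg hy, MulChar.one_apply (isUnit_iff_ne_zero.2 (inv_ne_zero hy))]
            ring
        simp only [hone]
        rw [Finset.sum_sub_distrib, cosF_sum ha', MulChar.one_apply (isUnit_iff_ne_zero.2 hn)]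
        simp
        ring
      · rw [if_neg h1, add_zero]
        by_cases he : ψ.Even
        · rw [Set.indicator_of_mem (show ψ ∈ {ψ : DirichletCharacter ℂ p | ψ ≠ 1 ∧ ψ.Even} from ⟨h1, he⟩)]
        · have hnot : ψ ∉ {ψ : DirichletCharacter ℂ p | ψ ≠ 1 ∧ ψ.Even} := fun h => he h.2
          rw [Set.indicator_of_notMem hnot]
          have ho : ψ (-1) = -1 := by
            rcases ψ.even_or_odd with h | h
            · exact absurd h he
            · exact h
          have hz : ∑ y : ZMod p, ψ y⁻¹ * cosF p a y = 0 := by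
            have h2 : ∑ y : ZMod p, ψ y⁻¹ * cosF p a y = ∑ y : ZMod p, ψ (-y)⁻¹ * cosF p a (-y) :=
              (Fintype.sum_equiv (Equiv.neg (ZMod p)) _ _ (fun y => rfl)).symm
            have h3 : ∀ y : ZMod p, ψ (-y)⁻¹ * cosF p a (-y) = -(ψ y⁻¹ * cosF p a y) := by
              intro y
              rw [cosF_neg, inv_neg, ← neg_one_mul, map_mul, ho]
              ring
            simp only [h3] at h2
            rw [Finset.sum_neg_distrib] at h2
            exact self_eq_neg.1 h2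
          rw [hz]
          simp
    rw [Finset.sum_congr rfl (fun ψ _ => hpt ψ), Finset.sum_add_distrib]
    have hs1 : ∑ ψ : DirichletCharacter ℂ p, (if ψ = 1 then (-1 / ((p : ℂ) - 1)) else 0) = -1 / ((p : ℂ) - 1) := by
      rw [Finset.sum_ite_eq' Finset.univ (1 : DirichletCharacter ℂ p)]
      simp
    rw [hs1]
    have hs2 : (1 : ℂ) - (p : ℂ) / ((p : ℂ) - 1) * 1 = -1 / ((p : ℂ) - 1) := by
      field_simp
      ring
    rw [hs2]
    ring

end Pool.Agent.Helper25.BC
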