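import Pool.Agent.Helper25.BC.Defs

/-!
Block BC-L (MP_bd232a_nt, part C). Functional equation of `ZMod.LFunction c`.
PROOF. `lfun_conj`: both sides are differentiable at `s ≠ 1` (`ZMod.differentiableAt_LFunction`; `s ↦ conj (f (conj s))` is differentiable) and agree for
`Re s > 1` (`ZMod.LFunction_eq_LSeries`, termwise conjugation); identity theorem on the connected open set `{s ≠ 1}`.
`lfun_fe`: `ZMod.LFunction_one_sub`; `dft (fun x => c (-x)) = sg • dft c`; `LFunction (C * conj c) s = C * LFunction (conj c) s` (linearity: `ZMod.LFunction` is a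
finite combination of Hurwitz zeta values, or by `LFunction_eq_LSeries`); `lfun_conj`.
`nice_fe`: `lfun_fe` at `1 - s` with `sg = 1`, `exp(π i w/2) + exp(-π i w/2) = 2 cos(π w/2)`, and `Complex.inv_Gammaℝ_one_sub`:
`2 (2π)^{-w} Γ(w) cos(π w/2) = Γ_ℝ(w)/Γ_ℝ(1-w)` (`Complex.Gammaℂ`). Note `conj (1 - s) = 1 - conj s`.
-/

open Complex

namespace Pool.Agent.Helper25.BC

open Pool.Agent.Helper19.BD

theorem lfun_conj_right {q : ℕ} [NeZero q] (c : ZMod q → ℂ) {s : ℂ} (hs : 1 < s.re) :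
    (starRingEnd ℂ) (ZMod.LFunction c ((starRingEnd ℂ) s)) = ZMod.LFunction (fun x => (starRingEnd ℂ) (c x)) s := by
  have hs' : 1 < ((starRingEnd ℂ) s).re := by rwa [conj_re]
  rw [ZMod.LFunction_eq_LSeries _ hs', ZMod.LFunction_eq_LSeries _ hs, LSeries, LSeries, conj_tsum]
  refine tsum_congr fun n => ?_
  rcases eq_or_ne n 0 with rfl | hn
  · simp [LSeries.term]
  · rw [LSeries.term_of_ne_zero hn, LSeries.term_of_ne_zero hn, map_div₀]
    congr 1
    have harg : arg (n : ℂ) ≠ Real.pi := by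
      rw [Complex.natCast_arg]; exact Real.pi_pos.ne
    have := Complex.cpow_conj (n : ℂ) s harg
    rw [this, conj_conj, conj_natCast]

theorem lfun_conj {q : ℕ} [NeZero q] (c : ZMod q → ℂ) {s : ℂ} (hs : s ≠ 1) :
    (starRingEnd ℂ) (ZMod.LFunction c ((starRingEnd ℂ) s)) = ZMod.LFunction (fun x => (starRingEnd ℂ) (c x)) s := by
  let U : Set ℂ := {(1 : ℂ)}ᶜ
  have hUo : IsOpen U := isOpen_compl_singleton
  have hU : IsPreconnected U := (isConnected_compl_singleton_of_one_lt_rank (by simp) _).isPreconnected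
  have hf : DifferentiableOn ℂ (fun s => (starRingEnd ℂ) (ZMod.LFunction c ((starRingEnd ℂ) s))) U := by
    intro z hz
    have hz1 : (starRingEnd ℂ) z ≠ 1 := by
      intro h
      apply hz
      have := congrArg (starRingEnd ℂ) h
      simpa using this
    have h1 := (ZMod.differentiableAt_LFunction c ((starRingEnd ℂ) z) (Or.inl hz1)).conj_conj
    rw [conj_conj] at h1
    exact h1.differentiableWithinAt
  have hg : DifferentiableOn ℂ (ZMod.LFunction (fun x => (starRingEnd ℂ) (c x))) U := fun z hz =>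
    (ZMod.differentiableAt_LFunction _ z (Or.inl hz)).differentiableWithinAt
  have h2 : (2 : ℂ) ∈ U := by simp [U]
  have heq : (fun s => (starRingEnd ℂ) (ZMod.LFunction c ((starRingEnd ℂ) s))) =ᶠ[nhds 2]
      ZMod.LFunction (fun x => (starRingEnd ℂ) (c x)) := by
    have hV : {z : ℂ | 1 < z.re} ∈ nhds (2 : ℂ) :=
      (continuous_re.isOpen_preimage _ isOpen_Ioi).mem_nhds (by simp)
    filter_upwards [hV] with z hz using lfun_conj_right c hz
  exact (hf.analyticOnNhd hUo).eqOn_of_preconnected_of_eventuallyEq (hg.analyticOnNhd hUo) hU h2 heq hs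

theorem lfun_smul {q : ℕ} [NeZero q] (C : ℂ) (c : ZMod q → ℂ) (s : ℂ) :
    ZMod.LFunction (fun x => C * c x) s = C * ZMod.LFunction c s := by
  simp only [ZMod.LFunction, Finset.mul_sum]
  refine Finset.sum_congr rfl fun j _ => ?_
  ring

theorem lfun_fe {q : ℕ} [NeZero q] {c : ZMod q → ℂ} {C sg : ℂ}
    (hd : ∀ k : ZMod q, ZMod.dft c k = C * (starRingEnd ℂ) (c k)) (hsg : ∀ x, c (-x) = sg * c x) {s : ℂ}
    (hs : ∀ n : ℕ, s ≠ -(n : ℂ)) (hs1 : s ≠ 1) :
    ZMod.LFunction c (1 - s) = (q : ℂ) ^ (s - 1) * (2 * Real.pi : ℂ) ^ (-s) * Gamma s * C *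
      (exp (Real.pi * I * s / 2) + sg * exp (-(Real.pi * I * s / 2))) *
      (starRingEnd ℂ) (ZMod.LFunction c ((starRingEnd ℂ) s)) := by
  have h1 : ZMod.dft c = fun k => C * (starRingEnd ℂ) (c k) := funext hd
  have h2 : ZMod.dft (fun x => c (-x)) = fun k => (sg * C) * (starRingEnd ℂ) (c k) := by
    have e : (fun x => c (-x)) = sg • c := by
      funext x
      rw [hsg x]; rfl
    rw [e, map_smul, h1]
    funext k
    simp only [Pi.smul_apply, smul_eq_mul]
    ring
  rw [ZMod.LFunction_one_sub c hs (Or.inr hs1), h1, h2, lfun_smul, lfun_smul, lfun_conj c hs1]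
  have e3 : -(Real.pi : ℂ) * I * s / 2 = -(Real.pi * I * s / 2) := by ring
  rw [e3]
  ring

theorem nice_fe {q : ℕ} [NeZero q] {c : ZMod q → ℂ} (h : Nice q c) :
    ∃ C : ℂ, C ≠ 0 ∧ ∀ s : ℂ, s.re ≤ 0 → s ≠ 0 →
      ZMod.LFunction c s = C * (q : ℂ) ^ (-s) * (Gammaℝ (1 - s) / Gammaℝ s) *
        (starRingEnd ℂ) (ZMod.LFunction c (1 - (starRingEnd ℂ) s)) := by
  obtain ⟨C, hC, hd⟩ := h.dft
  refine ⟨C, hC, fun s hs hs0 => ?_⟩
  have hw : ∀ n : ℕ, 1 - s ≠ -(n : ℂ) := by
    intro n hn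
    have h1 := congrArg re hn
    simp only [sub_re, one_re, neg_re, natCast_re] at h1
    have : (0 : ℝ) ≤ n := Nat.cast_nonneg n
    linarith
  have hw1 : 1 - s ≠ 1 := by
    intro h1
    apply hs0
    linear_combination -h1
  have key := lfun_fe hd (sg := 1) (fun x => by rw [h.even x, one_mul]) hw hw1
  have e1 : 1 - (1 - s) = s := by ring
  have e2 : 1 - s - 1 = -s := by ring
  have e3 : (starRingEnd ℂ) (1 - s) = 1 - (starRingEnd ℂ) s := by simp
  rw [e1, e2, e3] at key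
  rw [key]
  have hG := Complex.inv_Gammaℝ_one_sub hw
  rw [e1] at hG
  have hcos : exp (Real.pi * I * (1 - s) / 2) + 1 * exp (-(Real.pi * I * (1 - s) / 2)) =
      2 * cos (Real.pi * (1 - s) / 2) := by
    rw [Complex.two_cos]
    congr 1
    · congr 1; ring
    · rw [one_mul]; congr 1; ring
  rw [hcos]
  have hGne : Gammaℝ (1 - s) ≠ 0 := Gammaℝ_ne_zero_of_re_pos (by simp; linarith)
  have hq : Gammaℝ (1 - s) / Gammaℝ s = 2 * (2 * Real.pi : ℂ) ^ (-(1 - s)) * Gamma (1 - s) * cos (Real.pi * (1 - s) / 2) := by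
    rw [div_eq_mul_inv, hG, Gammaℂ_def]
    field_simp
  rw [hq]
  ring

end Pool.Agent.Helper25.BC
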