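import Pool.Agent.Helper25.BC.Defs
import Pool.Agent.Helper25.BC.CUnit
import Pool.Agent.Helper25.BC.LfunFE

/-!
Block BC-Z (MP_bd232a_nt, part C). Nonvanishing of `LFunction c` for `Re s ≥ 1` and on `Re s = 0`.
PROOF. Let `χ` be the character of `c_char`. For `Re s > 1`: `LFunction c s = ∑ c(n) n^{-s} = ∏_p ∑_k c(p^k) p^{-ks}` (`ZMod.LFunction_eq_LSeries`,
`EulerProduct.eulerProduct_hasProd` for the multiplicative function `n ↦ c(n) n^{-s}`, summable since `c` is bounded), `∑_k c(p^k) p^{-ks} = (1 - χ(p) p^{-s})^{-1}` for `p ∤ q`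
(`c(p^k) = c(p)^k`, `c_mul`), and `L(s, χ) = ∏_p (1 - χ(p) p^{-s})^{-1}` (`DirichletCharacter.LSeries_eulerProduct_hasProd`, `χ(p) = 0` for `p ∣ q`); so
`LFunction c s = L(s, χ) ∏_{p ∣ q} φ_p(p^{-s})`, `φ_p(v) = ∑_k c(p^k) v^k` (finite product over `q.primeFactors`). All factors are continuous on `Re s ≥ 1`, `s ≠ 1`
(power series with bounded coefficients, `|v| ≤ 1/2`), so the identity holds there too (limit from the right), and every factor is `≠ 0`
(`DirichletCharacter.LFunction_ne_zero_of_one_le_re`, `h.loc`). On `Re s = 0`: `nice_fe` (block BC-L) with `s = t i`, `1 - conj s = 1 + t i`, `Γ_ℝ(1 - ti) ≠ 0`, `Γ_ℝ(ti) ≠ 0`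
(`Complex.Gammaℝ_ne_zero_of_re_pos`, `Gammaℝ_eq_zero_iff`).
-/

open Complex

namespace Pool.Agent.Helper25.BC

open Pool.Agent.Helper19.BD

theorem c_bdd {q : ℕ} [NeZero q] (c : ZMod q → ℂ) (x : ZMod q) : ‖c x‖ ≤ ∑ j, ‖c j‖ :=
  Finset.single_le_sum (f := fun j => ‖c j‖) (fun _ _ => norm_nonneg _) (Finset.mem_univ x)

theorem term_pow {q : ℕ} (c : ZMod q → ℂ) (s : ℂ) {p : ℕ} (hp : p.Prime) (e : ℕ) :
    LSeries.term (fun n : ℕ => c (n : ZMod q)) s (p ^ e) =
      c ((p ^ e : ℕ) : ZMod q) * ((p : ℂ) ^ (-s)) ^ e := by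
  rw [LSeries.term_of_ne_zero (pow_ne_zero _ hp.ne_zero), div_eq_mul_inv]
  congr 1
  rw [Nat.cast_pow, ← Complex.natCast_cpow_natCast_mul, Complex.cpow_nat_mul, ← inv_pow,
    Complex.cpow_neg]

theorem norm_prime_cpow_le {p : ℕ} (hp : p.Prime) {s : ℂ} (hs : 1 ≤ s.re) :
    ‖(p : ℂ) ^ (-s)‖ ≤ 1 / (p : ℝ) := by
  rw [Complex.norm_natCast_cpow_of_pos hp.pos, neg_re, Real.rpow_neg (Nat.cast_nonneg _), one_div]
  have h1 : (1 : ℝ) ≤ (p : ℝ) := by exact_mod_cast hp.one_lt.le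
  have h0 : (0 : ℝ) < (p : ℝ) := by linarith
  have h2 : (p : ℝ) ≤ (p : ℝ) ^ s.re := by
    calc (p : ℝ) = (p : ℝ) ^ (1 : ℝ) := (Real.rpow_one _).symm
      _ ≤ (p : ℝ) ^ s.re := Real.rpow_le_rpow_of_exponent_le h1 hs
  exact inv_anti₀ h0 h2

theorem local_continuousOn {q : ℕ} [NeZero q] (c : ZMod q → ℂ) {p : ℕ} (hp : p.Prime) :
    ContinuousOn (fun s : ℂ => ∑' k : ℕ, c ((p ^ k : ℕ) : ZMod q) * ((p : ℂ) ^ (-s)) ^ k)
      {s : ℂ | 1 ≤ s.re} := by
  have hp0 : (p : ℂ) ≠ 0 := by exact_mod_cast hp.ne_zero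
  apply continuousOn_tsum (u := fun k : ℕ => (∑ j, ‖c j‖) * (1 / 2 : ℝ) ^ k)
  · intro k
    refine ContinuousOn.mul continuousOn_const (ContinuousOn.pow ?_ k)
    have h : Continuous (fun s : ℂ => (p : ℂ) ^ (-s)) :=
      (continuous_neg).const_cpow (Or.inl hp0)
    exact h.continuousOn
  · exact (summable_geometric_of_lt_one (by norm_num) (by norm_num)).mul_left _
  · intro k s hs
    rw [norm_mul, norm_pow]
    apply mul_le_mul (c_bdd c _) _ (by positivity) (Finset.sum_nonneg (fun _ _ => norm_nonneg _))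
    apply pow_le_pow_left₀ (norm_nonneg _)
    refine (norm_prime_cpow_le hp hs).trans ?_
    have h2 : (2 : ℝ) ≤ (p : ℝ) := by exact_mod_cast hp.two_le
    exact one_div_le_one_div_of_le (by norm_num) h2

theorem lfun_factor {q : ℕ} [NeZero q] {c : ZMod q → ℂ} (h : Nice q c) (χ : DirichletCharacter ℂ q)
    (hχ : ∀ n : ℕ, n.Coprime q → χ (n : ZMod q) = c (n : ZMod q)) {s : ℂ} (hs : 1 < s.re) :
    ZMod.LFunction c s = DirichletCharacter.LFunction χ s *
      ∏ p ∈ q.primeFactors, ∑' k : ℕ, c ((p ^ k : ℕ) : ZMod q) * ((p : ℂ) ^ (-s)) ^ k := by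
  have hsum : LSeriesSummable (fun n : ℕ => c (n : ZMod q)) s :=
    LSeriesSummable_of_bounded_of_one_lt_re (m := ∑ j, ‖c j‖) (fun n _ => c_bdd c _) hs
  have h1 : HasProd (fun p : Nat.Primes => ∑' e, LSeries.term (fun n : ℕ => c (n : ZMod q)) s ((p : ℕ) ^ e))
      (∑' n, LSeries.term (fun n : ℕ => c (n : ZMod q)) s n) := by
    apply EulerProduct.eulerProduct_hasProd
    · rw [LSeries.term_of_ne_zero one_ne_zero]
      simp [h.c_one]
    · intro m n hmn
      rcases Nat.eq_zero_or_pos m with rfl | hm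
      · simp
      rcases Nat.eq_zero_or_pos n with rfl | hn
      · simp
      rw [LSeries.term_of_ne_zero (mul_ne_zero hm.ne' hn.ne'), LSeries.term_of_ne_zero hm.ne',
        LSeries.term_of_ne_zero hn.ne', h.mult m n hm hn hmn, Nat.cast_mul,
        Complex.natCast_mul_natCast_cpow]
      rw [div_mul_div_comm]
    · exact hsum.norm
    · exact LSeries.term_zero _ _
  have h2 := DirichletCharacter.LSeries_eulerProduct_hasProd χ hs
  set d : Nat.Primes → ℂ := fun p => if (p : ℕ) ∣ q then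
    ∑' k : ℕ, c (((p : ℕ) ^ k : ℕ) : ZMod q) * (((p : ℕ) : ℂ) ^ (-s)) ^ k else 1 with hd
  have h3 : HasProd d (∏ p ∈ q.primeFactors,
      ∑' k : ℕ, c ((p ^ k : ℕ) : ZMod q) * ((p : ℂ) ^ (-s)) ^ k) := by
    have e : ∏ p ∈ q.primeFactors, ∑' k : ℕ, c ((p ^ k : ℕ) : ZMod q) * ((p : ℂ) ^ (-s)) ^ k =
        ∏ p ∈ q.primeFactors.subtype Nat.Prime, d p := by
      rw [← Finset.prod_subtype_of_mem (p := Nat.Prime) _
        (fun x hx => Nat.prime_of_mem_primeFactors hx)]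
      refine Finset.prod_congr rfl (fun p hp => ?_)
      rw [Finset.mem_subtype] at hp
      rw [hd]
      simp only
      rw [if_pos (Nat.dvd_of_mem_primeFactors hp)]
    rw [e]
    apply hasProd_prod_of_ne_finset_one
    intro p hp
    have hp' : (p : ℕ) ∉ q.primeFactors := fun hh => hp (Finset.mem_subtype.mpr hh)
    rw [hd]
    simp only
    rw [if_neg]
    intro hpq
    exact hp' (Nat.mem_primeFactors.mpr ⟨p.2, hpq, NeZero.ne q⟩)
  have h4 := h2.mul h3
  have e1 : ∀ p : Nat.Primes, ∑' e, LSeries.term (fun n : ℕ => c (n : ZMod q)) s ((p : ℕ) ^ e) =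
      (1 - χ ((p : ℕ) : ZMod q) * ((p : ℕ) : ℂ) ^ (-s))⁻¹ * d p := by
    intro p
    have hterm : ∀ e, LSeries.term (fun n : ℕ => c (n : ZMod q)) s ((p : ℕ) ^ e) =
        c (((p : ℕ) ^ e : ℕ) : ZMod q) * (((p : ℕ) : ℂ) ^ (-s)) ^ e :=
      fun e => term_pow c s p.2 e
    simp_rw [hterm]
    by_cases hpq : (p : ℕ) ∣ q
    · have hz : χ ((p : ℕ) : ZMod q) = 0 := by
        apply χ.map_nonunit
        rw [ZMod.isUnit_iff_coprime]
        intro hc
        have := Nat.Coprime.eq_one_of_dvd hc hpq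
        exact p.2.one_lt.ne' this
      rw [hz, hd]
      simp only
      rw [if_pos hpq]
      simp
    · have hcop : (p : ℕ).Coprime q := (Nat.Prime.coprime_iff_not_dvd p.2).mpr hpq
      have hpow : ∀ e : ℕ, c (((p : ℕ) ^ e : ℕ) : ZMod q) * (((p : ℕ) : ℂ) ^ (-s)) ^ e =
          (χ ((p : ℕ) : ZMod q) * ((p : ℕ) : ℂ) ^ (-s)) ^ e := by
        intro e
        rw [← hχ _ (Nat.Coprime.pow_left e hcop), Nat.cast_pow, map_pow, mul_pow]
      simp_rw [hpow]
      rw [hd]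
      simp only
      rw [if_neg hpq, mul_one]
      apply tsum_geometric_of_norm_lt_one
      rw [norm_mul]
      have a1 : ‖χ ((p : ℕ) : ZMod q)‖ ≤ 1 := χ.norm_le_one _
      have a2 := norm_prime_cpow_le p.2 hs.le
      have a3 : (1 : ℝ) / ((p : ℕ) : ℝ) < 1 := by
        rw [div_lt_one (by exact_mod_cast p.2.pos)]
        exact_mod_cast p.2.one_lt
      calc ‖χ ((p : ℕ) : ZMod q)‖ * ‖((p : ℕ) : ℂ) ^ (-s)‖ ≤ 1 * (1 / ((p : ℕ) : ℝ)) :=
            mul_le_mul a1 a2 (norm_nonneg _) zero_le_one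
        _ < 1 := by rw [one_mul]; exact a3
  have h5 : HasProd (fun p : Nat.Primes => ∑' e, LSeries.term (fun n : ℕ => c (n : ZMod q)) s ((p : ℕ) ^ e))
      (LSeries (fun n : ℕ => χ (n : ZMod q)) s * ∏ p ∈ q.primeFactors,
        ∑' k : ℕ, c ((p ^ k : ℕ) : ZMod q) * ((p : ℂ) ^ (-s)) ^ k) := by
    have e2 : (fun p : Nat.Primes => ∑' e, LSeries.term (fun n : ℕ => c (n : ZMod q)) s ((p : ℕ) ^ e)) =
        fun p : Nat.Primes => (1 - χ ((p : ℕ) : ZMod q) * ((p : ℕ) : ℂ) ^ (-s))⁻¹ * d p := funext e1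
    rw [e2]
    exact h4
  have h6 := h1.unique h5
  rw [ZMod.LFunction_eq_LSeries c hs, DirichletCharacter.LFunction_eq_LSeries χ hs]
  exact h6

theorem lfun_factor' {q : ℕ} [NeZero q] {c : ZMod q → ℂ} (h : Nice q c) (χ : DirichletCharacter ℂ q)
    (hχ : ∀ n : ℕ, n.Coprime q → χ (n : ZMod q) = c (n : ZMod q)) {s : ℂ} (hs : 1 ≤ s.re)
    (hs1 : s ≠ 1) :
    ZMod.LFunction c s = DirichletCharacter.LFunction χ s *
      ∏ p ∈ q.primeFactors, ∑' k : ℕ, c ((p ^ k : ℕ) : ZMod q) * ((p : ℂ) ^ (-s)) ^ k := by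
  have hlim : Filter.Tendsto (fun ε : ℝ => s + (ε : ℂ)) (nhdsWithin 0 (Set.Ioi 0))
      (nhdsWithin s {s : ℂ | 1 ≤ s.re}) := by
    apply tendsto_nhdsWithin_of_tendsto_nhds_of_eventually_within
    · have h0 : Continuous (fun ε : ℝ => s + (ε : ℂ)) := by fun_prop
      have h1 := h0.tendsto 0
      simp only [ofReal_zero, add_zero] at h1
      exact h1.mono_left nhdsWithin_le_nhds
    · filter_upwards [self_mem_nhdsWithin] with ε hε
      have : (0 : ℝ) < ε := hε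
      change 1 ≤ (s + (ε : ℂ)).re
      rw [add_re, ofReal_re]
      linarith
  have hL : Filter.Tendsto (fun ε : ℝ => ZMod.LFunction c (s + (ε : ℂ)))
      (nhdsWithin 0 (Set.Ioi 0)) (nhds (ZMod.LFunction c s)) := by
    have h1 : ContinuousAt (ZMod.LFunction c) s :=
      (ZMod.differentiableAt_LFunction c s (Or.inl hs1)).continuousAt
    exact h1.continuousWithinAt.tendsto.comp hlim
  have hR : Filter.Tendsto (fun ε : ℝ => DirichletCharacter.LFunction χ (s + (ε : ℂ)) *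
      ∏ p ∈ q.primeFactors, ∑' k : ℕ, c ((p ^ k : ℕ) : ZMod q) * ((p : ℂ) ^ (-(s + (ε : ℂ)))) ^ k)
      (nhdsWithin 0 (Set.Ioi 0)) (nhds (DirichletCharacter.LFunction χ s *
      ∏ p ∈ q.primeFactors, ∑' k : ℕ, c ((p ^ k : ℕ) : ZMod q) * ((p : ℂ) ^ (-s)) ^ k)) := by
    have h1 : ContinuousAt (DirichletCharacter.LFunction χ) s :=
      (DirichletCharacter.differentiableAt_LFunction χ s (Or.inl hs1)).continuousAt
    refine (h1.continuousWithinAt.tendsto.comp hlim).mul ?_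
    apply tendsto_finsetProd
    intro p hp
    exact (local_continuousOn c (Nat.prime_of_mem_primeFactors hp) s hs).tendsto.comp hlim
  refine tendsto_nhds_unique_of_eventuallyEq hL hR ?_
  filter_upwards [self_mem_nhdsWithin] with ε hε
  have : (0 : ℝ) < ε := hε
  exact lfun_factor h χ hχ (by
    simp only [add_re, ofReal_re]
    linarith)

theorem nice_ne_zero {q : ℕ} [NeZero q] {c : ZMod q → ℂ} (h : Nice q c) {s : ℂ} (hs : 1 ≤ s.re) (hs1 : s ≠ 1) :
    ZMod.LFunction c s ≠ 0 := by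
  obtain ⟨χ, hχ⟩ := c_char h.c_one h.mult
  rw [lfun_factor' h χ hχ hs hs1]
  apply mul_ne_zero
  · exact DirichletCharacter.LFunction_ne_zero_of_one_le_re χ (Or.inr hs1) hs
  · rw [Finset.prod_ne_zero_iff]
    intro p hp
    have hpp := Nat.prime_of_mem_primeFactors hp
    exact h.loc p hpp _ (norm_prime_cpow_le hpp hs)

theorem nice_ne_zero_imag {q : ℕ} [NeZero q] {c : ZMod q → ℂ} (h : Nice q c) {t : ℝ} (ht : t ≠ 0) :
    ZMod.LFunction c ((t : ℂ) * I) ≠ 0 := by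
  obtain ⟨C, hC, hfe⟩ := nice_fe h
  have hre : ((t : ℂ) * I).re = 0 := by simp
  have him : ((t : ℂ) * I).im = t := by simp
  have hne : (t : ℂ) * I ≠ 0 := mul_ne_zero (by exact_mod_cast ht) I_ne_zero
  rw [hfe _ hre.le hne]
  have hq : (q : ℂ) ≠ 0 := by exact_mod_cast NeZero.ne q
  have h1 : Gammaℝ (1 - (t : ℂ) * I) ≠ 0 := by
    apply Gammaℝ_ne_zero_of_re_pos
    rw [sub_re, hre]
    norm_num
  have h2 : Gammaℝ ((t : ℂ) * I) ≠ 0 := by
    intro h0
    rw [Gammaℝ_eq_zero_iff] at h0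
    obtain ⟨n, hn⟩ := h0
    have := congrArg Complex.im hn
    rw [him] at this
    simp at this
    exact ht this
  have h3 : (starRingEnd ℂ) (ZMod.LFunction c (1 - (starRingEnd ℂ) ((t : ℂ) * I))) ≠ 0 := by
    rw [map_ne_zero]
    apply nice_ne_zero h
    · simp
    · intro h0
      have := congrArg Complex.im h0
      simp at this
      exact ht this
  refine mul_ne_zero (mul_ne_zero (mul_ne_zero hC ?_) (div_ne_zero h1 h2)) h3
  rw [Ne, Complex.cpow_eq_zero_iff]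
  exact fun hh => hq hh.1

end Pool.Agent.Helper25.BC
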