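import Pool.Agent.Helper25.BC.Defs
import Pool.Agent.Helper25.BC.CUnit

/-!
Block BC-D (MP_bd232a_nt, part C). Discrete Fourier transform of the twist.
PROOF. `p` prime, `p ∤ q`. CRT: `ZMod (q p) ≃ ZMod q × ZMod p`. `dft (tw c ψ) k = ∑_x stdAddChar(-(x k)) c(x) ψ(x)`. With integers `u, v`, `u p ≡ 1 mod q`, `v q ≡ 1 mod p`
(so `u p + v q ≡ 1 mod q p`): `e(-xk/(qp)) = e(-u x k/q) e(-v x k/p)` (`ZMod.stdAddChar_coe`, `ZMod.toCircle`), so the sum is
`dft c (u k) * dft ψ (v k)`. `dft c (u k) = C conj(c(u k)) = C conj(c u) conj(c k)` (`hu`, `u` a unit mod `q`); `dft ψ (v k) = const * conj(ψ k)`, `const ≠ 0`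
(`DirichletCharacter.IsPrimitive.fourierTransform_eq_inv_mul_gaussSum` or `gaussSum_mulShift`, `gaussSum_ne_zero_of_nontrivial`; `ψ⁻¹ = conj ψ`).
-/

open Complex

namespace Pool.Agent.Helper25.BC

open Pool.Agent.Helper19.BD

/-- The discrete Fourier transform of a nontrivial character modulo a prime. -/
theorem dft_prime_char {p : ℕ} [NeZero p] (hp : p.Prime) {ψ : DirichletCharacter ℂ p} (hψ : ψ ≠ 1) :
    ∃ G : ℂ, G ≠ 0 ∧ ∀ k : ZMod p, ZMod.dft ψ k = G * (starRingEnd ℂ) (ψ k) := by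
  have : Fact p.Prime := ⟨hp⟩
  have hprim : ψ.IsPrimitive := by
    rw [DirichletCharacter.isPrimitive_def]
    rcases (Nat.dvd_prime hp).1 ψ.conductor_dvd_level with h | h
    · exact absurd (DirichletCharacter.eq_one_iff_conductor_eq_one.2 h) hψ
    · exact h
  have hg : gaussSum ψ ZMod.stdAddChar ≠ 0 := by
    refine gaussSum_ne_zero_of_nontrivial ?_ hψ (ZMod.isPrimitive_stdAddChar p)
    rw [ZMod.card]
    exact_mod_cast hp.ne_zero
  have hm1 : ψ⁻¹ (-1) ≠ 0 := by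
    have : IsUnit (-1 : ZMod p) := isUnit_one.neg
    exact (this.map ψ⁻¹).ne_zero
  refine ⟨ψ⁻¹ (-1) * gaussSum ψ ZMod.stdAddChar, mul_ne_zero hm1 hg, fun k => ?_⟩
  rw [hprim.fourierTransform_eq_inv_mul_gaussSum]
  have h1 : ψ⁻¹ (-k) = ψ⁻¹ (-1) * ψ⁻¹ k := by rw [← map_mul, neg_one_mul]
  have h2 : (starRingEnd ℂ) (ψ k) = ψ⁻¹ k := MulChar.star_apply' ψ k
  rw [h1, h2]
  ring

theorem dft_tw {q p : ℕ} [NeZero q] [NeZero p] (hp : p.Prime) (hpq : p.Coprime q) {c : ZMod q → ℂ}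
    (hu : ∀ (r : (ZMod q)ˣ) (x : ZMod q), c (r * x) = c r * c x) (hn : ∀ r : (ZMod q)ˣ, ‖c r‖ = 1) {C : ℂ} (hC : C ≠ 0)
    (hd : ∀ k : ZMod q, ZMod.dft c k = C * (starRingEnd ℂ) (c k)) {ψ : DirichletCharacter ℂ p} (hψ : ψ ≠ 1) :
    ∃ C' : ℂ, C' ≠ 0 ∧ ∀ k : ZMod (q * p), ZMod.dft (tw c ψ) k = C' * (starRingEnd ℂ) (tw c ψ k) := by
  obtain ⟨G, hG, hdψ⟩ := dft_prime_char hp hψ
  -- Bezout
  obtain ⟨U, V, hUV⟩ : IsCoprime (p : ℤ) (q : ℤ) := Nat.isCoprime_iff_coprime.2 hpq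
  set A : ZMod (q * p) →+* ZMod q := ZMod.castHom (Dvd.intro p rfl) (ZMod q) with hA
  set B : ZMod (q * p) →+* ZMod p := ZMod.castHom (Dvd.intro_left q rfl) (ZMod p) with hB
  have hUq : (U : ZMod q) * (p : ZMod q) = 1 := by
    have := congrArg (Int.cast : ℤ → ZMod q) hUV
    push_cast at this
    rw [ZMod.natCast_self, mul_zero, add_zero] at this
    exact this
  have hVp : (V : ZMod p) * (q : ZMod p) = 1 := by
    have := congrArg (Int.cast : ℤ → ZMod p) hUV
    push_cast at this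
    rw [ZMod.natCast_self, mul_zero, zero_add] at this
    exact this
  let u : (ZMod q)ˣ := Units.mkOfMulEqOne _ _ hUq
  let v : (ZMod p)ˣ := Units.mkOfMulEqOne _ _ hVp
  have hu' : (u : ZMod q) = (U : ZMod q) := rfl
  have hv' : (v : ZMod p) = (V : ZMod p) := rfl
  -- factorisation of the additive character
  have hchar : ∀ x : ZMod (q * p), ZMod.stdAddChar x =
      ZMod.stdAddChar ((u : ZMod q) * A x) * ZMod.stdAddChar ((v : ZMod p) * B x) := by
    intro x
    obtain ⟨m, rfl⟩ := ZMod.intCast_surjective x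
    have hq0 : (q : ℂ) ≠ 0 := Nat.cast_ne_zero.2 (NeZero.ne q)
    have hp0 : (p : ℂ) ≠ 0 := Nat.cast_ne_zero.2 (NeZero.ne p)
    have e1 : (u : ZMod q) * A (m : ZMod (q * p)) = ((U * m : ℤ) : ZMod q) := by
      rw [map_intCast, hu']; push_cast; rfl
    have e2 : (v : ZMod p) * B (m : ZMod (q * p)) = ((V * m : ℤ) : ZMod p) := by
      rw [map_intCast, hv']; push_cast; rfl
    rw [e1, e2, ZMod.stdAddChar_coe, ZMod.stdAddChar_coe, ZMod.stdAddChar_coe, ← Complex.exp_add]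
    congr 1
    have h3 : (U : ℂ) * p + V * q = 1 := by exact_mod_cast hUV
    push_cast
    field_simp
    linear_combination (-(m : ℂ)) * h3
  -- the equivalence
  have hqp : q.Coprime p := hpq.symm
  set E := ZMod.chineseRemainder hqp with hE
  have hE1 : ∀ x, (E x).1 = A x := by
    intro x
    have : ((RingHom.fst (ZMod q) (ZMod p)).comp (E : ZMod (q * p) →+* ZMod q × ZMod p)) = A :=
      Subsingleton.elim _ _
    exact RingHom.congr_fun this x
  have hE2 : ∀ x, (E x).2 = B x := by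
    intro x
    have : ((RingHom.snd (ZMod q) (ZMod p)).comp (E : ZMod (q * p) →+* ZMod q × ZMod p)) = B :=
      Subsingleton.elim _ _
    exact RingHom.congr_fun this x
  have hdft : ∀ k : ZMod (q * p), ZMod.dft (tw c ψ) k =
      ZMod.dft c ((u : ZMod q) * A k) * ZMod.dft ψ ((v : ZMod p) * B k) := by
    intro k
    rw [ZMod.dft_apply, ZMod.dft_apply, ZMod.dft_apply, Finset.sum_mul_sum,
      ← Fintype.sum_prod_type' (f := fun (y : ZMod q) (z : ZMod p) =>
        ZMod.stdAddChar (-(y * ((u : ZMod q) * A k))) • c y *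
          ZMod.stdAddChar (-(z * ((v : ZMod p) * B k))) • ψ z)]
    refine Fintype.sum_equiv E.toEquiv _ _ fun x => ?_
    have h1 : (E.toEquiv x).1 = A x := hE1 x
    have h2 : (E.toEquiv x).2 = B x := hE2 x
    rw [h1, h2, hchar, map_neg A, map_neg B, map_mul A, map_mul B]
    have e1 : (u : ZMod q) * -(A x * A k) = -(A x * (u * A k)) := by ring
    have e2 : (v : ZMod p) * -(B x * B k) = -(B x * (v * B k)) := by ring
    rw [e1, e2]
    simp only [smul_eq_mul, tw]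
    ring
  have hcu : c (u : ZMod q) ≠ 0 := by
    intro h
    have := hn u
    rw [h, norm_zero] at this
    exact zero_ne_one this
  have hψv : ψ (v : ZMod p) ≠ 0 := (v.isUnit.map ψ).ne_zero
  refine ⟨C * (starRingEnd ℂ) (c u) * (G * (starRingEnd ℂ) (ψ v)), ?_, fun k => ?_⟩
  · refine mul_ne_zero (mul_ne_zero hC ?_) (mul_ne_zero hG ?_)
    · exact (map_ne_zero _).2 hcu
    · exact (map_ne_zero _).2 hψv
  · rw [hdft, hd, hdψ, hu u, map_mul ψ, map_mul (starRingEnd ℂ), map_mul (starRingEnd ℂ)]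
    have : tw c ψ k = c (A k) * ψ (B k) := rfl
    rw [this, map_mul (starRingEnd ℂ)]
    ring

end Pool.Agent.Helper25.BC
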