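import Pool.Agent.Helper25.BC.Defs
import Pool.Agent.Helper25.BC.CUnit
import Pool.Agent.Helper25.BC.DftTw

/-!
Block BC-W (MP_bd232a_nt, part C). Twists of `Nice` functions by even nontrivial characters are `Nice`.
PROOF. `tw c ψ (n : ZMod (q p)) = c n * ψ n` for natural `n` (`map_natCast`). `loc`: `∑ c(l^k) ψ(l)^k v^k`, `‖ψ(l) v‖ ≤ ‖v‖`. `even`: `ψ(-1) = 1`. `dft`: `dft_tw`. `sum_zero`: the sum over
`ZMod (q p) ≃ ZMod q × ZMod p` (CRT, `ZMod.chineseRemainder`) is a product, `∑ c = 0`.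
-/

open Complex

namespace Pool.Agent.Helper25.BC

open Pool.Agent.Helper19.BD

theorem tw_natCast {q p : ℕ} (c : ZMod q → ℂ) (ψ : DirichletCharacter ℂ p) (n : ℕ) :
    tw c ψ (n : ZMod (q * p)) = c (n : ZMod q) * ψ (n : ZMod p) := by
  unfold tw
  rw [map_natCast, map_natCast]

theorem nice_tw {q p : ℕ} [NeZero q] [NeZero p] (hp : p.Prime) (hpq : p.Coprime q) {c : ZMod q → ℂ} (h : Nice q c)
    {ψ : DirichletCharacter ℂ p} (hψ : ψ ≠ 1) (he : ψ.Even) : Nice (q * p) (tw c ψ) := by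
  refine ⟨?_, ?_, ?_, ?_, ?_, ?_⟩
  · unfold tw
    rw [map_one, map_one, h.c_one, map_one, mul_one]
  · intro m n hm hn hmn
    rw [tw_natCast, tw_natCast, tw_natCast, h.mult m n hm hn hmn]
    push_cast
    rw [map_mul]
    ring
  · intro l hl v hv
    have h1 : ∀ k : ℕ, tw c ψ ((l ^ k : ℕ) : ZMod (q * p)) * v ^ k =
        c ((l ^ k : ℕ) : ZMod q) * (ψ (l : ZMod p) * v) ^ k := by
      intro k
      rw [tw_natCast]
      push_cast
      rw [map_pow, mul_pow]
      ring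
    simp_rw [h1]
    refine h.loc l hl _ ?_
    rw [norm_mul]
    calc ‖ψ (l : ZMod p)‖ * ‖v‖ ≤ 1 * ‖v‖ := by
          gcongr
          exact DirichletCharacter.norm_le_one ψ _
      _ = ‖v‖ := one_mul _
      _ ≤ _ := hv
  · intro x
    unfold tw
    rw [map_neg, map_neg, h.even, he.eval_neg]
  · obtain ⟨C, hC, hd⟩ := h.dft
    exact dft_tw hp hpq (c_mul h.mult) (c_norm h.c_one h.mult) hC hd hψ
  · set e := ZMod.chineseRemainder (hpq.symm : q.Coprime p) with he'
    have h1 : ∀ x : ZMod (q * p), tw c ψ x = c (e x).1 * ψ (e x).2 := by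
      intro x
      unfold tw
      have e1 : (RingHom.fst (ZMod q) (ZMod p)).comp e.toRingHom = ZMod.castHom (Dvd.intro p rfl) (ZMod q) :=
        RingHom.ext_zmod _ _
      have e2 : (RingHom.snd (ZMod q) (ZMod p)).comp e.toRingHom = ZMod.castHom (Dvd.intro_left q rfl) (ZMod p) :=
        RingHom.ext_zmod _ _
      rw [← e1, ← e2]
      rfl
    have h2 : ∑ x : ZMod (q * p), tw c ψ x = ∑ y : ZMod q × ZMod p, c y.1 * ψ y.2 :=
      Fintype.sum_equiv e.toEquiv _ _ h1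
    rw [h2, Fintype.sum_prod_type]
    simp_rw [← Finset.mul_sum]
    rw [← Finset.sum_mul, h.sum_zero, zero_mul]

end Pool.Agent.Helper25.BC
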