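import Pool.Agent.Helper25.BC.Defs
import Pool.Agent.Helper25.BC.CUnit

/-!
MP_bd232a_nt, part C: the points `s_k = i t_k` with `p^{-s_k} = 1/c_p` (used in both cases).
-/

open Complex

namespace Pool.Agent.Helper25.BC

open Pool.Agent.Helper19.BD

theorem npow_norm (n : ℕ) (η : ℝ) : ‖npow n η‖ = 1 := by
  unfold npow
  rw [show (η : ℂ) * I * (Real.log n : ℂ) = ((η * Real.log n : ℝ) : ℂ) * I by push_cast; ring]
  exact norm_exp_ofReal_mul_I _

theorem cp_norm {q : ℕ} [NeZero q] {c : ZMod q → ℂ} (hn : Nice q c) (η : ℝ) {p : ℕ} (hpq : p.Coprime q) :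
    ‖c (p : ZMod q) * npow p η‖ = 1 := by
  rw [norm_mul, npow_norm, mul_one]
  have := c_norm hn.c_one hn.mult (ZMod.unitOfCoprime p hpq)
  simpa using this

/-- The points `s_k = i t_k` with `p^{-s_k} = 1/c_p`. -/
theorem points {cp : ℂ} (hcp : ‖cp‖ = 1) {p : ℕ} (hp : 2 < p) :
    ∃ t₀ : ℝ, ∀ k : ℕ, (p : ℂ) ^ (-(((t₀ + 2 * Real.pi * k / Real.log p : ℝ) : ℂ) * I)) = cp⁻¹ := by
  have hlog : 0 < Real.log p := Real.log_pos (by exact_mod_cast (by omega : 1 < p))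
  refine ⟨arg cp / Real.log p, fun k => ?_⟩
  have hp0 : (p : ℂ) ≠ 0 := by exact_mod_cast (by omega : p ≠ 0)
  have hc : exp ((arg cp : ℂ) * I) = cp := by
    have := norm_mul_exp_arg_mul_I cp
    rw [hcp] at this
    simpa using this
  rw [cpow_def_of_ne_zero hp0, ← natCast_log]
  have hl : (Real.log p : ℂ) ≠ 0 := by exact_mod_cast hlog.ne'
  have hl' : log (p : ℂ) ≠ 0 := by rw [← natCast_log]; exact hl
  have e1 : (Real.log p : ℂ) * -(((arg cp / Real.log p + 2 * Real.pi * k / Real.log p : ℝ) : ℂ) * I) =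
      -((arg cp : ℂ) * I) - k * (2 * Real.pi * I) := by
    push_cast
    field_simp
    ring
  rw [e1, exp_sub, exp_nat_mul_two_pi_mul_I, exp_neg, hc, div_one]

theorem exists_large (t₀ b : ℝ) (hb : 0 < b) (H : HeckeF) (η : ℝ) : ∃ K : ℕ, ∀ k : ℕ, K ≤ k →
    (∀ j, t₀ + b * k ≠ H.nu j) ∧ t₀ + b * k ≠ η := by
  obtain ⟨K, hK⟩ := exists_nat_gt ((|H.nu 0| + |H.nu 1| + |H.nu 2| + |η| + |t₀|) / b)
  refine ⟨K, fun k hk => ?_⟩
  have h1 : |H.nu 0| + |H.nu 1| + |H.nu 2| + |η| + |t₀| < b * k := by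
    rw [div_lt_iff₀ hb] at hK
    have : (K : ℝ) ≤ k := by exact_mod_cast hk
    nlinarith
  have h2 := neg_abs_le t₀
  have a0 := abs_nonneg (H.nu 0)
  have a1 := abs_nonneg (H.nu 1)
  have a2 := abs_nonneg (H.nu 2)
  have a3 := abs_nonneg η
  refine ⟨fun j => ?_, ?_⟩
  · have h3 := le_abs_self (H.nu j)
    fin_cases j <;> simp only [Fin.isValue, Fin.zero_eta, Fin.mk_one, Fin.reduceFinMk] at h3 ⊢ <;>
      intro h <;> linarith
  · have h3 := le_abs_self η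
    intro h; linarith

end Pool.Agent.Helper25.BC
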