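import Pool.Agent.Helper25.BC.Defs
import Pool.Agent.Helper25.BC.CUnit
import Pool.Agent.Helper25.BC.NiceTw
import Pool.Agent.Helper25.BC.Lines
import Pool.Agent.Helper25.BC.Conv
import Pool.Agent.Helper25.BC.CosExp
import Pool.Agent.Helper25.BC.Core
import Pool.Agent.Helper25.BC.Pts

/-!
Block BC-1 (MP_bd232a_nt, part C). Contradiction in case (I). (Lean proof: helper57)
PROOF. `D s = LFunction c (s - iη)`, `F = H.F`, `P₁ s = 1 - c_p p^{-s}`, `c_p = c(p) npow p η` (`‖c_p‖ = 1`), `P₃ s = 1 - p^{-3s}`, `X = LSeries a₂`, `Xp = LSeries (rem p 1 · a₂)`, index type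
`ι = {ψ // ψ ≠ 1 ∧ ψ.Even}` (a finite type), `Di ψ s = LFunction (tw c ψ) (s - iη)` (entire: `ZMod.differentiable_LFunction_of_sum_zero`, `(nice_tw ..).sum_zero`), `Fi ψ` = the entire function of `H.twist`,
`Xi ψ = LSeries (ψ · a₂)`, `κ = p/(p-1)`. The hypotheses of `twist_core` hold by `twist_mul` (ψ = 1, rem p 1, ψ), `inert_sum`, `deg1_sum`, `cos_expand` (termwise linear combination of convergent
L-series), and `LFunction (tw c ψ) (s - iη) = LSeries (ψ n (n^{iη} c n)) s` (`ZMod.LFunction_eq_LSeries`, `n^{-(s-iη)} = n^{-s} n^{iη}`), `H.selberg.eq`.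
Choose real `t₀` with `exp(i t₀ log p) = c_p`, `t_k = t₀ + 2πk/log p`, `s_k = i t_k`: `P₁ s_k = 0`, `P₃ s_k = 1 - c_p^{-3} ≠ 0`; for large `k`: `t_k ∉ {ν_j}`, `t_k ≠ η`, so `H.F s_k ≠ 0`
(`H.zeros_zero`) and `Di ψ s_k ≠ 0` (`nice_ne_zero_imag`). Contradiction.
-/

open Complex

namespace Pool.Agent.Helper25.BC

open Pool.Agent.Helper19.BD

/-- `n^{-(s - iη)} = n^{-s} n^{iη}`, termwise. -/
theorem term_shift (f : ℕ → ℂ) (η : ℝ) (s : ℂ) (n : ℕ) :
    LSeries.term f (s - I * η) n = LSeries.term (fun n => npow n η * f n) s n := by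
  rcases eq_or_ne n 0 with rfl | hn
  · simp
  · rw [LSeries.term_of_ne_zero hn, LSeries.term_of_ne_zero hn]
    have hn' : (n : ℂ) ≠ 0 := by exact_mod_cast hn
    rw [cpow_sub _ _ hn']
    have h1 : (n : ℂ) ^ (I * (η : ℂ)) = npow n η := by
      rw [cpow_def_of_ne_zero hn', npow]
      congr 1
      rw [← Complex.natCast_log]
      ring
    rw [h1]
    have h2 : npow n η ≠ 0 := exp_ne_zero _
    field_simp

theorem lfun_shift {q : ℕ} [NeZero q] (c : ZMod q → ℂ) (η : ℝ) {s : ℂ}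
    (hs : 1 < s.re) : ZMod.LFunction c (s - I * η) = LSeries (fun n => npow n η * c (n : ZMod q)) s := by
  have hs' : 1 < (s - I * η).re := by simpa using hs
  rw [ZMod.LFunction_eq_LSeries c hs']
  exact tsum_congr fun n => term_shift _ η s n

theorem lfun_tw {q p : ℕ} [NeZero q] [NeZero p] (c : ZMod q → ℂ) (ψ : DirichletCharacter ℂ p) (η : ℝ) {s : ℂ}
    (hs : 1 < s.re) : ZMod.LFunction (tw c ψ) (s - I * η) =
      LSeries (fun n => ψ (n : ZMod p) * (npow n η * c (n : ZMod q))) s := by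
  rw [lfun_shift (tw c ψ) η hs]
  refine LSeries_congr (fun {n} _ => ?_) s
  rw [tw_natCast]
  ring

theorem cm_char {p : ℕ} (ψ : DirichletCharacter ℂ p) : CM (fun n => ψ (n : ZMod p)) where
  one := by simp
  mul := fun m n => by push_cast; rw [map_mul]
  bound := fun n => DirichletCharacter.norm_le_one ψ _

theorem cm_one : CM (fun _ => (1 : ℂ)) where
  one := rfl
  mul := fun m n => by simp
  bound := fun n => by simp

theorem summable_mul {a : ℕ → ℂ} {s : ℂ} (ha : LSeriesSummable a s) {φ : ℕ → ℂ} (hφ : ∀ n, ‖φ n‖ ≤ 1) :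
    LSeriesSummable (fun n => φ n * a n) s := by
  have h : Summable fun n => ‖LSeries.term a s n‖ := ha.norm
  refine Summable.of_norm_bounded h fun n => ?_
  rcases eq_or_ne n 0 with rfl | hn
  · simp
  · rw [LSeries.term_of_ne_zero hn, LSeries.term_of_ne_zero hn, mul_div_assoc, norm_mul]
    exact mul_le_of_le_one_left (norm_nonneg _) (hφ n)

theorem rem_norm_le {p : ℕ} (n : ℕ) : ‖rem p (fun _ => (1 : ℂ)) n‖ ≤ 1 := by
  unfold rem
  split_ifs <;> simp

/-- The expansion of the additive twist, summed. -/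
theorem cos_lseries {p : ℕ} (hp : p.Prime) (hp2 : 2 < p) {a : ℤ} (ha : ¬ (p : ℤ) ∣ a)
    [Fintype {ψ : DirichletCharacter ℂ p // ψ ≠ 1 ∧ ψ.Even}] :
    ∃ κ : DirichletCharacter ℂ p → ℂ, ∀ (a₂ : ℕ → ℂ) (s : ℂ), LSeriesSummable a₂ s →
      LSeries (fun n => a₂ n * (Real.cos (2 * Real.pi * n * ((a : ℝ) / p)) : ℂ)) s =
        LSeries a₂ s - (p : ℂ) / ((p : ℂ) - 1) * LSeries (fun n => rem p (fun _ => 1) n * a₂ n) s +
        ∑ ψ : {ψ : DirichletCharacter ℂ p // ψ ≠ 1 ∧ ψ.Even}, κ ψ.1 * LSeries (fun n => ψ.1 (n : ZMod p) * a₂ n) s := by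
  obtain ⟨κ, hκ⟩ := cos_expand hp hp2 ha
  refine ⟨κ, fun a₂ s hs => ?_⟩
  have h1 : HasSum (LSeries.term a₂ s) (LSeries a₂ s) := hs.hasSum
  have h2 : HasSum (LSeries.term (fun n => rem p (fun _ => 1) n * a₂ n) s)
      (LSeries (fun n => rem p (fun _ => 1) n * a₂ n) s) := (summable_mul hs (rem_norm_le (p := p))).hasSum
  have h3 : ∀ ψ : {ψ : DirichletCharacter ℂ p // ψ ≠ 1 ∧ ψ.Even},
      HasSum (LSeries.term (fun n => ψ.1 (n : ZMod p) * a₂ n) s) (LSeries (fun n => ψ.1 (n : ZMod p) * a₂ n) s) :=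
    fun ψ => (summable_mul hs (cm_char ψ.1).bound).hasSum
  have h4 := (h1.sub (h2.mul_left ((p : ℂ) / ((p : ℂ) - 1)))).add
    (hasSum_sum (s := Finset.univ) fun ψ _ => (h3 ψ).mul_left (κ ψ.1))
  refine (HasSum.tsum_eq ?_ : LSeries _ s = _)
  suffices h6 : LSeries.term (fun n => a₂ n * (Real.cos (2 * Real.pi * n * ((a : ℝ) / p)) : ℂ)) s = fun n =>
      LSeries.term a₂ s n - (p : ℂ) / ((p : ℂ) - 1) * LSeries.term (fun n => rem p (fun _ => 1) n * a₂ n) s n +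
        ∑ ψ : {ψ : DirichletCharacter ℂ p // ψ ≠ 1 ∧ ψ.Even}, κ ψ.1 * LSeries.term (fun n => ψ.1 (n : ZMod p) * a₂ n) s n by
    rw [h6]
    exact h4
  funext n
  rcases eq_or_ne n 0 with rfl | hn
  · simp
  · rw [LSeries.term_of_ne_zero hn, LSeries.term_of_ne_zero hn, LSeries.term_of_ne_zero hn, hκ n, tsum_fintype]
    have h5 : ∀ ψ : {ψ : DirichletCharacter ℂ p // ψ ≠ 1 ∧ ψ.Even},
        κ ψ.1 * LSeries.term (fun n => ψ.1 (n : ZMod p) * a₂ n) s n =
          (κ ψ.1 * ψ.1 (n : ZMod p)) * (a₂ n / (n : ℂ) ^ s) := by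
      intro ψ
      rw [LSeries.term_of_ne_zero hn]
      ring
    rw [Finset.sum_congr rfl fun ψ _ => h5 ψ, ← Finset.sum_mul]
    unfold rem
    ring

theorem case_one (H : HeckeF) {F₁ F₂ : ℂ → ℂ} {q : ℕ} [NeZero q] {c : ZMod q → ℂ} {η : ℝ} {C₂ : ℂ}
    (h₁ : Deg1Form F₁ q c η C₂) {a₂ : ℕ → ℂ} {D₂ : FE} (h₂ : IsSelbergWith F₂ a₂ D₂)
    (heq : EqOff H.F (fun s => F₁ s * F₂ s)) (hn : Nice q c) {p : ℕ} (hp : p.Prime) (hp2 : 2 < p)
    (hpq : p.Coprime q) (h70 : p % 7 ≠ 0) (h71 : p % 7 ≠ 1) (h76 : p % 7 ≠ 6)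
    (hc3 : (c (p : ZMod q) * npow p η) ^ 3 ≠ 1) {a : ℤ} (ha : ¬ (p : ℤ) ∣ a) {E : ℂ → ℂ}
    (hE : DifferentiableOn ℂ E {s : ℂ | -(1 / 2) < s.re})
    (hE1 : ∀ s : ℂ, 1 < s.re → E s = LSeries (fun n => a₂ n * (Real.cos (2 * Real.pi * n * ((a : ℝ) / p)) : ℂ)) s) :
    False := by
  classical
  have : NeZero p := ⟨hp.ne_zero⟩
  have : Fintype {ψ : DirichletCharacter ℂ p // ψ ≠ 1 ∧ ψ.Even} := Fintype.ofFinite _
  obtain ⟨κ, hκ⟩ := cos_lseries hp hp2 ha
  have hp1 : (1 : ℝ) < p := by exact_mod_cast hp.one_lt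
  have hlog : 0 < Real.log p := Real.log_pos hp1
  have hpC : (p : ℂ) ≠ 0 := by exact_mod_cast hp.ne_zero
  have hcm := c_mul hn.mult
  -- the twists
  choose G hGd hG using fun ψ : {ψ : DirichletCharacter ℂ p // ψ ≠ 1 ∧ ψ.Even} => H.twist p ψ.1 ψ.2.2
  have hnice : ∀ ψ : {ψ : DirichletCharacter ℂ p // ψ ≠ 1 ∧ ψ.Even}, Nice (q * p) (tw c ψ.1) :=
    fun ψ => nice_tw hp hpq hn ψ.2.1 ψ.2.2
  set cp : ℂ := c (p : ZMod q) * npow p η with hcp
  -- the unit `p`
  have hcpn : ‖cp‖ = 1 := by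
    have hu := c_norm hn.c_one hn.mult (ZMod.unitOfCoprime p hpq)
    rw [ZMod.coe_unitOfCoprime] at hu
    rw [hcp, norm_mul, hu, one_mul, npow, mul_assoc, mul_comm I, ← mul_assoc, ← ofReal_mul,
      norm_exp_ofReal_mul_I]
  have hcp0 : cp ≠ 0 := by
    intro h0
    rw [h0, norm_zero] at hcpn
    exact zero_ne_one hcpn
  have hone : ∀ f : ℕ → ℂ, (fun n => (fun _ : ℕ => (1 : ℂ)) n * f n) = f := fun f => by funext n; simp
  have key := fun (s : ℂ) (hs : -(1 / 2) < s.re) (hs1 : 1 - cp * (p : ℂ) ^ (-s) = 0) =>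
    twist_core (E := E) (D := fun s => ZMod.LFunction c (s - I * η)) (F := H.F)
      (P₁ := fun s => 1 - cp * (p : ℂ) ^ (-s)) (P₃ := fun s => 1 - (p : ℂ) ^ (-(3 * s)))
      (X := LSeries a₂) (Xp := LSeries (fun n => rem p (fun _ => 1) n * a₂ n))
      (Di := fun (ψ : {ψ : DirichletCharacter ℂ p // ψ ≠ 1 ∧ ψ.Even}) s => ZMod.LFunction (tw c ψ.1) (s - I * η))
      (Fi := G) (Xi := fun ψ => LSeries (fun n => ψ.1 (n : ZMod p) * a₂ n))
      (κ := (p : ℂ) / ((p : ℂ) - 1)) (κi := fun ψ => κ ψ.1)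
      hE ((ZMod.differentiable_LFunction_of_sum_zero hn.sum_zero).comp (by fun_prop)) H.diff
      (by
        intro s
        have : DifferentiableAt ℂ (fun s : ℂ => (p : ℂ) ^ (-s)) s :=
          DifferentiableAt.const_cpow (by fun_prop) (Or.inl hpC)
        fun_prop)
      (by
        intro s
        have : DifferentiableAt ℂ (fun s : ℂ => (p : ℂ) ^ (-(3 * s))) s :=
          DifferentiableAt.const_cpow (by fun_prop) (Or.inl hpC)
        fun_prop)
      (fun ψ => (ZMod.differentiable_LFunction_of_sum_zero (hnice ψ).sum_zero).comp (by fun_prop))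
      hGd
      (by
        intro s hs
        have h := twist_mul H h₁ h₂ heq cm_one hs
        rw [hone, hone, hone] at h
        rw [lfun_shift c η hs, h, H.selberg.eq s hs])
      (by
        intro s hs
        have h := twist_mul H h₁ h₂ heq (cm_rem cm_one hp) hs
        rw [inert_sum H cm_one hp h70 h71 h76 hs, deg1_sum hcm η cm_one hp hpq hs] at h
        rw [hone, hone, ← lfun_shift c η hs, ← H.selberg.eq s hs] at h
        simpa using h)
      (by
        intro ψ s hs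
        have h := twist_mul H h₁ h₂ heq (cm_char ψ.1) hs
        rw [lfun_tw c ψ.1 η hs, h, hG ψ s hs])
      (by
        intro s hs
        rw [hE1 s hs, hκ a₂ s (h₂.summable s hs)])
      hs hs1
  -- the points `s_k`
  obtain ⟨k, hk⟩ := exists_nat_gt (max (max (H.nu 0) (max (H.nu 1) (H.nu 2))) η * Real.log p / (2 * Real.pi) + 1)
  set t : ℝ := (arg cp + 2 * Real.pi * k) / Real.log p with ht
  have hpi := Real.pi_pos
  have htb : max (max (H.nu 0) (max (H.nu 1) (H.nu 2))) η < t := by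
    rw [ht, lt_div_iff₀ hlog]
    have h1 : -Real.pi < arg cp := neg_pi_lt_arg cp
    have h2 : max (max (H.nu 0) (max (H.nu 1) (H.nu 2))) η * Real.log p < (k - 1) * (2 * Real.pi) := by
      rw [← div_lt_iff₀ (by positivity)]
      linarith
    nlinarith
  have hexp : exp ((t : ℂ) * I * (Real.log p : ℂ)) = cp := by
    have h1 : (t : ℂ) * I * (Real.log p : ℂ) = (arg cp : ℂ) * I + (k : ℂ) * (2 * Real.pi * I) := by
      have h0 : t * Real.log p = arg cp + 2 * Real.pi * k := by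
        rw [ht, div_mul_cancel₀ _ hlog.ne']
      have h0' : (t : ℂ) * (Real.log p : ℂ) = (arg cp : ℂ) + 2 * Real.pi * k := by
        rw [← ofReal_mul, h0]
        push_cast
        ring
      rw [mul_right_comm, h0']
      ring
    rw [h1, exp_add, exp_nat_mul_two_pi_mul_I, mul_one]
    have h2 := norm_mul_exp_arg_mul_I cp
    rw [hcpn] at h2
    simpa using h2
  have hpow : (p : ℂ) ^ ((t : ℂ) * I) = cp := by
    rw [cpow_def_of_ne_zero hpC, ← Complex.natCast_log, mul_comm, hexp]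
  have hs1 : 1 - cp * (p : ℂ) ^ (-((t : ℂ) * I)) = 0 := by
    rw [cpow_neg, hpow, mul_inv_cancel₀ hcp0, sub_self]
  have h3 : (p : ℂ) ^ (-(3 * ((t : ℂ) * I))) = (cp ^ 3)⁻¹ := by
    rw [cpow_neg, show (3 : ℂ) * ((t : ℂ) * I) = ((3 : ℕ) : ℂ) * ((t : ℂ) * I) by norm_num, cpow_nat_mul, hpow]
  have hfin := key ((t : ℂ) * I) (by simp) hs1
  have hne1 : (p : ℂ) / ((p : ℂ) - 1) ≠ 0 := by
    refine div_ne_zero hpC (sub_ne_zero.mpr ?_)
    exact_mod_cast hp.one_lt.ne'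
  have hne2 : (1 : ℂ) - (p : ℂ) ^ (-(3 * ((t : ℂ) * I))) ≠ 0 := by
    rw [h3]
    intro h
    have h4 : (cp ^ 3)⁻¹ = 1 := (sub_eq_zero.mp h).symm
    exact hc3 (inv_eq_one.mp h4)
  have hne3 : H.F ((t : ℂ) * I) ≠ 0 := by
    refine H.zeros_zero t fun j => ?_
    have h0 := le_max_left (max (H.nu 0) (max (H.nu 1) (H.nu 2))) η
    have h1 := le_max_left (H.nu 0) (max (H.nu 1) (H.nu 2))
    have h2 := le_max_right (H.nu 0) (max (H.nu 1) (H.nu 2))
    have h3 := le_max_left (H.nu 1) (H.nu 2)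
    have h4 := le_max_right (H.nu 1) (H.nu 2)
    fin_cases j
    · show t ≠ H.nu 0
      intro h'; linarith
    · show t ≠ H.nu 1
      intro h'; linarith
    · show t ≠ H.nu 2
      intro h'; linarith
  have hne4 : ∏ ψ : {ψ : DirichletCharacter ℂ p // ψ ≠ 1 ∧ ψ.Even},
      ZMod.LFunction (tw c ψ.1) ((t : ℂ) * I - I * η) ≠ 0 := by
    refine Finset.prod_ne_zero_iff.mpr fun ψ _ => ?_
    have h0 := le_max_right (max (H.nu 0) (max (H.nu 1) (H.nu 2))) η
    have h1 : t - η ≠ 0 := by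
      intro h'; linarith
    have h2 := nice_ne_zero_imag (hnice ψ) h1
    rwa [show ((t - η : ℝ) : ℂ) * I = (t : ℂ) * I - I * η by push_cast; ring] at h2
  exact mul_ne_zero (mul_ne_zero (mul_ne_zero hne1 hne2) hne3) hne4 hfin

end Pool.Agent.Helper25.BC
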