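import Pool.Agent.Helper25.BC.Defs
import Pool.Agent.Helper25.BC.Case1

/-!
Block BC-2 (MP_bd232a_nt, part C). Contradiction in case (II).
PROOF. `a` odd, `p` odd: `a' = (a-p)/2`, `p ∤ a'`, `cos(2πn a/(2p)) = (-1)^n cos(2πn a'/p)`, `(-1)^n = 1 - 2·1_{2∤n}` . So `E = X - κ Xp + ∑ κ_i Xi` with `X = LSeries a₂ - 2 LSeries (rem 2 1 · a₂)`,
`Xp = LSeries (rem p 1 · a₂) - 2 LSeries (rem 2 (rem p 1) · a₂)`, `Xi = LSeries (ψ a₂) - 2 LSeries (rem 2 ψ · a₂)`. With `w = 2^{-s}`, `c_2 = c(2) npow 2 η`, `D s = (1 - c_2 w) LFunction c (s - iη)`,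
`F s = ((1 - c_2 w) - 2(1 - w³)) H.F s`, `Di ψ = (1 - c_2 ψ(2) w) LFunction (tw c ψ) (s - iη)`, `Fi ψ = ((1 - c_2 ψ(2) w) - 2(1 - ψ(2)³w³)) F_ψ`, `P₁`, `P₃` as in case (I): all hypotheses of `twist_core`
hold (`inert_sum` for `2` and `p`, `deg1_sum` for `2` and `p`; `rem 2 (rem p 1)`, `(rem p 1) 2 = 1`). So for all `k`, with `w_k = 2^{-s_k}`:
`((1 - c_2 w_k) - 2(1 - w_k³)) ∏_ψ (1 - c_2 ψ(2) w_k) · H.F(s_k) ∏ LFunction (tw c ψ)(s_k - iη) = 0`. For large `k` the last factors are `≠ 0`; the `w_k = 2^{-i t₀} exp(-2πik log 2/log p)` are pairwise distinct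
(`log 2/log p` irrational: `2^m ≠ p^n`), but the polynomial `((1 - c_2 w) - 2(1 - w³)) ∏ (1 - c_2 ψ(2) w)` has value `-1` at `w = 0`, so it has finitely many zeros. Contradiction.
-/

open Complex

namespace Pool.Agent.Helper25.BC

open Pool.Agent.Helper19.BD

theorem rem_two_eq (ψ : ℕ → ℂ) (n : ℕ) : rem 2 ψ n = rem 2 (fun _ => 1) n * ψ n := by
  unfold rem
  split_ifs <;> simp

/-- the twisted convolution identity with the prime `2` removed -/
theorem two_twist (H : HeckeF) {F₁ F₂ : ℂ → ℂ} {q : ℕ} [NeZero q] {c : ZMod q → ℂ} {η : ℝ} {C₂ : ℂ}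
    (h₁ : Deg1Form F₁ q c η C₂) {a₂ : ℕ → ℂ} {D₂ : FE} (h₂ : IsSelbergWith F₂ a₂ D₂)
    (heq : EqOff H.F (fun s => F₁ s * F₂ s)) (hu : ∀ (r : (ZMod q)ˣ) (x : ZMod q), c (r * x) = c r * c x)
    (hq : Odd q) {ψ : ℕ → ℂ} (hψ : CM ψ) {s : ℂ} (hs : 1 < s.re) :
    ((1 - ψ 2 * (c ((2 : ℕ) : ZMod q) * npow 2 η) * (2 : ℂ) ^ (-s)) *
        LSeries (fun n => ψ n * (npow n η * c (n : ZMod q))) s) *
      (LSeries (fun n => ψ n * a₂ n) s - 2 * LSeries (fun n => rem 2 ψ n * a₂ n) s) =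
    ((1 - ψ 2 * (c ((2 : ℕ) : ZMod q) * npow 2 η) * (2 : ℂ) ^ (-s)) -
        2 * (1 - ψ 2 ^ 3 * (2 : ℂ) ^ (-(3 * s)))) * LSeries (fun n => ψ n * H.a n) s := by
  have h2q : Nat.Coprime 2 q := (Nat.coprime_two_left).2 hq
  have t1 := twist_mul H h₁ h₂ heq hψ hs
  have t2 := twist_mul H h₁ h₂ heq (cm_rem hψ Nat.prime_two) hs
  have t3 := deg1_sum hu η hψ Nat.prime_two h2q hs
  have t4 := inert_sum H hψ Nat.prime_two (by norm_num) (by norm_num) (by norm_num) hs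
  rw [t3, t4] at t2
  simp only [Nat.cast_ofNat] at t2 ⊢
  linear_combination (1 - ψ 2 * (c (2 : ZMod q) * npow 2 η) * (2 : ℂ) ^ (-s)) * t1 - 2 * t2

theorem cos_half {p : ℕ} (hp0 : p ≠ 0) {a a' : ℤ} (haa : a = 2 * a' + p) (n : ℕ) :
    (Real.cos (2 * Real.pi * n * ((a : ℝ) / (2 * p))) : ℂ) =
      (1 - 2 * rem 2 (fun _ => 1) n) * (Real.cos (2 * Real.pi * n * ((a' : ℝ) / p)) : ℂ) := by
  have hp : (p : ℝ) ≠ 0 := by exact_mod_cast hp0
  have e1 : 2 * Real.pi * n * ((a : ℝ) / (2 * p)) = 2 * Real.pi * n * ((a' : ℝ) / p) + n * Real.pi := by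
    rw [haa]; push_cast; field_simp
  rw [e1, Real.cos_add_nat_mul_pi]
  push_cast
  congr 1
  unfold rem
  by_cases h2 : 2 ∣ n
  · rw [if_pos h2]
    have : Even n := even_iff_two_dvd.2 h2
    rw [this.neg_one_pow]; ring
  · rw [if_neg h2]
    have : Odd n := by rw [← Nat.not_even_iff_odd, even_iff_two_dvd]; exact h2
    rw [this.neg_one_pow]; ring

/-- the points `w_k` are pairwise distinct -/
theorem wk_inj {p : ℕ} (hp : p.Prime) (hp2 : 2 < p) (t₀ : ℝ) :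
    Function.Injective fun k : ℕ => (2 : ℂ) ^ (-(((t₀ + 2 * Real.pi * k / Real.log p : ℝ) : ℂ) * I)) := by
  have hlog : 0 < Real.log p := Real.log_pos (by exact_mod_cast (by omega : 1 < p))
  have hl2 : 0 < Real.log 2 := Real.log_pos (by norm_num)
  intro k l hkl
  simp only at hkl
  have h20 : (2 : ℂ) ≠ 0 := by norm_num
  rw [cpow_def_of_ne_zero h20, cpow_def_of_ne_zero h20, exp_eq_exp_iff_exists_int] at hkl
  obtain ⟨m, hm⟩ := hkl
  have hlc : log (2 : ℂ) = ((Real.log 2 : ℝ) : ℂ) := by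
    have := natCast_log (n := 2)
    push_cast at this
    rw [← this]
  rw [hlc] at hm
  have hI : (I : ℂ) ≠ 0 := I_ne_zero
  have hm' : ((Real.log 2 * -(t₀ + 2 * Real.pi * k / Real.log p) : ℝ) : ℂ) =
      ((Real.log 2 * -(t₀ + 2 * Real.pi * l / Real.log p) + m * (2 * Real.pi) : ℝ) : ℂ) := by
    apply mul_right_cancel₀ hI
    push_cast at hm ⊢
    linear_combination hm
  have hr : Real.log 2 * -(t₀ + 2 * Real.pi * k / Real.log p) =
      Real.log 2 * -(t₀ + 2 * Real.pi * l / Real.log p) + m * (2 * Real.pi) := by exact_mod_cast hm'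
  have hr2 : ((l : ℝ) - k) * Real.log 2 = m * Real.log p := by
    have hpi := Real.pi_pos
    have h1 : 2 * Real.pi * (((l : ℝ) - k) * Real.log 2) = 2 * Real.pi * (m * Real.log p) := by
      field_simp at hr
      linear_combination hr
    exact mul_left_cancel₀ (by positivity) h1
  by_contra hne
  have hz : ((l : ℤ) - k) ≠ 0 := by
    intro h; apply hne; omega
  have hr3 : (((l : ℤ) - k : ℤ) : ℝ) * Real.log 2 = m * Real.log p := by push_cast; exact hr2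
  -- take absolute values
  have h4 : ((((l : ℤ) - k).natAbs : ℕ) : ℝ) * Real.log 2 = (m.natAbs : ℝ) * Real.log p := by
    have := congrArg abs hr3
    rw [abs_mul, abs_mul, abs_of_pos hl2, abs_of_pos hlog] at this
    rw [Nat.cast_natAbs, Nat.cast_natAbs]
    push_cast at this ⊢
    exact this
  have h5 : (2 : ℝ) ^ ((l : ℤ) - k).natAbs = (p : ℝ) ^ m.natAbs := by
    apply Real.log_injOn_pos (Set.mem_Ioi.2 (by positivity)) (Set.mem_Ioi.2 (by
      have : (0 : ℝ) < p := by exact_mod_cast hp.pos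
      positivity))
    rw [Real.log_pow, Real.log_pow]
    exact h4
  have h6 : 2 ^ ((l : ℤ) - k).natAbs = p ^ m.natAbs := by exact_mod_cast h5
  have h7 : 2 ∣ p ^ m.natAbs := by
    rw [← h6]
    exact dvd_pow_self 2 (Int.natAbs_ne_zero.2 hz)
  have h8 := Nat.prime_two.dvd_of_dvd_pow h7
  have := (Nat.prime_dvd_prime_iff_eq Nat.prime_two hp).1 h8
  omega

theorem exists_large' (t₀ b : ℝ) (hb : 0 < b) (H : HeckeF) (η : ℝ) : ∃ K : ℕ, ∀ k : ℕ, K ≤ k →
    (∀ j, t₀ + b * k ≠ H.nu j) ∧ t₀ + b * k ≠ η := exists_large t₀ b hb H η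

theorem case_two (H : HeckeF) {F₁ F₂ : ℂ → ℂ} {q : ℕ} [NeZero q] {c : ZMod q → ℂ} {η : ℝ} {C₂ : ℂ}
    (h₁ : Deg1Form F₁ q c η C₂) {a₂ : ℕ → ℂ} {D₂ : FE} (h₂ : IsSelbergWith F₂ a₂ D₂)
    (heq : EqOff H.F (fun s => F₁ s * F₂ s)) (hn : Nice q c) (hq : Odd q) {p : ℕ} (hp : p.Prime) (hp2 : 2 < p)
    (hpq : p.Coprime q) (h70 : p % 7 ≠ 0) (h71 : p % 7 ≠ 1) (h76 : p % 7 ≠ 6)
    (hc3 : (c (p : ZMod q) * npow p η) ^ 3 ≠ 1) {a : ℤ} (ha : ¬ (p : ℤ) ∣ a) (hao : Odd a) {E : ℂ → ℂ}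
    (hE : DifferentiableOn ℂ E {s : ℂ | -(1 / 2) < s.re})
    (hE1 : ∀ s : ℂ, 1 < s.re → E s = LSeries (fun n => a₂ n * (Real.cos (2 * Real.pi * n * ((a : ℝ) / (2 * p))) : ℂ)) s) :
    False := by
  classical
  haveI : NeZero p := ⟨hp.ne_zero⟩
  have hpo : Odd p := hp.odd_of_ne_two (by omega)
  obtain ⟨a', haa⟩ : ∃ a' : ℤ, a = 2 * a' + p := by
    have : Even (a - p) := by
      apply Odd.sub_odd hao
      exact_mod_cast hpo
    obtain ⟨r, hr⟩ := this
    exact ⟨r, by omega⟩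
  have ha' : ¬ (p : ℤ) ∣ a' := by
    intro h
    apply ha
    rw [haa]
    exact dvd_add (h.mul_left 2) dvd_rfl
  set cp : ℂ := c (p : ZMod q) * npow p η with hcp
  set c2 : ℂ := c ((2 : ℕ) : ZMod q) * npow 2 η with hc2
  have hcpn : ‖cp‖ = 1 := cp_norm hn η hpq
  have hcp0 : cp ≠ 0 := by intro h; rw [h] at hcpn; simp at hcpn
  have hu := fun (r : (ZMod q)ˣ) (x : ZMod q) => c_mul hn.mult r x
  obtain ⟨κ, hκ⟩ := cos_expand hp hp2 ha'
  haveI : Finite {ψ : DirichletCharacter ℂ p // ψ ≠ 1 ∧ ψ.Even} := inferInstance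
  letI : Fintype {ψ : DirichletCharacter ℂ p // ψ ≠ 1 ∧ ψ.Even} := Fintype.ofFinite _
  choose Fi hFi hFi2 using fun ψ : {ψ : DirichletCharacter ℂ p // ψ ≠ 1 ∧ ψ.Even} => H.twist p ψ.1 ψ.2.2
  have hp0 : (p : ℂ) ≠ 0 := by exact_mod_cast hp.ne_zero
  have h20 : (2 : ℂ) ≠ 0 := by norm_num
  have hnt := fun ψ : {ψ : DirichletCharacter ℂ p // ψ ≠ 1 ∧ ψ.Even} => nice_tw hp hpq hn ψ.2.1 ψ.2.2
  have hDd : Differentiable ℂ (fun s : ℂ => ZMod.LFunction c (s - I * η)) :=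
    (ZMod.differentiable_LFunction_of_sum_zero hn.sum_zero).comp (by fun_prop)
  have hDi : ∀ ψ : {ψ : DirichletCharacter ℂ p // ψ ≠ 1 ∧ ψ.Even},
      Differentiable ℂ (fun s : ℂ => ZMod.LFunction (tw c ψ.1) (s - I * η)) := fun ψ =>
    (ZMod.differentiable_LFunction_of_sum_zero (hnt ψ).sum_zero).comp (by fun_prop)
  have hpc : Differentiable ℂ (fun s : ℂ => (p : ℂ) ^ (-s)) := by
    intro s
    exact (differentiableAt_id.neg).const_cpow (Or.inl hp0)
  have hpc3 : Differentiable ℂ (fun s : ℂ => (p : ℂ) ^ (-(3 * s))) := by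
    intro s
    exact ((differentiableAt_id.const_mul 3).neg).const_cpow (Or.inl hp0)
  have h2c : Differentiable ℂ (fun s : ℂ => (2 : ℂ) ^ (-s)) := by
    intro s
    exact (differentiableAt_id.neg).const_cpow (Or.inl h20)
  have h2c3 : Differentiable ℂ (fun s : ℂ => (2 : ℂ) ^ (-(3 * s))) := by
    intro s
    exact ((differentiableAt_id.const_mul 3).neg).const_cpow (Or.inl h20)
  have hFL : ∀ s : ℂ, 1 < s.re → H.F s = LSeries H.a s := fun s hs => H.selberg.eq s hs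
  have core : ∀ s : ℂ, -(1 / 2 : ℝ) < s.re → 1 - cp * (p : ℂ) ^ (-s) = 0 →
      (p : ℂ) / ((p : ℂ) - 1) * (1 - (p : ℂ) ^ (-(3 * s))) *
        (((1 - c2 * (2 : ℂ) ^ (-s)) - 2 * (1 - (2 : ℂ) ^ (-(3 * s)))) * H.F s) *
        ∏ ψ : {ψ : DirichletCharacter ℂ p // ψ ≠ 1 ∧ ψ.Even},
          ((1 - ψ.1 ((2 : ℕ) : ZMod p) * c2 * (2 : ℂ) ^ (-s)) * ZMod.LFunction (tw c ψ.1) (s - I * η)) = 0 :=
    fun s₀ hs₀ hs₁ => twist_core (s := s₀) (ι := {ψ : DirichletCharacter ℂ p // ψ ≠ 1 ∧ ψ.Even}) (E := E)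
    (D := fun s => (1 - c2 * (2 : ℂ) ^ (-s)) * ZMod.LFunction c (s - I * η))
    (F := fun s => ((1 - c2 * (2 : ℂ) ^ (-s)) - 2 * (1 - (2 : ℂ) ^ (-(3 * s)))) * H.F s)
    (P₁ := fun s => 1 - cp * (p : ℂ) ^ (-s)) (P₃ := fun s => 1 - (p : ℂ) ^ (-(3 * s)))
    (X := fun s => LSeries a₂ s - 2 * LSeries (fun n => rem 2 (fun _ => 1) n * a₂ n) s)
    (Xp := fun s => LSeries (fun n => rem p (fun _ => 1) n * a₂ n) s -
      2 * LSeries (fun n => rem 2 (rem p (fun _ => 1)) n * a₂ n) s)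
    (Di := fun ψ s => (1 - ψ.1 ((2 : ℕ) : ZMod p) * c2 * (2 : ℂ) ^ (-s)) * ZMod.LFunction (tw c ψ.1) (s - I * η))
    (Fi := fun ψ s => ((1 - ψ.1 ((2 : ℕ) : ZMod p) * c2 * (2 : ℂ) ^ (-s)) -
      2 * (1 - ψ.1 ((2 : ℕ) : ZMod p) ^ 3 * (2 : ℂ) ^ (-(3 * s)))) * Fi ψ s)
    (Xi := fun ψ s => LSeries (fun n => ψ.1 (n : ZMod p) * a₂ n) s -
      2 * LSeries (fun n => rem 2 (fun n => ψ.1 (n : ZMod p)) n * a₂ n) s)
    (κ := (p : ℂ) / ((p : ℂ) - 1)) (κi := fun ψ => κ ψ.1)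
    hE
    (by
      refine Differentiable.mul ?_ hDd
      fun_prop)
    (by
      refine Differentiable.mul ?_ H.diff
      fun_prop)
    (by fun_prop) (by fun_prop)
    (by
      intro ψ
      refine Differentiable.mul ?_ (hDi ψ)
      fun_prop)
    (by
      intro ψ
      refine Differentiable.mul ?_ (hFi ψ)
      fun_prop)
    (fun s hs => by
      rw [lfun_shift _ _ hs, hFL s hs]
      have := two_twist H h₁ h₂ heq hu hq cm_one hs
      simp only [one_mul, one_pow] at this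
      exact this)
    (fun s hs => by
      rw [lfun_shift _ _ hs, hFL s hs]
      have t1 := two_twist H h₁ h₂ heq hu hq (cm_rem cm_one hp) hs
      have t2 := deg1_sum hu η cm_one hp hpq hs
      have t3 := inert_sum H cm_one hp h70 h71 h76 hs
      have t4 : rem p (fun _ => (1 : ℂ)) 2 = 1 := by
        unfold rem
        rw [if_neg]
        intro h
        have := Nat.le_of_dvd (by norm_num) h
        omega
      rw [t2, t3, t4] at t1
      simp only [one_mul, one_pow] at t1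
      linear_combination t1)
    (fun ψ s hs => by
      rw [lfun_tw _ _ _ hs, hFi2 ψ s hs]
      exact two_twist H h₁ h₂ heq hu hq (cm_char ψ.1) hs)
    (fun s hs => by
      rw [hE1 s hs]
      have s0 := (h₂.summable s hs).hasSum
      have s0' := (summable_mul_bdd (cm_rem cm_one Nat.prime_two).bound (h₂.summable s hs)).hasSum
      have s1 := (summable_mul_bdd (cm_rem cm_one hp).bound (h₂.summable s hs)).hasSum
      have s1' := (summable_mul_bdd (cm_rem (cm_rem cm_one hp) Nat.prime_two).bound (h₂.summable s hs)).hasSum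
      have s2 := fun ψ : {ψ : DirichletCharacter ℂ p // ψ ≠ 1 ∧ ψ.Even} =>
        (((summable_mul_bdd (cm_char ψ.1).bound (h₂.summable s hs)).hasSum).sub
        (((summable_mul_bdd (cm_rem (cm_char ψ.1) Nat.prime_two).bound (h₂.summable s hs)).hasSum).mul_left 2)).mul_left (κ ψ.1)
      have s3 := ((s0.sub (s0'.mul_left 2)).sub ((s1.sub (s1'.mul_left 2)).mul_left ((p : ℂ) / ((p : ℂ) - 1)))).add
        (hasSum_sum (s := Finset.univ) fun ψ _ => s2 ψ)
      have hfun : LSeries.term (fun n => a₂ n * (Real.cos (2 * Real.pi * n * ((a : ℝ) / (2 * p))) : ℂ)) s =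
          fun b => LSeries.term a₂ s b - 2 * LSeries.term (fun n => rem 2 (fun _ => 1) n * a₂ n) s b -
            (p : ℂ) / ((p : ℂ) - 1) *
            (LSeries.term (fun n => rem p (fun _ => 1) n * a₂ n) s b -
              2 * LSeries.term (fun n => rem 2 (rem p (fun _ => 1)) n * a₂ n) s b) +
            ∑ ψ : {ψ : DirichletCharacter ℂ p // ψ ≠ 1 ∧ ψ.Even},
              κ ψ.1 * (LSeries.term (fun n => ψ.1 (n : ZMod p) * a₂ n) s b -
                2 * LSeries.term (fun n => rem 2 (fun n => ψ.1 (n : ZMod p)) n * a₂ n) s b) := by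
        funext n
        rcases Nat.eq_zero_or_pos n with h0 | h0
        · subst h0; simp
        · have hn0 : n ≠ 0 := by omega
          simp only [LSeries.term_of_ne_zero hn0]
          rw [cos_half hp.ne_zero haa n, hκ n, tsum_fintype]
          have e1 : ∀ ψ : {ψ : DirichletCharacter ℂ p // ψ ≠ 1 ∧ ψ.Even},
              κ ψ.1 * (ψ.1 (n : ZMod p) * a₂ n / (n : ℂ) ^ s -
                2 * (rem 2 (fun n => ψ.1 (n : ZMod p)) n * a₂ n / (n : ℂ) ^ s)) =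
              (κ ψ.1 * ψ.1 (n : ZMod p)) * ((1 - 2 * rem 2 (fun _ => 1) n) * (a₂ n / (n : ℂ) ^ s)) := fun ψ => by
            rw [rem_two_eq (fun n => ψ.1 (n : ZMod p)) n]; ring
          simp_rw [e1]
          rw [← Finset.sum_mul, rem_two_eq (rem p (fun _ => 1)) n]
          have e2 : rem p (fun _ => (1 : ℂ)) n = if p ∣ n then 0 else 1 := rfl
          rw [e2]
          ring
      rw [LSeries, hfun]
      exact s3.tsum_eq) hs₀ hs₁
  obtain ⟨t₀, ht₀⟩ := points hcpn hp2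
  have hlog : 0 < Real.log p := Real.log_pos (by exact_mod_cast (by omega : 1 < p))
  obtain ⟨K, hK⟩ := exists_large t₀ (2 * Real.pi / Real.log p) (by positivity) H η
  -- the polynomial
  let Q : Polynomial ℂ := ((1 - Polynomial.C c2 * Polynomial.X) - 2 * (1 - Polynomial.X ^ 3)) *
    ∏ ψ : {ψ : DirichletCharacter ℂ p // ψ ≠ 1 ∧ ψ.Even},
      (1 - Polynomial.C (ψ.1 ((2 : ℕ) : ZMod p) * c2) * Polynomial.X)
  have hQ0 : Q ≠ 0 := by
    intro h
    have h1 : Q.eval 0 = 0 := by rw [h]; simp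
    simp only [Q, Polynomial.eval_mul, Polynomial.eval_prod] at h1
    simp at h1
    norm_num at h1
  have hroot : ∀ k : ℕ, K ≤ k →
      Q.eval ((2 : ℂ) ^ (-(((t₀ + 2 * Real.pi * k / Real.log p : ℝ) : ℂ) * I))) = 0 := by
    intro k hk
    obtain ⟨hK1, hK2⟩ := hK k hk
    have ht := ht₀ k
    set t : ℝ := t₀ + 2 * Real.pi * k / Real.log p with htdef
    have htt : t₀ + 2 * Real.pi / Real.log p * k = t := by rw [htdef]; ring
    rw [htt] at hK1 hK2
    have hs0 : -(1 / 2 : ℝ) < ((t : ℂ) * I).re := by simp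
    have hres := core _ hs0 (by rw [ht, mul_inv_cancel₀ hcp0, sub_self])
    have h3w : (2 : ℂ) ^ (-(3 * ((t : ℂ) * I))) = ((2 : ℂ) ^ (-((t : ℂ) * I))) ^ 3 := by
      rw [← cpow_nat_mul]
      congr 1
      push_cast; ring
    rw [Finset.prod_mul_distrib, h3w] at hres
    have hA : (p : ℂ) / ((p : ℂ) - 1) ≠ 0 := by
      intro h
      rw [div_eq_zero_iff] at h
      rcases h with h | h
      · exact hp0 h
      · have : (p : ℂ) = 1 := by linear_combination h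
        have : p = 1 := by exact_mod_cast this
        omega
    have hB : 1 - (p : ℂ) ^ (-(3 * ((t : ℂ) * I))) ≠ 0 := by
      intro h
      have e1 : (p : ℂ) ^ (-(3 * ((t : ℂ) * I))) = (cp⁻¹) ^ 3 := by
        rw [← ht, ← cpow_nat_mul]
        congr 1
        push_cast; ring
      rw [e1, inv_pow] at h
      apply hc3
      have h2 : (cp ^ 3)⁻¹ = 1 := by linear_combination -h
      exact inv_eq_one.1 h2
    have hC : H.F ((t : ℂ) * I) ≠ 0 := H.zeros_zero t hK1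
    have hD : ∏ ψ : {ψ : DirichletCharacter ℂ p // ψ ≠ 1 ∧ ψ.Even},
        ZMod.LFunction (tw c ψ.1) ((t : ℂ) * I - I * η) ≠ 0 := by
      rw [Finset.prod_ne_zero_iff]
      intro ψ _ hψ
      have e1 : (t : ℂ) * I - I * η = ((t - η : ℝ) : ℂ) * I := by push_cast; ring
      rw [e1] at hψ
      exact nice_ne_zero_imag (hnt ψ) (sub_ne_zero.2 hK2) hψ
    set w : ℂ := (2 : ℂ) ^ (-((t : ℂ) * I)) with hw
    have hev : Q.eval w = ((1 - c2 * w) - 2 * (1 - w ^ 3)) *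
        ∏ ψ : {ψ : DirichletCharacter ℂ p // ψ ≠ 1 ∧ ψ.Even}, (1 - ψ.1 ((2 : ℕ) : ZMod p) * c2 * w) := by
      simp only [Q, Polynomial.eval_mul, Polynomial.eval_prod, Polynomial.eval_sub, Polynomial.eval_one,
        Polynomial.eval_C, Polynomial.eval_X, Polynomial.eval_pow, Polynomial.eval_ofNat]
    rw [hev]
    have hfin : ((p : ℂ) / ((p : ℂ) - 1) * (1 - (p : ℂ) ^ (-(3 * ((t : ℂ) * I)))) * H.F ((t : ℂ) * I) *
        ∏ ψ : {ψ : DirichletCharacter ℂ p // ψ ≠ 1 ∧ ψ.Even},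
          ZMod.LFunction (tw c ψ.1) ((t : ℂ) * I - I * η)) *
        (((1 - c2 * w) - 2 * (1 - w ^ 3)) *
        ∏ ψ : {ψ : DirichletCharacter ℂ p // ψ ≠ 1 ∧ ψ.Even}, (1 - ψ.1 ((2 : ℕ) : ZMod p) * c2 * w)) = 0 := by
      linear_combination hres
    exact (mul_eq_zero.1 hfin).resolve_left (mul_ne_zero (mul_ne_zero (mul_ne_zero hA hB) hC) hD)
  have hinf : Set.Infinite {x : ℂ | Q.IsRoot x} := by
    have hset : Set.Infinite (Set.Ici K) := Set.Ici_infinite K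
    have := hset.image ((wk_inj hp hp2 t₀).injOn)
    refine this.mono ?_
    rintro _ ⟨k, hk, rfl⟩
    exact hroot k hk
  exact hinf (Polynomial.finite_setOf_isRoot hQ0)

end Pool.Agent.Helper25.BC
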