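import Pool.Agent.Helper25.BC.Defs
import Pool.Agent.Helper97.BD.MellinExp
import Pool.Agent.Helper97.BD.Stir2
import Pool.Agent.Helper83.BDF.Shift

/-!
Block BC-I (MP_bd232a_nt, part C). `f(z) = B(0) + (1/2π) ∫_{Re s = -1/2} Γ(s)(2πz)^{-s} B(s) dt`.
PROOF. `ζ = log(2πz)`, `|Im ζ| < π/2`. On `Re s = 2`: termwise Mellin inversion (`mellin_exp`). Shift of
`Γ(s) (exp(-ζs) B(s) - B(0) exp(N s))` (regular at `0`) from `Re s = 2` to `Re s = -1/2` (`Helper83.BDF.shift`), then `N → ∞`.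
-/

open Complex MeasureTheory Filter Topology

namespace Pool.Agent.Helper25.BC

open Pool.Agent.Helper19.BD

namespace InvAux

lemma int_exp_abs' {b : ℝ} (hb : 0 < b) : Integrable (fun t : ℝ => Real.exp (-(b * |t|))) :=
  int_exp_abs b hb

lemma rpow_le_exp (A : ℝ) (hA : 0 ≤ A) {b : ℝ} (hb : 0 < b) : ∃ C : ℝ, 0 < C ∧ ∀ t : ℝ, 1 ≤ t →
    t ^ A ≤ C * Real.exp (b * t) := by
  obtain ⟨n, hn⟩ := exists_nat_ge A
  refine ⟨n.factorial / b ^ n, by positivity, fun t ht => ?_⟩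
  have h1 : t ^ A ≤ t ^ n := by
    rw [← Real.rpow_natCast]
    exact Real.rpow_le_rpow_of_exponent_le ht hn
  have h2 := Real.pow_div_factorial_le_exp (x := b * t) (by positivity) n
  rw [div_le_iff₀ (by positivity), mul_pow] at h2
  refine h1.trans ?_
  rw [div_mul_eq_mul_div, le_div_iff₀ (by positivity)]
  linarith

/-- comparison of a polynomial times an exponential -/
lemma poly_exp (A : ℝ) (hA : 0 ≤ A) {b : ℝ} (hb : 0 < b) : ∃ C : ℝ, 0 < C ∧ ∀ x : ℝ, 0 ≤ x →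
    (1 + x) ^ A * Real.exp (-(b * x)) ≤ C * Real.exp (-(b / 2 * x)) := by
  obtain ⟨C, hC, h⟩ := rpow_le_exp A hA (b := b / 2) (by positivity)
  refine ⟨C * Real.exp (b / 2), by positivity, fun x hx => ?_⟩
  calc (1 + x) ^ A * Real.exp (-(b * x)) ≤ (C * Real.exp (b / 2 * (1 + x))) * Real.exp (-(b * x)) :=
        mul_le_mul_of_nonneg_right (h _ (by linarith)) (Real.exp_pos _).le
    _ = C * Real.exp (b / 2) * Real.exp (-(b / 2 * x)) := by
        rw [mul_assoc, mul_assoc, ← Real.exp_add, ← Real.exp_add]; ring_nf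

lemma integrable_of_decay {F : ℝ → ℂ} (hF : Continuous F) {C A κ : ℝ} (hA : 0 ≤ A) (hκ : 0 < κ)
    (h : ∀ t : ℝ, 1 ≤ |t| → ‖F t‖ ≤ C * ((1 + |t|) ^ A * Real.exp (-(κ * |t|)))) : Integrable F := by
  obtain ⟨C₁, hC₁, h₁⟩ := poly_exp A hA hκ
  obtain ⟨M, hM⟩ := (isCompact_Icc (a := (-1 : ℝ)) (b := 1)).exists_bound_of_continuousOn
    hF.continuousOn
  have hM0 : 0 ≤ M := (norm_nonneg _).trans (hM 0 (by norm_num))
  refine Integrable.mono' (((int_exp_abs' (b := κ / 2) (by positivity))).const_mul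
    (|C| * C₁ + M * Real.exp (κ / 2))) hF.aestronglyMeasurable (Filter.Eventually.of_forall fun t => ?_)
  by_cases ht : 1 ≤ |t|
  · calc ‖F t‖ ≤ C * ((1 + |t|) ^ A * Real.exp (-(κ * |t|))) := h t ht
      _ ≤ |C| * ((1 + |t|) ^ A * Real.exp (-(κ * |t|))) :=
          mul_le_mul_of_nonneg_right (le_abs_self C) (by positivity)
      _ ≤ |C| * (C₁ * Real.exp (-(κ / 2 * |t|))) :=
          mul_le_mul_of_nonneg_left (h₁ _ (abs_nonneg t)) (abs_nonneg C)
      _ ≤ _ := by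
          have : 0 ≤ M * Real.exp (κ / 2) * Real.exp (-(κ / 2 * |t|)) := by positivity
          nlinarith
  · push Not at ht
    have h2 := hM t (abs_le.1 ht.le)
    have h3 : Real.exp (-(κ / 2)) ≤ Real.exp (-(κ / 2 * |t|)) := Real.exp_le_exp.2 (by nlinarith)
    calc ‖F t‖ ≤ M := h2
      _ = M * (Real.exp (κ / 2) * Real.exp (-(κ / 2))) := by rw [← Real.exp_add]; simp
      _ ≤ M * (Real.exp (κ / 2) * Real.exp (-(κ / 2 * |t|))) :=
          mul_le_mul_of_nonneg_left (mul_le_mul_of_nonneg_left h3 (Real.exp_pos _).le) hM0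
      _ ≤ _ := by
          have : 0 ≤ |C| * C₁ * Real.exp (-(κ / 2 * |t|)) := by positivity
          nlinarith

lemma norm_exp_zeta (ζ s : ℂ) (h1 : -(1 / 2) ≤ s.re) (h2 : s.re ≤ 2) :
    ‖exp (-(ζ * s))‖ ≤ Real.exp (2 * |ζ.re|) * Real.exp (|ζ.im| * |s.im|) := by
  rw [norm_exp, ← Real.exp_add]
  apply Real.exp_le_exp.2
  simp only [neg_re, mul_re]
  have e1 : -(ζ.re * s.re) ≤ 2 * |ζ.re| := by
    have : |ζ.re * s.re| ≤ |ζ.re| * 2 := by
      rw [abs_mul]
      exact mul_le_mul_of_nonneg_left (abs_le.2 ⟨by linarith, h2⟩) (abs_nonneg _)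
    have := neg_abs_le (ζ.re * s.re)
    linarith
  have e2 : ζ.im * s.im ≤ |ζ.im| * |s.im| := by
    rw [← abs_mul]; exact le_abs_self _
  linarith

/-- decay of `Γ(s) exp(-ζ s) B(s)` -/
lemma decay {B : ℂ → ℂ} {A K : ℝ}
    (hB : ∀ s : ℂ, -(1 / 2) ≤ s.re → s.re ≤ 2 → ‖B s‖ ≤ K * (1 + |s.im|) ^ A) (ζ : ℂ) :
    ∃ C a : ℝ, 0 ≤ C ∧ 0 ≤ a ∧ ∀ s : ℂ, -(1 / 2) ≤ s.re → s.re ≤ 2 → 1 ≤ |s.im| →
      ‖Gamma s * exp (-(ζ * s)) * B s‖ ≤
        C * ((1 + |s.im|) ^ a * Real.exp (-((Real.pi / 2 - |ζ.im|) * |s.im|))) := by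
  obtain ⟨C₁, A₁, hC₁, hA₁, hΓ⟩ := Gamma_strip_bound (-(1 / 2)) 2
  refine ⟨C₁ * Real.exp (2 * |ζ.re|) * |K|, A₁ + |A|, by positivity, by positivity,
    fun s h1 h2 h3 => ?_⟩
  have hx : (1 : ℝ) ≤ 1 + |s.im| := by linarith [abs_nonneg s.im]
  have g1 : ‖Gamma s‖ ≤ C₁ * (1 + |s.im|) ^ A₁ * Real.exp (-(Real.pi * |s.im| / 2)) := by
    refine (hΓ s h1 h2 h3).trans ?_
    refine mul_le_mul_of_nonneg_right (mul_le_mul_of_nonneg_left ?_ hC₁.le) (Real.exp_pos _).le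
    exact Real.rpow_le_rpow (abs_nonneg _) (by linarith) hA₁
  have g2 := norm_exp_zeta ζ s h1 h2
  have g3 : ‖B s‖ ≤ |K| * (1 + |s.im|) ^ |A| := by
    refine (hB s h1 h2).trans ?_
    calc K * (1 + |s.im|) ^ A ≤ |K| * (1 + |s.im|) ^ A :=
          mul_le_mul_of_nonneg_right (le_abs_self K) (Real.rpow_nonneg (by linarith) _)
      _ ≤ _ := mul_le_mul_of_nonneg_left
          (Real.rpow_le_rpow_of_exponent_le hx (le_abs_self A)) (abs_nonneg K)
  rw [norm_mul, norm_mul]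
  calc ‖Gamma s‖ * ‖exp (-(ζ * s))‖ * ‖B s‖ ≤
        (C₁ * (1 + |s.im|) ^ A₁ * Real.exp (-(Real.pi * |s.im| / 2))) *
          (Real.exp (2 * |ζ.re|) * Real.exp (|ζ.im| * |s.im|)) * (|K| * (1 + |s.im|) ^ |A|) := by
        gcongr
    _ = C₁ * Real.exp (2 * |ζ.re|) * |K| * (((1 + |s.im|) ^ A₁ * (1 + |s.im|) ^ |A|) *
          (Real.exp (-(Real.pi * |s.im| / 2)) * Real.exp (|ζ.im| * |s.im|))) := by ring
    _ = _ := by
        rw [← Real.rpow_add (by linarith), ← Real.exp_add]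
        ring_nf

lemma ln_re (t : ℝ) : (ln t).re = -(1 / 2) := by simp [ln]
lemma ln_im (t : ℝ) : (ln t).im = t := by simp [ln]

lemma ln_cont : Continuous ln := by
  unfold ln
  fun_prop

lemma gamma_ln_cont : Continuous (fun t : ℝ => Gamma (ln t)) := by
  rw [continuous_iff_continuousAt]
  intro t
  have h : ContinuousAt Gamma (ln t) := by
    refine (differentiableAt_Gamma _ fun m => ?_).continuousAt
    intro h
    have h1 := congrArg re h
    rw [ln_re] at h1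
    simp only [neg_re, natCast_re] at h1
    have h2 : (2 * m : ℝ) = 1 := by linarith
    have h3 : 2 * m = 1 := by exact_mod_cast h2
    omega
  exact ContinuousAt.comp (f := ln) h ln_cont.continuousAt

end InvAux

open InvAux

/-- Mellin inversion on the line `Re s = 2`. -/
lemma line_two {τ q₂ : ℝ} {β σ : ℕ → ℂ} {B : ℂ → ℂ} {C : ℂ} (h : Dual τ q₂ β σ B C) {z : ℂ} (hz : 0 < z.re) :
    ∫ t : ℝ, Gamma (((2 : ℝ) : ℂ) + (t : ℂ) * I) *
      exp (-(log (2 * Real.pi * z) * (((2 : ℝ) : ℂ) + (t : ℂ) * I))) * B (((2 : ℝ) : ℂ) + (t : ℂ) * I) =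
      2 * Real.pi * fB β z := by
  set ζ : ℂ := log (2 * Real.pi * z) with hζ
  have hpi := Real.pi_pos
  have hz2 : 0 < (2 * Real.pi * z : ℂ).re := by
    rw [show (2 * Real.pi * z : ℂ) = ((2 * Real.pi : ℝ) : ℂ) * z by push_cast; ring, re_ofReal_mul]
    positivity
  have hne : (2 * Real.pi * z : ℂ) ≠ 0 := by
    intro h0; rw [h0] at hz2; simp at hz2
  have hζim : |ζ.im| < Real.pi / 2 := by
    rw [hζ, log_im]
    exact abs_arg_lt_pi_div_two_iff.2 (Or.inl hz2)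
  set g : ℝ → ℂ := fun t => Gamma (((2 : ℝ) : ℂ) + (t : ℂ) * I) *
      exp (-(ζ * (((2 : ℝ) : ℂ) + (t : ℂ) * I))) with hg
  have hgi : Integrable g := (mellin_exp 2 (by norm_num) ζ hζim).1
  set F : ℕ → ℝ → ℂ := fun n t => g t * (β (n + 1) *
    ((n + 1 : ℕ) : ℂ) ^ (-(((2 : ℝ) : ℂ) + (t : ℂ) * I))) with hF
  have hnn : ∀ n : ℕ, (((n + 1 : ℕ)) : ℂ) ≠ 0 := fun n => by exact_mod_cast Nat.succ_ne_zero n
  have hF2 : ∀ n t, F n t = β (n + 1) * (Gamma (((2 : ℝ) : ℂ) + (t : ℂ) * I) *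
      exp (-((ζ + (Real.log ((n + 1 : ℕ) : ℝ) : ℂ)) * (((2 : ℝ) : ℂ) + (t : ℂ) * I)))) := by
    intro n t
    rw [hF, hg]
    simp only
    rw [cpow_def_of_ne_zero (hnn n), ← natCast_log]
    rw [show exp (-((ζ + (Real.log ((n + 1 : ℕ) : ℝ) : ℂ)) * (((2 : ℝ) : ℂ) + (t : ℂ) * I))) =
      exp (-(ζ * (((2 : ℝ) : ℂ) + (t : ℂ) * I))) *
      exp ((Real.log ((n + 1 : ℕ) : ℝ) : ℂ) * -(((2 : ℝ) : ℂ) + (t : ℂ) * I)) by
        rw [← exp_add]; congr 1; ring]
    ring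
  have hM : ∀ n : ℕ, Integrable (F n) ∧
      ∫ t, F n t = 2 * Real.pi * (β (n + 1) * exp (-(2 * Real.pi * ((n : ℂ) + 1) * z))) := by
    intro n
    have him : |(ζ + (Real.log ((n + 1 : ℕ) : ℝ) : ℂ)).im| < Real.pi / 2 := by
      rw [add_im, ofReal_im, add_zero]; exact hζim
    obtain ⟨i1, i2⟩ := mellin_exp 2 (by norm_num) (ζ + (Real.log ((n + 1 : ℕ) : ℝ) : ℂ)) him
    have hfun : F n = fun t : ℝ => β (n + 1) * (Gamma (((2 : ℝ) : ℂ) + (t : ℂ) * I) *
      exp (-((ζ + (Real.log ((n + 1 : ℕ) : ℝ) : ℂ)) * (((2 : ℝ) : ℂ) + (t : ℂ) * I)))) :=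
      funext (hF2 n)
    have hexp : exp (ζ + (Real.log ((n + 1 : ℕ) : ℝ) : ℂ)) = 2 * Real.pi * ((n : ℂ) + 1) * z := by
      rw [exp_add, hζ, exp_log hne, natCast_log, exp_log (hnn n)]
      push_cast; ring
    refine ⟨by rw [hfun]; exact i1.const_mul _, ?_⟩
    rw [hfun, integral_const_mul]
    rw [hexp] at i2
    have hp : (2 * Real.pi : ℂ) ≠ 0 := by
      have : (Real.pi : ℂ) ≠ 0 := by exact_mod_cast hpi.ne'
      simp [this]
    rw [one_div, inv_mul_eq_iff_eq_mul₀ hp] at i2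
    rw [i2]
    ring
  have hsum : Summable fun n => ∫ t, ‖F n t‖ := by
    have hs2 := h.sumβ 2 (by norm_num)
    have hs3 : Summable fun n : ℕ => ‖LSeries.term β 2 (n + 1)‖ :=
      (summable_nat_add_iff 1).2 hs2.norm
    refine (hs3.mul_right (∫ t, ‖g t‖)).congr fun n => ?_
    rw [← integral_const_mul]
    congr 1
    funext t
    change _ = ‖g t * (β (n + 1) * ((n + 1 : ℕ) : ℂ) ^ (-(((2 : ℝ) : ℂ) + (t : ℂ) * I)))‖
    rw [norm_mul (g t), norm_mul (β (n + 1)), LSeries.term_of_ne_zero (Nat.succ_ne_zero n), norm_div]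
    have e1 : ‖((n + 1 : ℕ) : ℂ) ^ (-(((2 : ℝ) : ℂ) + (t : ℂ) * I))‖ =
        (‖((n + 1 : ℕ) : ℂ) ^ (2 : ℂ)‖)⁻¹ := by
      rw [norm_natCast_cpow_of_pos (Nat.succ_pos n), norm_natCast_cpow_of_pos (Nat.succ_pos n)]
      simp only [neg_re, add_re, ofReal_re, mul_re, I_re, mul_zero, ofReal_im, I_im, mul_one, sub_self,
        add_zero, re_ofNat]
      rw [Real.rpow_neg (by positivity)]
    rw [e1]
    change ‖β (n + 1)‖ / ‖((n + 1 : ℕ) : ℂ) ^ (2 : ℂ)‖ * ‖g t‖ = _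
    ring
  have hmain := hasSum_integral_of_summable_integral_norm (fun n => (hM n).1) hsum
  have htsum : ∀ t : ℝ, ∑' n, F n t = g t * B (((2 : ℝ) : ℂ) + (t : ℂ) * I) := by
    intro t
    rw [hF]
    simp only
    rw [tsum_mul_left]
    congr 1
    have hre : 1 < (((2 : ℝ) : ℂ) + (t : ℂ) * I).re := by simp
    rw [h.eqβ _ hre, LSeries, (h.sumβ _ hre).tsum_eq_zero_add, LSeries.term_zero, zero_add]
    refine tsum_congr fun n => ?_
    rw [LSeries.term_of_ne_zero (Nat.succ_ne_zero n), cpow_neg, div_eq_mul_inv]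
  simp_rw [htsum] at hmain
  have h1 := hmain.tsum_eq
  simp_rw [(hM _).2] at h1
  rw [tsum_mul_left] at h1
  exact h1.symm

theorem f_eq {τ q₂ : ℝ} {β σ : ℕ → ℂ} {B : ℂ → ℂ} {C : ℂ} (h : Dual τ q₂ β σ B C) {z : ℂ} (hz : 0 < z.re) :
    MeasureTheory.Integrable (fun t : ℝ => Gamma (ln t) * (2 * Real.pi * z) ^ (-ln t) * B (ln t)) ∧
    fB β z = B 0 + 1 / (2 * Real.pi : ℂ) * ∫ t : ℝ, Gamma (ln t) * (2 * Real.pi * z) ^ (-ln t) * B (ln t) := by
  set ζ : ℂ := log (2 * Real.pi * z) with hζ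
  have hpi := Real.pi_pos
  have hz2 : 0 < (2 * Real.pi * z : ℂ).re := by
    rw [show (2 * Real.pi * z : ℂ) = ((2 * Real.pi : ℝ) : ℂ) * z by push_cast; ring, re_ofReal_mul]
    positivity
  have hne : (2 * Real.pi * z : ℂ) ≠ 0 := by
    intro h0; rw [h0] at hz2; simp at hz2
  have hζim : |ζ.im| < Real.pi / 2 := by
    rw [hζ, log_im]
    exact abs_arg_lt_pi_div_two_iff.2 (Or.inl hz2)
  have hcp : ∀ s : ℂ, (2 * Real.pi * z) ^ (-s) = exp (-(ζ * s)) := by
    intro s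
    rw [cpow_def_of_ne_zero hne, ← hζ]
    congr 1; ring
  simp_rw [hcp]
  obtain ⟨A, K, hgr⟩ := h.growth
  obtain ⟨Cd, a, hCd, ha, hdec⟩ := decay hgr ζ
  set κ : ℝ := Real.pi / 2 - |ζ.im| with hκdef
  have hκ : 0 < κ := by rw [hκdef]; linarith
  have hBc : Continuous B := h.diff.continuous
  -- integrability on the two lines
  have hI1 : Integrable (fun t : ℝ => Gamma (ln t) * exp (-(ζ * ln t)) * B (ln t)) := by
    refine integrable_of_decay (C := Cd) (A := a) (κ := κ) ?_ ha hκ fun t ht => ?_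
    · exact (gamma_ln_cont.mul (by have := ln_cont; fun_prop)).mul (hBc.comp ln_cont)
    · have := hdec (ln t) (by rw [ln_re]) (by rw [ln_re]; norm_num) (by rw [ln_im]; exact ht)
      rwa [ln_im] at this
  refine ⟨hI1, ?_⟩
  have hI2 : Integrable (fun t : ℝ => Gamma (((2 : ℝ) : ℂ) + (t : ℂ) * I) *
      exp (-(ζ * (((2 : ℝ) : ℂ) + (t : ℂ) * I))) * B (((2 : ℝ) : ℂ) + (t : ℂ) * I)) := by
    refine integrable_of_decay (C := Cd) (A := a) (κ := κ) ?_ ha hκ fun t ht => ?_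
    · have h1 := gamma_line_cont 2 (by norm_num)
      exact (h1.mul (by fun_prop)).mul (hBc.comp (by fun_prop))
    · have := hdec (((2 : ℝ) : ℂ) + (t : ℂ) * I) (by simp; norm_num) (by simp) (by simpa using ht)
      simpa using this
  have hG1 : Integrable (fun t : ℝ => Gamma (ln t)) := by
    obtain ⟨C₁, a₁, hC₁, ha₁, hd₁⟩ := decay (B := fun _ => 1) (A := 0) (K := 1) (by simp) 0
    refine integrable_of_decay (C := C₁) (A := a₁) (κ := Real.pi / 2) gamma_ln_cont ha₁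
      (by positivity) fun t ht => ?_
    have := hd₁ (ln t) (by rw [ln_re]) (by rw [ln_re]; norm_num) (by rw [ln_im]; exact ht)
    simpa [ln_im] using this
  set J : ℕ → ℂ := fun N => ∫ t : ℝ, Gamma (ln t) * exp ((N : ℂ) * ln t) with hJ
  set I₁ : ℂ := ∫ t : ℝ, Gamma (ln t) * exp (-(ζ * ln t)) * B (ln t) with hI₁
  have hexpN : ∀ (N : ℕ) (t : ℝ), ‖exp ((N : ℂ) * ln t)‖ = Real.exp (-(N / 2 : ℝ)) := by
    intro N t
    rw [norm_exp, ← ofReal_natCast, re_ofReal_mul, ln_re]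
    congr 1; ring
  have key : ∀ N : ℕ, I₁ - B 0 * J N = 2 * Real.pi * fB β z - B 0 * (2 * Real.pi *
      exp (-exp (-(N : ℂ)))) := by
    intro N
    set P : ℂ → ℂ := fun s => exp (-(ζ * s)) * B s - B 0 * exp ((N : ℂ) * s) with hP
    have hPd : Differentiable ℂ P := by
      have := h.diff
      rw [hP]; fun_prop
    have hP0 : P 0 = 0 := by rw [hP]; simp
    set g : ℂ → ℂ := fun s => Gamma (s + 1) * dslope P 0 s with hg
    have hgs : ∀ s : ℂ, s ≠ 0 → g s = Gamma s * P s := by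
      intro s hs
      rw [hg]
      simp only
      rw [dslope_of_ne _ hs, slope_def_field, hP0, Gamma_add_one s hs]
      field_simp
      ring
    have hgd : ∀ s : ℂ, -(1 / 2 : ℝ) ≤ s.re → s.re ≤ 2 → DifferentiableAt ℂ g s := by
      intro s h1 _
      refine DifferentiableAt.mul ?_ ?_
      · have hG : DifferentiableAt ℂ Gamma (s + 1) := by
          refine differentiableAt_Gamma _ fun m => ?_
          intro h
          have h2 := congrArg re h
          simp only [add_re, one_re, neg_re, natCast_re] at h2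
          have : (0:ℝ) ≤ m := m.cast_nonneg
          linarith
        exact DifferentiableAt.comp (f := fun s : ℂ => s + 1) s hG (by fun_prop)
      · have := (differentiableOn_dslope (f := P) (c := 0) (s := Set.univ) Filter.univ_mem).2
          hPd.differentiableOn
        exact this.differentiableAt Filter.univ_mem
    obtain ⟨C₁, a₁, hC₁, ha₁, hd₁⟩ := decay (B := fun _ => 1) (A := 0) (K := 1) (by simp) (-(N : ℂ))
    have hκN : Real.pi / 2 - |(-(N : ℂ)).im| = Real.pi / 2 := by simp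
    rw [hκN] at hd₁
    obtain ⟨C₂, hC₂, hp₂⟩ := poly_exp a ha hκ
    obtain ⟨C₃, hC₃, hp₃⟩ := poly_exp a₁ ha₁ (b := Real.pi / 2) (by positivity)
    set φ : ℝ → ℝ := fun T => Cd * (C₂ * Real.exp (-(κ / 2 * T))) +
      ‖B 0‖ * (C₁ * (C₃ * Real.exp (-(Real.pi / 2 / 2 * T)))) with hφ
    have hexp0 : ∀ b : ℝ, 0 < b → Tendsto (fun T : ℝ => Real.exp (-(b * T))) atTop (𝓝 0) := by
      intro b hb
      exact Real.tendsto_exp_neg_atTop_nhds_zero.comp (tendsto_id.const_mul_atTop hb)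
    have hφ0 : Tendsto φ atTop (𝓝 0) := by
      have e1 := ((hexp0 (κ / 2) (by positivity)).const_mul C₂).const_mul Cd
      have e2 := (((hexp0 (Real.pi / 2 / 2) (by positivity)).const_mul C₃).const_mul C₁).const_mul ‖B 0‖
      have := e1.add e2
      simpa using this
    have hbd : ∀ᶠ T in atTop, ∀ s : ℂ, -(1 / 2 : ℝ) ≤ s.re → s.re ≤ 2 → |s.im| = T → ‖g s‖ ≤ φ T := by
      filter_upwards [eventually_ge_atTop (1 : ℝ)] with T hT s h1 h2 h3
      have hs0 : s ≠ 0 := by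
        intro h0; rw [h0] at h3; simp at h3; linarith
      rw [hgs s hs0, hP]
      simp only
      rw [mul_sub]
      have e1 : ‖Gamma s * (exp (-(ζ * s)) * B s)‖ ≤ Cd * (C₂ * Real.exp (-(κ / 2 * T))) := by
        rw [← mul_assoc]
        refine (hdec s h1 h2 (by rw [h3]; exact hT)).trans ?_
        rw [h3]
        exact mul_le_mul_of_nonneg_left (hp₂ T (by linarith)) hCd
      have e2 : ‖Gamma s * (B 0 * exp ((N : ℂ) * s))‖ ≤
          ‖B 0‖ * (C₁ * (C₃ * Real.exp (-(Real.pi / 2 / 2 * T)))) := by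
        rw [show Gamma s * (B 0 * exp ((N : ℂ) * s)) =
          B 0 * (Gamma s * exp (-(-(N : ℂ) * s)) * 1) by
            rw [neg_mul, neg_neg]; ring, norm_mul]
        refine mul_le_mul_of_nonneg_left ?_ (norm_nonneg _)
        refine (hd₁ s h1 h2 (by rw [h3]; exact hT)).trans ?_
        rw [h3]
        exact mul_le_mul_of_nonneg_left (hp₃ T (by linarith)) hC₁
      exact (norm_sub_le _ _).trans (add_le_add e1 e2)
    have hiN1 : Integrable (fun t : ℝ => B 0 * (Gamma (ln t) * exp ((N : ℂ) * ln t))) := by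
      refine Integrable.const_mul ?_ _
      refine Integrable.mono' (hG1.norm) ?_ (Filter.Eventually.of_forall fun t => ?_)
      · exact (gamma_ln_cont.mul (by have := ln_cont; fun_prop)).aestronglyMeasurable
      · rw [norm_mul, hexpN]
        have : Real.exp (-(N / 2 : ℝ)) ≤ 1 := Real.exp_le_one_iff.2 (by
          have : (0 : ℝ) ≤ N := N.cast_nonneg
          linarith)
        nlinarith [norm_nonneg (Gamma (ln t))]
    have him0 : |(-(N : ℂ)).im| < Real.pi / 2 := by simp; positivity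
    obtain ⟨iN2, eN2⟩ := mellin_exp 2 (by norm_num) (-(N : ℂ)) him0
    have hiN2 : Integrable (fun t : ℝ => B 0 * (Gamma (((2 : ℝ) : ℂ) + (t : ℂ) * I) *
        exp (-(-(N : ℂ) * (((2 : ℝ) : ℂ) + (t : ℂ) * I))))) := iN2.const_mul _
    have hln0 : ∀ t : ℝ, ln t ≠ 0 := fun t h0 => by
      have := congrArg re h0; rw [ln_re] at this; norm_num at this
    have h20 : ∀ t : ℝ, (((2 : ℝ) : ℂ) + (t : ℂ) * I) ≠ 0 := fun t h0 => by
      have := congrArg re h0; simp at this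
    have gl1 : ∀ t : ℝ, g (((-(1 / 2) : ℝ) : ℂ) + (t : ℂ) * I) =
        Gamma (ln t) * exp (-(ζ * ln t)) * B (ln t) - B 0 * (Gamma (ln t) * exp ((N : ℂ) * ln t)) := by
      intro t
      change g (ln t) = _
      rw [hgs _ (hln0 t), hP]
      simp only
      ring
    have gl2 : ∀ t : ℝ, g (((2 : ℝ) : ℂ) + (t : ℂ) * I) =
        Gamma (((2 : ℝ) : ℂ) + (t : ℂ) * I) * exp (-(ζ * (((2 : ℝ) : ℂ) + (t : ℂ) * I))) *
          B (((2 : ℝ) : ℂ) + (t : ℂ) * I) - B 0 * (Gamma (((2 : ℝ) : ℂ) + (t : ℂ) * I) *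
        exp (-(-(N : ℂ) * (((2 : ℝ) : ℂ) + (t : ℂ) * I)))) := by
      intro t
      rw [hgs _ (h20 t), hP]
      simp only
      rw [neg_mul, neg_neg]
      ring
    have hs := Pool.Agent.Helper83.BDF.shift g (a := -(1 / 2)) (b := 2) (by norm_num) hgd φ hφ0 hbd
      (by simp_rw [gl1]; exact hI1.sub hiN1) (by simp_rw [gl2]; exact hI2.sub hiN2)
    simp_rw [gl1, gl2] at hs
    rw [integral_sub hI1 hiN1, integral_sub hI2 hiN2, integral_const_mul, integral_const_mul,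
      line_two h hz] at hs
    rw [hI₁, hJ]
    simp only
    have hp : (2 * Real.pi : ℂ) ≠ 0 := by
      have : (Real.pi : ℂ) ≠ 0 := by exact_mod_cast hpi.ne'
      simp [this]
    rw [one_div, inv_mul_eq_iff_eq_mul₀ hp] at eN2
    rw [hs, eN2]
  -- limit N → ∞
  have hJ0 : Tendsto J atTop (𝓝 0) := by
    have hb : ∀ N : ℕ, ‖J N‖ ≤ Real.exp (-(N / 2 : ℝ)) * ∫ t : ℝ, ‖Gamma (ln t)‖ := by
      intro N
      rw [hJ]
      refine (norm_integral_le_integral_norm _).trans (le_of_eq ?_)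
      rw [← integral_const_mul]
      congr 1
      funext t
      rw [norm_mul, hexpN, mul_comm]
    have h0 : Tendsto (fun N : ℕ => Real.exp (-(N / 2 : ℝ)) * ∫ t : ℝ, ‖Gamma (ln t)‖) atTop (𝓝 0) := by
      have h1 : Tendsto (fun N : ℕ => Real.exp (-(N / 2 : ℝ))) atTop (𝓝 0) := by
        refine Real.tendsto_exp_neg_atTop_nhds_zero.comp ?_
        exact (tendsto_natCast_atTop_atTop (R := ℝ)).atTop_div_const (by norm_num)
      have := h1.mul_const (∫ t : ℝ, ‖Gamma (ln t)‖)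
      simpa using this
    exact squeeze_zero_norm hb h0
  have hE0 : Tendsto (fun N : ℕ => exp (-exp (-(N : ℂ)))) atTop (𝓝 1) := by
    have h1 : Tendsto (fun N : ℕ => exp (-(N : ℂ))) atTop (𝓝 0) := by
      rw [tendsto_zero_iff_norm_tendsto_zero]
      have : ∀ N : ℕ, ‖exp (-(N : ℂ))‖ = Real.exp (-(N : ℝ)) := by
        intro N; rw [norm_exp]; simp
      simp_rw [this]
      exact Real.tendsto_exp_neg_atTop_nhds_zero.comp tendsto_natCast_atTop_atTop
    have h2 := (continuous_exp.tendsto (-(0 : ℂ))).comp h1.neg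
    rw [neg_zero, exp_zero] at h2
    exact h2
  have hL : Tendsto (fun N : ℕ => I₁ - B 0 * J N) atTop (𝓝 (I₁ - B 0 * 0)) :=
    tendsto_const_nhds.sub (tendsto_const_nhds.mul hJ0)
  have hR : Tendsto (fun N : ℕ => 2 * Real.pi * fB β z - B 0 * (2 * Real.pi * exp (-exp (-(N : ℂ))))) atTop
      (𝓝 (2 * Real.pi * fB β z - B 0 * (2 * Real.pi * 1))) :=
    tendsto_const_nhds.sub (tendsto_const_nhds.mul (tendsto_const_nhds.mul hE0))
  simp_rw [key] at hL
  have hfin := tendsto_nhds_unique hR hL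
  have hp : (2 * Real.pi : ℂ) ≠ 0 := by
    have : (Real.pi : ℂ) ≠ 0 := by exact_mod_cast hpi.ne'
    simpa using this
  field_simp
  linear_combination hfin

end Pool.Agent.Helper25.BC
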