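import Pool.Agent.Helper25.BC.Defs

/-!
Block BC-K (MP_bd232a_nt, part C). The kernel identity and its bounds on `Re s = -1/2`.
PROOF. `Γ_ℝ(w)/Γ_ℝ(1-w) = 2 (2π)^{-w} Γ(w) cos(π w/2)` (`Complex.inv_Gammaℝ_one_sub`, `Gammaℂ`), once for `w = s` (inverted: `Γ(s)(2π)^{-s} Γ_ℝ(1-s)/Γ_ℝ(s) = 1/(2 cos(π s/2))`) and once
for `w = 1 - s + iτ`: `Γ_ℝ(1-s+iτ)/Γ_ℝ(s-iτ) = 2 (2π)^{-w} Γ(w) cos(π w/2)`, `cos(π/2 - π(s-iτ)/2) = sin(π(s-iτ)/2) = sin(πs/2) cosh(πτ/2) - i cos(πs/2) sinh(πτ/2)`.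
`tan z ∓ i = ∓ i e^{±iz}/cos z`, `|cos(π s/2)|² = cos²(π/4) + sinh²(π t/2) ≥ c e^{π|t|}` for `s = -1/2 + it`. `‖Γ(3/2+iy)‖² = (1/4+y²) π/cosh(πy)`
(`Complex.Gamma_mul_Gamma_one_sub` at `1/2 + iy`, `Gamma_conj`, `Gamma_add_one`).
-/

open Complex

namespace Pool.Agent.Helper25.BC

open Pool.Agent.Helper19.BD

theorem kernel (τ : ℝ) {s : ℂ} (hs : s.re = -(1 / 2)) :
    Gamma s * (2 * Real.pi : ℂ) ^ (-s) * gam τ s =
      (2 * Real.pi : ℂ) ^ (-(1 - s + I * τ)) * Gamma (1 - s + I * τ) * Rk τ s := by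
  have hre : ∀ k : ℝ, (∃ n : ℤ, k = n) → s ≠ (k : ℂ) := by
    rintro k ⟨n, rfl⟩ h
    rw [h] at hs
    simp only [ofReal_re] at hs
    have h2 : ((2 * n + 1 : ℤ) : ℝ) = 0 := by push_cast; linarith
    have h3 : (2 * n + 1 : ℤ) = 0 := by exact_mod_cast h2
    omega
  have h1 : ∀ n : ℕ, s ≠ -(2 * n + 1) := by
    intro n
    have := hre (-(2 * n + 1)) ⟨-(2 * n + 1), by push_cast; ring⟩
    intro h
    apply this
    rw [h]; push_cast; ring
  have ha : Gammaℝ s ≠ 0 := by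
    rw [Ne, Gammaℝ_eq_zero_iff]
    rintro ⟨n, h⟩
    apply hre (-(2 * n)) ⟨-(2 * n), by push_cast; ring⟩
    rw [h]; push_cast; ring
  have hb : Gammaℝ (1 - s) ≠ 0 := by
    apply Gammaℝ_ne_zero_of_re_pos
    rw [sub_re, hs, one_re]; norm_num
  have e1 := Gammaℝ_div_Gammaℝ_one_sub h1
  rw [Gammaℂ_def] at e1
  have hwre : (1 - s + I * τ).re = 3 / 2 := by
    rw [add_re, sub_re, hs, one_re, mul_re, I_re, I_im, ofReal_re, ofReal_im]; norm_num
  have hw1 : ∀ n : ℕ, (1 - s + I * τ) ≠ -(2 * n + 1) := by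
    intro n h
    have h2 := congrArg Complex.re h
    rw [hwre] at h2
    have h3 : (-(2 * (n : ℂ) + 1)).re = -(2 * n + 1) := by simp
    rw [h3] at h2
    have : (0 : ℝ) ≤ n := Nat.cast_nonneg n
    linarith
  have e2 := Gammaℝ_div_Gammaℝ_one_sub hw1
  rw [Gammaℂ_def] at e2
  have e3 : 1 - (1 - s + I * τ) = s - I * τ := by ring
  rw [e3] at e2
  have e4 : cos (Real.pi * (1 - s + I * τ) / 2) =
      sin (Real.pi * s / 2) * (Real.cosh (Real.pi * τ / 2) : ℂ) - I * (cos (Real.pi * s / 2) * (Real.sinh (Real.pi * τ / 2) : ℂ)) := by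
    have h5 : (Real.pi * (1 - s + I * τ) / 2 : ℂ) = Real.pi / 2 - (Real.pi * s / 2 - (Real.pi * τ / 2 : ℝ) * I) := by
      push_cast; ring
    rw [h5, Complex.cos_pi_div_two_sub, Complex.sin_sub, Complex.cos_mul_I, Complex.sin_mul_I, ofReal_cosh, ofReal_sinh]
    ring
  set P : ℂ := (2 * Real.pi) ^ (-s) * Gamma s with hP
  set c : ℂ := cos (Real.pi * s / 2) with hc
  have e1' : Gammaℝ s / Gammaℝ (1 - s) = 2 * P * c := by rw [e1, hP]; ring
  have hab : Gammaℝ s / Gammaℝ (1 - s) ≠ 0 := div_ne_zero ha hb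
  rw [e1'] at hab
  have hc0 : c ≠ 0 := right_ne_zero_of_mul hab
  have e5 : P * (Gammaℝ (1 - s) / Gammaℝ s) = 1 / (2 * c) := by
    have h6 : Gammaℝ s = 2 * P * c * Gammaℝ (1 - s) := by
      rw [← e1', div_mul_cancel₀ _ hb]
    rw [eq_div_iff (mul_ne_zero two_ne_zero hc0), mul_div_assoc', div_mul_eq_mul_div, div_eq_one_iff_eq ha, h6]
    ring
  have e6 : Gamma s * (2 * Real.pi : ℂ) ^ (-s) * gam τ s =
      (P * (Gammaℝ (1 - s) / Gammaℝ s)) * (Gammaℝ (1 - s + I * τ) / Gammaℝ (s - I * τ)) := by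
    unfold gam
    rw [hP]
    rw [mul_div_mul_comm]
    ring
  rw [e6, e5, e2, e4]
  unfold Rk
  rw [Complex.tan_eq_sin_div_cos, ← hc]
  field_simp

theorem Rk_up (τ : ℝ) (s : ℂ) : Rk τ s = I * (Real.exp (-(Real.pi * τ / 2)) : ℂ) +
    (Real.cosh (Real.pi * τ / 2) : ℂ) * (tan (Real.pi * s / 2) - I) := by
  unfold Rk
  have h : Real.exp (-(Real.pi * τ / 2)) = Real.cosh (Real.pi * τ / 2) - Real.sinh (Real.pi * τ / 2) :=
    (Real.cosh_sub_sinh _).symm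
  rw [h, ofReal_sub]
  ring

theorem Rk_dn (τ : ℝ) (s : ℂ) : Rk τ s = -I * (Real.exp (Real.pi * τ / 2) : ℂ) +
    (Real.cosh (Real.pi * τ / 2) : ℂ) * (tan (Real.pi * s / 2) + I) := by
  unfold Rk
  have h : Real.exp (Real.pi * τ / 2) = Real.cosh (Real.pi * τ / 2) + Real.sinh (Real.pi * τ / 2) :=
    (Real.cosh_add_sinh _).symm
  rw [h, ofReal_add]
  ring

private theorem cosh_ge (y : ℝ) : Real.exp |y| / 2 ≤ Real.cosh y := by
  rw [← Real.cosh_abs, Real.cosh_eq]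
  have := Real.exp_pos (-|y|)
  linarith

private theorem cos_ge (t : ℝ) : Real.exp (Real.pi * |t| / 2) / 4 ≤ ‖cos (Real.pi * ln t / 2)‖ := by
  have h0 : (Real.pi * ln t / 2 : ℂ) = ((-(Real.pi / 4) : ℝ) : ℂ) + ((Real.pi * t / 2 : ℝ) : ℂ) * I := by
    unfold ln
    push_cast; ring
  have h1 : (cos (Real.pi * ln t / 2)).re = Real.cos (Real.pi / 4) * Real.cosh (Real.pi * t / 2) := by
    rw [h0, Complex.cos_add, Complex.cos_mul_I, Complex.sin_mul_I, ← ofReal_cos, ← ofReal_cosh, ← ofReal_sin, ← ofReal_sinh, Real.cos_neg]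
    rw [sub_re, ← ofReal_mul, ofReal_re, ← mul_assoc, ← ofReal_mul, mul_re, I_re, I_im, ofReal_im, ofReal_re]
    ring
  have h2 : |(cos (Real.pi * ln t / 2)).re| ≤ ‖cos (Real.pi * ln t / 2)‖ := Complex.abs_re_le_norm _
  refine le_trans ?_ h2
  rw [h1, Real.cos_pi_div_four]
  have h3 := cosh_ge (Real.pi * t / 2)
  have h4 : |Real.pi * t / 2| = Real.pi * |t| / 2 := by
    rw [abs_div, abs_mul, abs_of_pos Real.pi_pos, abs_of_pos (two_pos : (0:ℝ) < 2)]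
  rw [h4] at h3
  have h5 : (1 : ℝ) / 2 ≤ Real.sqrt 2 / 2 := by
    have : (1 : ℝ) ≤ Real.sqrt 2 := by
      rw [show (1 : ℝ) = Real.sqrt 1 by simp]
      exact Real.sqrt_le_sqrt (by norm_num)
    linarith
  have h6 : 0 < Real.cosh (Real.pi * t / 2) := Real.cosh_pos _
  refine le_trans ?_ (le_abs_self _)
  calc Real.exp (Real.pi * |t| / 2) / 4 = 1 / 2 * (Real.exp (Real.pi * |t| / 2) / 2) := by ring
    _ ≤ Real.sqrt 2 / 2 * Real.cosh (Real.pi * t / 2) := by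
        refine mul_le_mul h5 h3 (by positivity) (by positivity)

theorem tan_bound : ∃ C : ℝ, 0 < C ∧ ∀ t : ℝ,
    ‖tan (Real.pi * ln t / 2) - I‖ ≤ C * Real.exp (-(Real.pi * (t + |t|) / 2)) ∧
    ‖tan (Real.pi * ln t / 2) + I‖ ≤ C * Real.exp (-(Real.pi * (|t| - t) / 2)) := by
  refine ⟨4, by norm_num, fun t => ?_⟩
  have hge := cos_ge t
  have hpos : 0 < ‖cos (Real.pi * ln t / 2)‖ := lt_of_lt_of_le (by positivity) hge
  have hne : cos (Real.pi * ln t / 2) ≠ 0 := norm_pos_iff.1 hpos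
  have him : (Real.pi * ln t / 2 : ℂ).im = Real.pi * t / 2 := by
    have h0 : (Real.pi * ln t / 2 : ℂ) = ((-(Real.pi / 4) : ℝ) : ℂ) + ((Real.pi * t / 2 : ℝ) : ℂ) * I := by
      unfold ln
      push_cast; ring
    rw [h0]
    simp
  set z : ℂ := Real.pi * ln t / 2 with hz
  have e1 : tan z - I = -I * exp (z * I) / cos z := by
    rw [Complex.tan_eq_sin_div_cos, Complex.exp_mul_I]
    field_simp
    ring_nf
    rw [I_sq]; ring
  have e2 : tan z + I = I * exp (-z * I) / cos z := by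
    rw [Complex.tan_eq_sin_div_cos, Complex.exp_mul_I, Complex.cos_neg, Complex.sin_neg]
    field_simp
    ring_nf
    rw [I_sq]; ring
  have n1 : ‖exp (z * I)‖ = Real.exp (-(Real.pi * t / 2)) := by
    rw [Complex.norm_exp]
    congr 1
    rw [mul_re, I_re, I_im, him]; ring
  have n2 : ‖exp (-z * I)‖ = Real.exp (Real.pi * t / 2) := by
    rw [Complex.norm_exp]
    congr 1
    rw [mul_re, I_re, I_im, neg_re, neg_im, him]; ring
  constructor
  · rw [e1, norm_div, norm_mul, norm_neg, Complex.norm_I, one_mul, n1, div_le_iff₀ hpos]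
    calc Real.exp (-(Real.pi * t / 2)) = 4 * Real.exp (-(Real.pi * (t + |t|) / 2)) * (Real.exp (Real.pi * |t| / 2) / 4) := by
          have : Real.exp (-(Real.pi * t / 2)) = Real.exp (-(Real.pi * (t + |t|) / 2)) * Real.exp (Real.pi * |t| / 2) := by
            rw [← Real.exp_add]; congr 1; ring
          rw [this]; ring
      _ ≤ 4 * Real.exp (-(Real.pi * (t + |t|) / 2)) * ‖cos z‖ := mul_le_mul_of_nonneg_left hge (by positivity)
  · rw [e2, norm_div, norm_mul, Complex.norm_I, one_mul, n2, div_le_iff₀ hpos]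
    calc Real.exp (Real.pi * t / 2) = 4 * Real.exp (-(Real.pi * (|t| - t) / 2)) * (Real.exp (Real.pi * |t| / 2) / 4) := by
          have : Real.exp (Real.pi * t / 2) = Real.exp (-(Real.pi * (|t| - t) / 2)) * Real.exp (Real.pi * |t| / 2) := by
            rw [← Real.exp_add]; congr 1; ring
          rw [this]; ring
      _ ≤ 4 * Real.exp (-(Real.pi * (|t| - t) / 2)) * ‖cos z‖ := mul_le_mul_of_nonneg_left hge (by positivity)

private theorem Gamma_half (y : ℝ) : ‖Gamma (1 / 2 + (y : ℂ) * I)‖ ≤ 3 * Real.exp (-(Real.pi * |y| / 2)) := by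
  have h1 := Complex.Gamma_mul_Gamma_one_sub (1 / 2 + (y : ℂ) * I)
  have h2 : (1 : ℂ) - (1 / 2 + (y : ℂ) * I) = (starRingEnd ℂ) (1 / 2 + (y : ℂ) * I) := by
    simp only [map_add, map_mul, conj_ofReal, conj_I, map_div₀, map_one, map_ofNat]
    ring
  rw [h2, Complex.Gamma_conj, Complex.mul_conj, Complex.normSq_eq_norm_sq] at h1
  have h3 : sin (Real.pi * (1 / 2 + (y : ℂ) * I)) = (Real.cosh (Real.pi * y) : ℂ) := by
    have : (Real.pi * (1 / 2 + (y : ℂ) * I) : ℂ) = ((Real.pi * y : ℝ) : ℂ) * I + Real.pi / 2 := by push_cast; ring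
    rw [this, Complex.sin_add_pi_div_two, Complex.cos_mul_I, ofReal_cosh]
  rw [h3, ← ofReal_div] at h1
  have h4 : ‖Gamma (1 / 2 + (y : ℂ) * I)‖ ^ 2 = Real.pi / Real.cosh (Real.pi * y) := by exact_mod_cast h1
  have h5 := cosh_ge (Real.pi * y)
  have h6 : |Real.pi * y| = Real.pi * |y| := by rw [abs_mul, abs_of_pos Real.pi_pos]
  rw [h6] at h5
  have hc := Real.cosh_pos (Real.pi * y)
  have h7 : ‖Gamma (1 / 2 + (y : ℂ) * I)‖ ^ 2 ≤ (3 * Real.exp (-(Real.pi * |y| / 2))) ^ 2 := by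
    rw [h4, div_le_iff₀ hc, mul_pow, ← Real.exp_nat_mul]
    have e : ((2 : ℕ) : ℝ) * -(Real.pi * |y| / 2) = -(Real.pi * |y|) := by push_cast; ring
    rw [e]
    have h8 : Real.exp (-(Real.pi * |y|)) * Real.exp (Real.pi * |y|) = 1 := by
      rw [← Real.exp_add]; simp
    have h9 : 3 ^ 2 * Real.exp (-(Real.pi * |y|)) * (Real.exp (Real.pi * |y|) / 2) ≤
        3 ^ 2 * Real.exp (-(Real.pi * |y|)) * Real.cosh (Real.pi * y) :=
      mul_le_mul_of_nonneg_left h5 (by positivity)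
    have h10 : 3 ^ 2 * Real.exp (-(Real.pi * |y|)) * (Real.exp (Real.pi * |y|) / 2) = 9 / 2 := by
      calc _ = 9 / 2 * (Real.exp (-(Real.pi * |y|)) * Real.exp (Real.pi * |y|)) := by ring
        _ = 9 / 2 := by rw [h8, mul_one]
    have h11 := Real.pi_lt_four
    linarith
  exact (sq_le_sq₀ (norm_nonneg _) (by positivity)).1 h7

theorem Gamma_line : ∃ C : ℝ, 0 < C ∧ ∀ y : ℝ,
    ‖Gamma (3 / 2 + (y : ℂ) * I)‖ ≤ C * (1 + |y|) * Real.exp (-(Real.pi * |y| / 2)) ∧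
    ‖Gamma (-(1 / 2) + (y : ℂ) * I)‖ ≤ C * Real.exp (-(Real.pi * |y| / 2)) := by
  refine ⟨6, by norm_num, fun y => ?_⟩
  have h0 := Gamma_half y
  have hexp : 0 < Real.exp (-(Real.pi * |y| / 2)) := Real.exp_pos _
  constructor
  · have hne : (1 / 2 + (y : ℂ) * I) ≠ 0 := by
      intro h
      have := congrArg Complex.re h
      simp at this
    have e : (3 / 2 + (y : ℂ) * I) = (1 / 2 + (y : ℂ) * I) + 1 := by ring
    rw [e, Complex.Gamma_add_one _ hne, norm_mul]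
    have h1 : ‖(1 / 2 + (y : ℂ) * I)‖ ≤ 1 + |y| := by
      refine (norm_add_le _ _).trans ?_
      rw [norm_mul, Complex.norm_I, mul_one, Complex.norm_real, Real.norm_eq_abs]
      have : ‖(1 / 2 : ℂ)‖ = 1 / 2 := by norm_num
      rw [this]; linarith
    calc ‖(1 / 2 + (y : ℂ) * I)‖ * ‖Gamma (1 / 2 + (y : ℂ) * I)‖ ≤ (1 + |y|) * (3 * Real.exp (-(Real.pi * |y| / 2))) :=
          mul_le_mul h1 h0 (norm_nonneg _) (by positivity)
      _ ≤ 6 * (1 + |y|) * Real.exp (-(Real.pi * |y| / 2)) := by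
          have : 0 ≤ (1 + |y|) * Real.exp (-(Real.pi * |y| / 2)) := by positivity
          nlinarith
  · have hne : (-(1 / 2) + (y : ℂ) * I) ≠ 0 := by
      intro h
      have := congrArg Complex.re h
      simp at this
    have e : (1 / 2 + (y : ℂ) * I) = (-(1 / 2) + (y : ℂ) * I) + 1 := by ring
    rw [e, Complex.Gamma_add_one _ hne, norm_mul] at h0
    have h1 : 1 / 2 ≤ ‖(-(1 / 2) + (y : ℂ) * I)‖ := by
      have h2 := Complex.abs_re_le_norm (-(1 / 2) + (y : ℂ) * I)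
      have h3 : (-(1 / 2) + (y : ℂ) * I).re = -(1 / 2) := by simp
      rw [h3] at h2
      norm_num at h2
      linarith
    have h4 := norm_nonneg (Gamma (-(1 / 2) + (y : ℂ) * I))
    nlinarith

end Pool.Agent.Helper25.BC
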