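import Pool.Agent.Helper25.BC.Defs
import Pool.Agent.Helper25.BC.Kernel
import Pool.Agent.Helper25.BC.Inv

/-!
Block BC-0 (MP_bd232a_nt, part C). The cusp property at `0`, and periodicity.
PROOF. `f_eq`: `|f(w) - B(0)| ≤ (1/2π) ∫ ‖Γ(ln t)‖ |2πw|^{1/2} exp(t arg w) ‖B(ln t)‖ dt`, `|arg w| ≤ arctan K < π/2`, `‖Γ(ln t)‖ ≤ C e^{-π|t|/2}` (`Gamma_line`), `h.growth`: the integral is
`≤ C_K |w|^{1/2}`. Periodicity: `fB β (z + i) = fB β z` termwise (`exp(-2πni) = 1`), `i(α+1) + w = (iα + w) + i`.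
-/

open Complex

namespace Pool.Agent.Helper25.BC

open Pool.Agent.Helper19.BD

/-- Argument of a point of a sector. -/
lemma abs_arg_le_arctan {w : ℂ} {K : ℝ} (hw : 0 < w.re) (hK : |w.im| ≤ K * w.re) : |w.arg| ≤ Real.arctan K := by
  have hlt : |w.arg| < Real.pi / 2 := abs_arg_lt_pi_div_two_iff.2 (Or.inl hw)
  have h1 := abs_lt.1 hlt
  have ha : w.arg = Real.arctan (w.im / w.re) := by
    rw [← tan_arg, Real.arctan_tan h1.1 h1.2]
  have h2 : |w.im / w.re| ≤ K := by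
    rw [abs_div, abs_of_pos hw, div_le_iff₀ hw]; exact hK
  rw [ha, abs_le]
  have h3 := abs_le.1 h2
  refine ⟨?_, Real.arctan_mono h3.2⟩
  rw [← Real.arctan_neg]
  exact Real.arctan_mono h3.1

/-- A power is dominated by an exponential. -/
lemma pow_le_exp (A : ℝ) {δ : ℝ} (hδ : 0 < δ) : ∃ M : ℝ, 0 < M ∧ ∀ t : ℝ, (1 + |t|) ^ A ≤ M * Real.exp (δ * |t|) := by
  set c : ℝ := (|A| + 1) / δ with hc
  have hc0 : 0 < c := by rw [hc]; positivity
  refine ⟨Real.exp (δ + |A| * |Real.log c|), Real.exp_pos _, fun t => ?_⟩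
  have ht : 0 ≤ |t| := abs_nonneg t
  have hA : 0 ≤ |A| := abs_nonneg A
  have h1 : (1 + |t|) ^ A ≤ (1 + |t|) ^ |A| := Real.rpow_le_rpow_of_exponent_le (by linarith) (le_abs_self A)
  refine h1.trans ?_
  rw [Real.rpow_def_of_pos (by linarith : 0 < 1 + |t|), ← Real.exp_add, Real.exp_le_exp]
  have h2 : Real.log (1 + |t|) ≤ (1 + |t|) / c - 1 + Real.log c := by
    have h3 := Real.log_le_sub_one_of_pos (x := (1 + |t|) / c) (by positivity)
    rw [Real.log_div (by linarith) hc0.ne'] at h3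
    linarith
  have h4 : Real.log (1 + |t|) ≤ (1 + |t|) / c + |Real.log c| := by
    have := le_abs_self (Real.log c)
    linarith
  have h5 : Real.log (1 + |t|) * |A| ≤ ((1 + |t|) / c + |Real.log c|) * |A| := mul_le_mul_of_nonneg_right h4 hA
  have h6 : (1 + |t|) / c * |A| ≤ δ * (1 + |t|) := by
    rw [hc, div_div_eq_mul_div, div_mul_eq_mul_div, div_le_iff₀ (by positivity)]
    nlinarith [mul_nonneg (by linarith : (0:ℝ) ≤ 1 + |t|) hδ.le]
  nlinarith

theorem cusp_zero {τ q₂ : ℝ} {β σ : ℕ → ℂ} {B : ℂ → ℂ} {C : ℂ} (h : Dual τ q₂ β σ B C) : Cusp (fB β) 0 := by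
  obtain ⟨A, K', hB⟩ := h.growth
  obtain ⟨G, hG0, hG⟩ := Gamma_line
  refine ⟨B 0, fun K => ?_⟩
  have hθ : Real.arctan K < Real.pi / 2 := Real.arctan_lt_pi_div_two K
  set δ : ℝ := (Real.pi / 2 - Real.arctan K) / 2 with hδ
  have hδ0 : 0 < δ := by rw [hδ]; linarith
  obtain ⟨M, hM0, hM⟩ := pow_le_exp A hδ0
  have hK' : 0 ≤ K' := by
    have h1 := hB 0 (by norm_num) (by norm_num)
    have h2 : 0 ≤ ‖B 0‖ := norm_nonneg _
    simp at h1
    exact h2.trans h1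
  have hint : MeasureTheory.Integrable (fun t : ℝ => Real.exp (-(δ * |t|))) :=
    Pool.Agent.Helper19.BD.int_exp_abs δ hδ0
  set J : ℝ := ∫ t : ℝ, Real.exp (-(δ * |t|)) with hJ
  refine ⟨1 / (2 * Real.pi) * (Real.sqrt (2 * Real.pi) * (G * (K' * M)) * J), 1, one_pos, fun w hw hwK _ => ?_⟩
  have hw0 : w ≠ 0 := by
    intro h0
    rw [h0] at hw
    simp at hw
  have hpi : (0 : ℝ) < Real.pi := Real.pi_pos
  have harg : |w.arg| ≤ Real.arctan K := abs_arg_le_arctan hw hwK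
  obtain ⟨_, hf⟩ := f_eq h hw
  have e1 : I * ((0 : ℝ) : ℂ) + w = w := by simp
  rw [e1, hf, add_sub_cancel_left, norm_mul]
  have e2 : ‖(1 / (2 * Real.pi) : ℂ)‖ = 1 / (2 * Real.pi) := by
    rw [norm_div, norm_mul]
    simp [abs_of_pos hpi]
  rw [e2]
  have hx0 : (2 * Real.pi * w : ℂ) ≠ 0 := by
    refine mul_ne_zero (mul_ne_zero two_ne_zero ?_) hw0
    exact_mod_cast hpi.ne'
  have hxarg : (2 * Real.pi * w : ℂ).arg = w.arg := by
    have : (2 * Real.pi * w : ℂ) = ((2 * Real.pi : ℝ) : ℂ) * w := by push_cast; ring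
    rw [this, arg_real_mul _ (by positivity)]
  have hxnorm : ‖(2 * Real.pi * w : ℂ)‖ = 2 * Real.pi * ‖w‖ := by
    rw [norm_mul, norm_mul]
    simp [abs_of_pos hpi]
  have hbd : ∀ t : ℝ, ‖Gamma (ln t) * (2 * Real.pi * w) ^ (-ln t) * B (ln t)‖ ≤
      Real.sqrt (2 * Real.pi) * (G * (K' * M)) * Real.sqrt ‖w‖ * Real.exp (-(δ * |t|)) := by
    intro t
    have g1 : ‖Gamma (ln t)‖ ≤ G * Real.exp (-(Real.pi * |t| / 2)) := by
      have := (hG t).2
      unfold ln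
      push_cast
      convert this using 3
    have g2 : ‖(2 * Real.pi * w : ℂ) ^ (-ln t)‖ ≤ Real.sqrt (2 * Real.pi) * Real.sqrt ‖w‖ * Real.exp (Real.arctan K * |t|) := by
      rw [norm_cpow_of_ne_zero hx0, hxarg, hxnorm]
      have r1 : (-ln t).re = 1 / 2 := by simp [ln]
      have r2 : (-ln t).im = -t := by simp [ln]
      rw [r1, r2, ← Real.sqrt_eq_rpow, Real.sqrt_mul (by positivity), div_eq_mul_inv, ← Real.exp_neg]
      refine mul_le_mul_of_nonneg_left ?_ (by positivity)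
      rw [Real.exp_le_exp]
      have : w.arg * t ≤ |w.arg| * |t| := by rw [← abs_mul]; exact le_abs_self _
      have h3 : |w.arg| * |t| ≤ Real.arctan K * |t| := mul_le_mul_of_nonneg_right harg (abs_nonneg t)
      linarith
    have g3 : ‖B (ln t)‖ ≤ K' * (M * Real.exp (δ * |t|)) := by
      have b1 := hB (ln t) (by simp [ln]) (by simp only [ln]; norm_num)
      have b2 : (ln t).im = t := by simp [ln]
      rw [b2] at b1
      exact b1.trans (mul_le_mul_of_nonneg_left (hM t) hK')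
    rw [norm_mul, norm_mul]
    have hsum : Real.exp (-(Real.pi * |t| / 2)) * Real.exp (Real.arctan K * |t|) * Real.exp (δ * |t|) = Real.exp (-(δ * |t|)) := by
      rw [← Real.exp_add, ← Real.exp_add]
      congr 1
      rw [hδ]; ring
    calc ‖Gamma (ln t)‖ * ‖(2 * Real.pi * w : ℂ) ^ (-ln t)‖ * ‖B (ln t)‖
        ≤ (G * Real.exp (-(Real.pi * |t| / 2))) * (Real.sqrt (2 * Real.pi) * Real.sqrt ‖w‖ * Real.exp (Real.arctan K * |t|)) *
            (K' * (M * Real.exp (δ * |t|))) := by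
          refine mul_le_mul (mul_le_mul g1 g2 (norm_nonneg _) (by positivity)) g3 (norm_nonneg _) (by positivity)
      _ = Real.sqrt (2 * Real.pi) * (G * (K' * M)) * Real.sqrt ‖w‖ *
            (Real.exp (-(Real.pi * |t| / 2)) * Real.exp (Real.arctan K * |t|) * Real.exp (δ * |t|)) := by ring
      _ = _ := by rw [hsum]
  have hI : ‖∫ t : ℝ, Gamma (ln t) * (2 * Real.pi * w) ^ (-ln t) * B (ln t)‖ ≤
      Real.sqrt (2 * Real.pi) * (G * (K' * M)) * Real.sqrt ‖w‖ * J := by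
    rw [hJ, ← MeasureTheory.integral_const_mul]
    exact MeasureTheory.norm_integral_le_of_norm_le (hint.const_mul _) (Filter.Eventually.of_forall hbd)
  calc 1 / (2 * Real.pi) * ‖∫ t : ℝ, Gamma (ln t) * (2 * Real.pi * w) ^ (-ln t) * B (ln t)‖
      ≤ 1 / (2 * Real.pi) * (Real.sqrt (2 * Real.pi) * (G * (K' * M)) * Real.sqrt ‖w‖ * J) :=
        mul_le_mul_of_nonneg_left hI (by positivity)
    _ = _ := by ring

theorem cusp_add_int (β : ℕ → ℂ) {α : ℝ} (k : ℤ) (h : Cusp (fB β) α) : Cusp (fB β) (α + k) := by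
  obtain ⟨c₀, hc⟩ := h
  refine ⟨c₀, fun K => ?_⟩
  obtain ⟨C, r, hr, hb⟩ := hc K
  refine ⟨C, r, hr, fun w hw hK hwr => ?_⟩
  have key : fB β (I * ((α + k : ℝ) : ℂ) + w) = fB β (I * (α : ℂ) + w) := by
    unfold fB
    refine tsum_congr fun n => ?_
    congr 1
    rw [exp_eq_exp_iff_exists_int]
    refine ⟨-((n : ℤ) + 1) * k, ?_⟩
    push_cast
    ring
  have h2 := hb w hw hK hwr
  rw [← key] at h2
  exact h2

end Pool.Agent.Helper25.BC
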