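import Pool.Agent.Helper25.BC.Defs
import Pool.Agent.Helper97.BD.MellinExp

/-!
Block BC-M (MP_bd232a_nt, part C). Evaluation of the main part.
PROOF. For each `n ≥ 1`, with `w = 1 - s + iτ = 3/2 + i(τ - t)`, `s = 1 + iτ - w`: `n^{-(1-s)} = n^{iτ} n^{-w}`, `(q₂z)^{-s} = (q₂z)^{-(1+iτ)} (q₂z)^{w}`, so the `n`-th term is
`σ(n) n^{iτ} (q₂z)^{-(1+iτ)} (1/2π) ∫ Γ(w) (2πn/(q₂z))^{-w} dt = σ(n) n^{iτ} (q₂z)^{-(1+iτ)} exp(-2πn/(q₂z))` (`mellin_exp`, block BD-S6, `σ = 3/2`, `ζ = log(2πn/(q₂z))`, substitution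
`t → τ - t`). Interchange of sum and integral: `∑ |σ(n)| n^{-3/2} < ∞` and `‖Γ(3/2+iy)‖ exp(|arg z||y|)` integrable (`mellin_exp` gives integrability; `hasSum_integral_of_summable_integral_norm`).
-/

open Complex

namespace Pool.Agent.Helper25.BC

open Pool.Agent.Helper19.BD

/-- the exponent `log (2πn/Z)` -/
noncomputable def zet (Z : ℂ) (n : ℕ) : ℂ := ((Real.log (2 * Real.pi) + Real.log n : ℝ) : ℂ) - Complex.log Z

theorem ln_w (τ t : ℝ) : 1 - ln t + I * τ = ((3 / 2 : ℝ) : ℂ) + ((τ - t : ℝ) : ℂ) * I := by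
  unfold ln
  push_cast
  ring

theorem main_ker (τ : ℝ) (ζ : ℂ) (hζ : |ζ.im| < Real.pi / 2) :
    MeasureTheory.Integrable (fun t : ℝ => Gamma (1 - ln t + I * τ) * exp (-(ζ * (1 - ln t + I * τ)))) ∧
    ∫ t : ℝ, Gamma (1 - ln t + I * τ) * exp (-(ζ * (1 - ln t + I * τ))) = 2 * Real.pi * exp (-exp ζ) := by
  obtain ⟨h1, h2⟩ := mellin_exp (3 / 2) (by norm_num) ζ hζ
  have he : (fun t : ℝ => Gamma (1 - ln t + I * τ) * exp (-(ζ * (1 - ln t + I * τ))))
      = fun t : ℝ => (fun u : ℝ => Gamma (((3 / 2 : ℝ) : ℂ) + (u : ℂ) * I) *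
        exp (-(ζ * (((3 / 2 : ℝ) : ℂ) + (u : ℂ) * I)))) (τ - t) := by
    funext t
    simp only
    rw [ln_w]
  rw [he]
  refine ⟨h1.comp_sub_left τ, ?_⟩
  rw [MeasureTheory.integral_sub_left_eq_self (fun u : ℝ => Gamma (((3 / 2 : ℝ) : ℂ) + (u : ℂ) * I) *
        exp (-(ζ * (((3 / 2 : ℝ) : ℂ) + (u : ℂ) * I)))) MeasureTheory.volume τ]
  rw [← h2, ← mul_assoc]
  have hpi : (Real.pi : ℂ) ≠ 0 := by exact_mod_cast Real.pi_ne_zero
  have h3 : (2 * Real.pi : ℂ) * (1 / (2 * Real.pi : ℂ)) = 1 := by field_simp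
  rw [h3, one_mul]

theorem main_term {σ : ℕ → ℂ} (τ t : ℝ) {Z : ℂ} (hZ : Z ≠ 0) {n : ℕ} (hn : 1 ≤ n) :
    (2 * Real.pi : ℂ) ^ (-(1 - ln t + I * τ)) * Gamma (1 - ln t + I * τ) * Z ^ (-ln t) *
      LSeries.term σ (1 - ln t) n =
    (σ n * npow n τ * Z ^ (-(1 + I * τ))) * (Gamma (1 - ln t + I * τ) *
      exp (-(zet Z n * (1 - ln t + I * τ)))) := by
  have h2pi : (2 * Real.pi : ℂ) ≠ 0 := by
    have : (Real.pi : ℂ) ≠ 0 := by exact_mod_cast Real.pi_ne_zero
    simp [this]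
  have hnC : (n : ℂ) ≠ 0 := by exact_mod_cast (show n ≠ 0 by omega)
  have e1 : Complex.log (2 * Real.pi : ℂ) = ((Real.log (2 * Real.pi) : ℝ) : ℂ) := by
    rw [ofReal_log (by positivity)]
    push_cast
    rfl
  have e2 : Complex.log (n : ℂ) = ((Real.log n : ℝ) : ℂ) := by
    rw [ofReal_log (by positivity)]
    push_cast
    rfl
  rw [LSeries.term_of_ne_zero (by omega), cpow_def_of_ne_zero h2pi, cpow_def_of_ne_zero hZ,
    cpow_def_of_ne_zero hZ, cpow_def_of_ne_zero hnC, e1, e2, div_eq_mul_inv, ← exp_neg]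
  unfold npow zet
  have e3 : exp (((Real.log (2 * Real.pi) : ℝ) : ℂ) * -(1 - ln t + I * τ)) * exp (Complex.log Z * -ln t) *
      exp (-(((Real.log n : ℝ) : ℂ) * (1 - ln t))) =
      exp ((τ : ℂ) * I * (Real.log n : ℂ)) * exp (Complex.log Z * -(1 + I * τ)) *
      exp (-((((Real.log (2 * Real.pi) + Real.log n : ℝ) : ℂ) - Complex.log Z) * (1 - ln t + I * τ))) := by
    rw [← exp_add, ← exp_add, ← exp_add, ← exp_add]
    congr 1
    push_cast
    ring
  linear_combination (Gamma (1 - ln t + I * τ) * σ n) * e3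

theorem main_part {σ : ℕ → ℂ} (hσ : ∀ s : ℂ, 1 < s.re → LSeriesSummable σ s) (τ : ℝ) {q₂ : ℝ} (hq : 0 < q₂) {z : ℂ}
    (hz : 0 < z.re) :
    MeasureTheory.Integrable (fun t : ℝ => (2 * Real.pi : ℂ) ^ (-(1 - ln t + I * τ)) * Gamma (1 - ln t + I * τ) *
      ((q₂ : ℂ) * z) ^ (-ln t) * LSeries σ (1 - ln t)) ∧
    1 / (2 * Real.pi : ℂ) * ∫ t : ℝ, (2 * Real.pi : ℂ) ^ (-(1 - ln t + I * τ)) * Gamma (1 - ln t + I * τ) *
      ((q₂ : ℂ) * z) ^ (-ln t) * LSeries σ (1 - ln t) =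
    ((q₂ : ℂ) * z) ^ (-(1 + I * τ)) * fB (fun n => σ n * npow n τ) (1 / ((q₂ : ℂ) * z)) := by
  set Z : ℂ := (q₂ : ℂ) * z with hZdef
  have hZre : 0 < Z.re := by
    rw [hZdef, re_ofReal_mul]; positivity
  have hZ0 : Z ≠ 0 := by
    intro h; rw [h] at hZre; simp at hZre
  have harg : |arg Z| < Real.pi / 2 := abs_arg_lt_pi_div_two_iff.mpr (Or.inl hZre)
  have hzim : ∀ n, |(zet Z n).im| < Real.pi / 2 := by
    intro n
    unfold zet
    rw [sub_im, ofReal_im, zero_sub, abs_neg, log_im]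
    exact harg
  have hzexp : ∀ n : ℕ, 1 ≤ n → exp (zet Z n) = 2 * Real.pi * n * (1 / Z) := by
    intro n hn
    have hn0 : (0 : ℝ) < n := by exact_mod_cast hn
    unfold zet
    rw [exp_sub, exp_log hZ0, ← ofReal_exp, Real.exp_add, Real.exp_log (by positivity), Real.exp_log hn0]
    push_cast
    ring
  -- the common factor
  set g : ℝ → ℂ := fun t => (2 * Real.pi : ℂ) ^ (-(1 - ln t + I * τ)) * Gamma (1 - ln t + I * τ) * Z ^ (-ln t) with hg
  have hg1 : ∀ t, g t = Z ^ (-(1 + I * τ)) * (Gamma (1 - ln t + I * τ) * exp (-(zet Z 1 * (1 - ln t + I * τ)))) := by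
    intro t
    have := main_term (σ := fun _ => 1) τ t hZ0 (le_refl 1)
    rw [LSeries.term_of_ne_zero one_ne_zero] at this
    simp only [Nat.cast_one, one_cpow, div_one, mul_one, one_mul, npow, Real.log_one, ofReal_zero,
      mul_zero, exp_zero] at this
    rw [hg]
    simp only
    rw [this]
  have hgint : MeasureTheory.Integrable g := by
    have h1 := ((main_ker τ (zet Z 1) (hzim 1)).1).const_mul (Z ^ (-(1 + I * τ)))
    refine h1.congr (Filter.Eventually.of_forall fun t => ?_)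
    exact (hg1 t).symm
  -- the L-series along the line
  have hre : ∀ t : ℝ, (1 - ln t).re = 3 / 2 := by
    intro t
    unfold ln
    simp
    norm_num
  have hcont : Continuous fun t : ℝ => LSeries σ (1 - ln t) := by
    have habs : LSeries.abscissaOfAbsConv σ ≤ 1 := by
      apply LSeries.abscissaOfAbsConv_le_of_forall_lt_LSeriesSummable
      intro y hy
      exact hσ _ (by simpa using hy)
    rw [continuous_iff_continuousAt]
    intro t
    have h1 : LSeries.abscissaOfAbsConv σ < ((1 - ln t).re : EReal) := by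
      refine lt_of_le_of_lt habs ?_
      rw [hre t]
      exact_mod_cast (by norm_num : (1 : ℝ) < 3 / 2)
    have h2 := (LSeries_analyticOnNhd σ _ h1).continuousAt
    have h3 : ContinuousAt (fun t : ℝ => 1 - ln t) t := by
      unfold ln; fun_prop
    exact ContinuousAt.comp (f := fun t : ℝ => 1 - ln t) h2 h3
  have hnt : ∀ (t : ℝ) (n : ℕ), ‖LSeries.term σ (1 - ln t) n‖ = ‖LSeries.term σ ((3 / 2 : ℝ) : ℂ) n‖ := by
    intro t n
    rw [LSeries.norm_term_eq, LSeries.norm_term_eq, hre t, ofReal_re]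
  have hsum32 : Summable fun n => ‖LSeries.term σ ((3 / 2 : ℝ) : ℂ) n‖ :=
    (hσ ((3 / 2 : ℝ) : ℂ) (by rw [ofReal_re]; norm_num)).norm
  have hbound : ∀ t, ‖LSeries σ (1 - ln t)‖ ≤ ∑' n, ‖LSeries.term σ ((3 / 2 : ℝ) : ℂ) n‖ := by
    intro t
    unfold LSeries
    refine (norm_tsum_le_tsum_norm ?_).trans ?_
    · exact hsum32.congr fun n => (hnt t n).symm
    · exact le_of_eq (tsum_congr fun n => hnt t n)
  have hInt : MeasureTheory.Integrable fun t : ℝ => g t * LSeries σ (1 - ln t) := by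
    exact hgint.mul_bdd hcont.aestronglyMeasurable (Filter.Eventually.of_forall hbound)
  refine ⟨hInt, ?_⟩
  -- termwise
  have hs1 : ∀ t : ℝ, ∑' n : ℕ, g t * LSeries.term σ (1 - ln t) (n + 1) = g t * LSeries σ (1 - ln t) := by
    intro t
    have hsm : Summable fun n => LSeries.term σ (1 - ln t) n :=
      hσ (1 - ln t) (by rw [hre t]; norm_num)
    rw [tsum_mul_left]
    congr 1
    unfold LSeries
    rw [hsm.tsum_eq_zero_add]
    simp
  have hF_int : ∀ n : ℕ, MeasureTheory.Integrable fun t : ℝ => g t * LSeries.term σ (1 - ln t) (n + 1) := by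
    intro n
    have h1 := ((main_ker τ (zet Z (n + 1)) (hzim (n + 1))).1).const_mul
      (σ (n + 1) * npow (n + 1) τ * Z ^ (-(1 + I * τ)))
    refine h1.congr (Filter.Eventually.of_forall fun t => ?_)
    exact (main_term τ t hZ0 (by omega)).symm
  have hF_sum : Summable fun n : ℕ => ∫ t : ℝ, ‖g t * LSeries.term σ (1 - ln t) (n + 1)‖ := by
    have h1 : ∀ n : ℕ, ∫ t : ℝ, ‖g t * LSeries.term σ (1 - ln t) (n + 1)‖
        = (∫ t : ℝ, ‖g t‖) * ‖LSeries.term σ ((3 / 2 : ℝ) : ℂ) (n + 1)‖ := by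
      intro n
      rw [← MeasureTheory.integral_mul_const]
      congr 1
      funext t
      rw [norm_mul, hnt]
    rw [show (fun n : ℕ => ∫ t : ℝ, ‖g t * LSeries.term σ (1 - ln t) (n + 1)‖)
      = fun n : ℕ => (∫ t : ℝ, ‖g t‖) * ‖LSeries.term σ ((3 / 2 : ℝ) : ℂ) (n + 1)‖ from funext h1]
    exact ((summable_nat_add_iff 1).mpr hsum32).mul_left _
  have hHS := MeasureTheory.hasSum_integral_of_summable_integral_norm hF_int hF_sum
  have hval : ∀ n : ℕ, ∫ t : ℝ, g t * LSeries.term σ (1 - ln t) (n + 1)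
      = 2 * Real.pi * (Z ^ (-(1 + I * τ)) * (σ (n + 1) * npow (n + 1) τ *
        exp (-(2 * Real.pi * ((n : ℂ) + 1) * (1 / Z))))) := by
    intro n
    have h1 : (fun t : ℝ => g t * LSeries.term σ (1 - ln t) (n + 1))
        = fun t => (σ (n + 1) * npow (n + 1) τ * Z ^ (-(1 + I * τ))) * (Gamma (1 - ln t + I * τ) *
          exp (-(zet Z (n + 1) * (1 - ln t + I * τ)))) := by
      funext t
      exact main_term τ t hZ0 (by omega)
    rw [h1, MeasureTheory.integral_const_mul, (main_ker τ (zet Z (n + 1)) (hzim (n + 1))).2,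
      hzexp (n + 1) (by omega)]
    push_cast
    ring
  have hpi : (2 * Real.pi : ℂ) ≠ 0 := by
    have : (Real.pi : ℂ) ≠ 0 := by exact_mod_cast Real.pi_ne_zero
    simp [this]
  have hfin : ∫ t : ℝ, g t * LSeries σ (1 - ln t)
      = 2 * Real.pi * (Z ^ (-(1 + I * τ)) * fB (fun n => σ n * npow n τ) (1 / Z)) := by
    have h1 : ∫ t : ℝ, g t * LSeries σ (1 - ln t)
        = ∫ t : ℝ, ∑' n : ℕ, g t * LSeries.term σ (1 - ln t) (n + 1) := by
      congr 1
      funext t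
      exact (hs1 t).symm
    rw [h1, ← hHS.tsum_eq]
    rw [tsum_congr hval, tsum_mul_left, tsum_mul_left]
    rfl
  rw [hfin]
  field_simp

end Pool.Agent.Helper25.BC
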