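import Pool.Agent.Helper25.BC.Defs
import Pool.Agent.Helper25.BC.Kernel

/-!
Block BC-P (MP_bd232a_nt, part C). The analytic remainder is Lipschitz at `iα`.
PROOF. `s = ln t`, `z = iα + w = iα (1 + v)`, `v = w/(iα)`, `|v| < 1/8`, `Re (1+v) > 0`, so `log(q₂ z) = log(q₂ iα) + log(1+v)` and
`(q₂ z)^{-s} = (q₂ iα)^{-s} exp(-s log(1+v))`. With `J = ± i` (the sign of `α`): `‖tan(πs/2) - J‖ ‖(q₂ iα)^{-s}‖ ≤ C exp(-π|t|/2)`,
`‖(2π)^{..} Γ(1-s+iτ)‖ ≤ C (1+|t|) exp(-π|t|/2)`, `‖L(σ,1-s)‖ ≤ ∑ |σ n| n^{-3/2}`; hence the integrand at `w = 0` is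
`≤ A (1+|t|) exp(-π|t|)`, and `‖exp(-s log(1+v)) - 1‖ ≤ |s| |log(1+v)| exp(|s||log(1+v)|)`, `|log(1+v)| ≤ (3/2)|v| ≤ 3/16`.
`c₀` = the integral at `w = 0`.
-/

open Complex

namespace Pool.Agent.Helper25.BC

open Pool.Agent.Helper19.BD

theorem psi_ln_re (t : ℝ) : (ln t).re = -(1 / 2) := by simp [ln]

theorem psi_ln_im (t : ℝ) : (ln t).im = t := by simp [ln]

theorem psi_ln_norm (t : ℝ) : ‖ln t‖ ≤ 1 + |t| := by
  have := Complex.norm_le_abs_re_add_abs_im (ln t)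
  rw [psi_ln_re, psi_ln_im] at this
  have h2 : |(-(1 / 2) : ℝ)| = 1 / 2 := by rw [abs_neg]; norm_num
  rw [h2] at this
  linarith

theorem psi_ln_cont : Continuous ln := by
  unfold ln
  fun_prop

theorem psi_L_bound {σ : ℕ → ℂ} (hσ : ∀ s : ℂ, 1 < s.re → LSeriesSummable σ s) :
    ∃ M : ℝ, 0 ≤ M ∧ ∀ t : ℝ, ‖LSeries σ (1 - ln t)‖ ≤ M := by
  refine ⟨∑' n, ‖LSeries.term σ (3 / 2 : ℂ) n‖, tsum_nonneg fun n => norm_nonneg _, fun t => ?_⟩
  have h1 : ∀ n, ‖LSeries.term σ (1 - ln t) n‖ = ‖LSeries.term σ (3 / 2 : ℂ) n‖ := by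
    intro n
    rw [LSeries.norm_term_eq, LSeries.norm_term_eq]
    have : (1 - ln t).re = (3 / 2 : ℂ).re := by
      rw [sub_re, psi_ln_re, one_re]
      norm_num
    rw [this]
  have hs : Summable fun n => ‖LSeries.term σ (1 - ln t) n‖ := by
    have := hσ (1 - ln t) (by rw [sub_re, psi_ln_re, one_re]; norm_num)
    exact this.norm
  calc ‖LSeries σ (1 - ln t)‖ ≤ ∑' n, ‖LSeries.term σ (1 - ln t) n‖ := norm_tsum_le_tsum_norm hs
    _ = _ := by simp_rw [h1]

theorem psi_L_cont {σ : ℕ → ℂ} (hσ : ∀ s : ℂ, 1 < s.re → LSeriesSummable σ s) :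
    Continuous fun t : ℝ => LSeries σ (1 - ln t) := by
  have h1 : LSeries.abscissaOfAbsConv σ ≤ ((1 : ℝ) : EReal) :=
    LSeries.abscissaOfAbsConv_le_of_forall_lt_LSeriesSummable fun y hy => hσ y (by simpa using hy)
  have h2 := (LSeries_differentiableOn σ).continuousOn
  have h3 : Continuous fun t : ℝ => 1 - ln t := continuous_const.sub psi_ln_cont
  refine h2.comp_continuous h3 fun t => ?_
  simp only [Set.mem_ofPred_eq]
  refine lt_of_le_of_lt h1 ?_
  rw [sub_re, psi_ln_re, one_re]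
  exact_mod_cast (by norm_num : (1 : ℝ) < 1 - -(1 / 2))

theorem psi_gam (τ : ℝ) : ∃ A : ℝ, 0 ≤ A ∧ ∀ t : ℝ,
    ‖(2 * Real.pi : ℂ) ^ (-(1 - ln t + I * τ)) * Gamma (1 - ln t + I * τ)‖ ≤
      A * (1 + |t|) * Real.exp (-(Real.pi * |t| / 2)) := by
  obtain ⟨C, hC, hG⟩ := Gamma_line
  refine ⟨(2 * Real.pi) ^ (-(3 / 2) : ℝ) * (C * (1 + |τ|) * Real.exp (Real.pi * |τ| / 2)), by positivity, fun t => ?_⟩
  have e1 : 1 - ln t + I * τ = 3 / 2 + ((τ - t : ℝ) : ℂ) * I := by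
    apply Complex.ext
    · simp [ln]; norm_num
    · simp [ln]; ring
  have e2 : ‖(2 * Real.pi : ℂ) ^ (-(1 - ln t + I * τ))‖ = (2 * Real.pi) ^ (-(3 / 2) : ℝ) := by
    have h2 : (2 * Real.pi : ℂ) = ((2 * Real.pi : ℝ) : ℂ) := by push_cast; rfl
    rw [h2, Complex.norm_cpow_eq_rpow_re_of_pos (by positivity)]
    congr 1
    rw [e1]
    simp
  rw [norm_mul, e2, e1, mul_assoc, mul_assoc]
  refine mul_le_mul_of_nonneg_left ?_ (by positivity)
  refine ((hG (τ - t)).1).trans ?_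
  have h3 : |τ - t| ≤ |τ| + |t| := abs_sub _ _
  have h4 : |t| - |τ| ≤ |τ - t| := by
    have := abs_sub_abs_le_abs_sub t τ
    rw [abs_sub_comm] at this
    exact this
  have h5 : 1 + |τ - t| ≤ (1 + |τ|) * (1 + |t|) := by
    nlinarith [abs_nonneg τ, abs_nonneg t, mul_nonneg (abs_nonneg τ) (abs_nonneg t)]
  have h6 : Real.exp (-(Real.pi * |τ - t| / 2)) ≤ Real.exp (Real.pi * |τ| / 2) * Real.exp (-(Real.pi * |t| / 2)) := by
    rw [← Real.exp_add]
    apply Real.exp_le_exp.2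
    have := mul_le_mul_of_nonneg_left h4 Real.pi_pos.le
    linarith
  calc C * (1 + |τ - t|) * Real.exp (-(Real.pi * |τ - t| / 2))
      ≤ C * ((1 + |τ|) * (1 + |t|)) * (Real.exp (Real.pi * |τ| / 2) * Real.exp (-(Real.pi * |t| / 2))) := by
        refine mul_le_mul (mul_le_mul_of_nonneg_left h5 hC.le) h6 (Real.exp_pos _).le (by positivity)
    _ = _ := by ring

theorem psi_arg {q₂ α : ℝ} (hq : 0 < q₂) (hα : α ≠ 0) :
    ((q₂ : ℂ) * (I * α)).arg = if 0 < α then Real.pi / 2 else -(Real.pi / 2) := by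
  rw [Complex.arg_real_mul _ hq]
  split_ifs with h
  · rw [mul_comm, Complex.arg_real_mul _ h, Complex.arg_I]
  · have h' : 0 < -α := by
      have : α < 0 := lt_of_le_of_ne (not_lt.1 h) hα
      linarith
    have e : (I * α : ℂ) = ((-α : ℝ) : ℂ) * (-I) := by push_cast; ring
    rw [e, Complex.arg_real_mul _ h', Complex.arg_neg_I]

theorem psi_tk {q₂ α : ℝ} (hq : 0 < q₂) (hα : α ≠ 0) : ∃ A : ℝ, 0 ≤ A ∧ ∀ t : ℝ,
    ‖tan (Real.pi * ln t / 2) - (if 0 < α then I else -I)‖ * ‖((q₂ : ℂ) * (I * α)) ^ (-ln t)‖ ≤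
      A * Real.exp (-(Real.pi * |t| / 2)) := by
  obtain ⟨C, hC, hT⟩ := tan_bound
  have hne : (q₂ : ℂ) * (I * α) ≠ 0 := by
    simp only [ne_eq, mul_eq_zero, ofReal_eq_zero, I_ne_zero, false_or, not_or]
    exact ⟨hq.ne', hα⟩
  refine ⟨C * ‖(q₂ : ℂ) * (I * α)‖ ^ (1 / 2 : ℝ), by positivity, fun t => ?_⟩
  have e1 : ‖((q₂ : ℂ) * (I * α)) ^ (-ln t)‖ =
      ‖(q₂ : ℂ) * (I * α)‖ ^ (1 / 2 : ℝ) * Real.exp (((q₂ : ℂ) * (I * α)).arg * t) := by
    rw [Complex.norm_cpow_of_ne_zero hne, neg_re, psi_ln_re, neg_im, psi_ln_im, neg_neg, div_eq_mul_inv, ← Real.exp_neg]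
    congr 2
    ring
  rw [e1, psi_arg hq hα]
  split_ifs with h
  · calc ‖tan (Real.pi * ln t / 2) - I‖ * (‖(q₂ : ℂ) * (I * α)‖ ^ (1 / 2 : ℝ) * Real.exp (Real.pi / 2 * t))
        ≤ (C * Real.exp (-(Real.pi * (t + |t|) / 2))) *
          (‖(q₂ : ℂ) * (I * α)‖ ^ (1 / 2 : ℝ) * Real.exp (Real.pi / 2 * t)) :=
          mul_le_mul_of_nonneg_right (hT t).1 (by positivity)
      _ = C * ‖(q₂ : ℂ) * (I * α)‖ ^ (1 / 2 : ℝ) *
          (Real.exp (-(Real.pi * (t + |t|) / 2)) * Real.exp (Real.pi / 2 * t)) := by ring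
      _ = _ := by
          rw [← Real.exp_add]
          congr 2
          ring
  · rw [sub_neg_eq_add]
    calc ‖tan (Real.pi * ln t / 2) + I‖ * (‖(q₂ : ℂ) * (I * α)‖ ^ (1 / 2 : ℝ) * Real.exp (-(Real.pi / 2) * t))
        ≤ (C * Real.exp (-(Real.pi * (|t| - t) / 2))) *
          (‖(q₂ : ℂ) * (I * α)‖ ^ (1 / 2 : ℝ) * Real.exp (-(Real.pi / 2) * t)) :=
          mul_le_mul_of_nonneg_right (hT t).2 (by positivity)
      _ = C * ‖(q₂ : ℂ) * (I * α)‖ ^ (1 / 2 : ℝ) *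
          (Real.exp (-(Real.pi * (|t| - t) / 2)) * Real.exp (-(Real.pi / 2) * t)) := by ring
      _ = _ := by
          rw [← Real.exp_add]
          congr 2
          ring

theorem psi_shift {q₂ α : ℝ} (hq : 0 < q₂) (hα : α ≠ 0) {w : ℂ} (hw : ‖w‖ < |α| / 8) (s : ℂ) :
    ((q₂ : ℂ) * (I * α + w)) ^ (-s) = ((q₂ : ℂ) * (I * α)) ^ (-s) * exp (-s * log (1 + w / (I * α))) := by
  have hne : (q₂ : ℂ) * (I * α) ≠ 0 := by
    simp only [ne_eq, mul_eq_zero, ofReal_eq_zero, I_ne_zero, false_or, not_or]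
    exact ⟨hq.ne', hα⟩
  have hIα : (I * α : ℂ) ≠ 0 := by
    simp only [ne_eq, mul_eq_zero, ofReal_eq_zero, I_ne_zero, false_or]
    exact hα
  have hv : ‖w / (I * α)‖ < 1 / 8 := by
    rw [norm_div, norm_mul, norm_I, one_mul, norm_real, Real.norm_eq_abs, div_lt_iff₀ (abs_pos.2 hα)]
    linarith
  have hre : 0 < (1 + w / (I * α)).re := by
    rw [add_re, one_re]
    have := (Complex.abs_re_le_norm (w / (I * α)))
    have h2 := neg_abs_le (w / (I * α)).re
    linarith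
  have hne1 : (1 + w / (I * α)) ≠ 0 := by
    intro h
    rw [h] at hre
    simp at hre
  have harg := Complex.abs_arg_lt_pi_div_two_iff.2 (Or.inl hre)
  have e : (q₂ : ℂ) * (I * α + w) = ((q₂ : ℂ) * (I * α)) * (1 + w / (I * α)) := by
    rw [mul_assoc, mul_add (I * (α : ℂ)), mul_one, mul_div_cancel₀ _ hIα]
  have hne2 : (q₂ : ℂ) * (I * α + w) ≠ 0 := by
    rw [e]; exact mul_ne_zero hne hne1
  rw [Complex.cpow_def_of_ne_zero hne2, Complex.cpow_def_of_ne_zero hne, ← Complex.exp_add, e, Complex.log_mul hne hne1]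
  · congr 1
    ring
  · rw [psi_arg hq hα]
    have h1 := abs_lt.1 harg
    split_ifs
    · constructor <;> linarith [Real.pi_pos]
    · constructor <;> linarith [Real.pi_pos]

theorem psi_dom (t : ℝ) : (1 + |t|) * (1 + |t|) * Real.exp (-(Real.pi * |t|)) * Real.exp ((1 + |t|) * (3 / 16)) ≤
    8 * (1 + t ^ 2)⁻¹ := by
  have h0 := abs_nonneg t
  have h1 := Real.quadratic_le_exp_of_nonneg h0
  have hsq : |t| ^ 2 = t ^ 2 := sq_abs t
  have h2 : (1 + |t|) * (1 + |t|) ≤ 2 * Real.exp |t| := by nlinarith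
  have h3 : 1 + t ^ 2 ≤ 2 * Real.exp |t| := by nlinarith
  have h4 : (1 + |t|) * (1 + |t|) * Real.exp (-(Real.pi * |t|)) * Real.exp ((1 + |t|) * (3 / 16)) ≤
      2 * Real.exp |t| * Real.exp (-(Real.pi * |t|)) * Real.exp ((1 + |t|) * (3 / 16)) := by gcongr
  have h5 : 2 * Real.exp |t| * Real.exp (-(Real.pi * |t|)) * Real.exp ((1 + |t|) * (3 / 16)) =
      2 * Real.exp (|t| - Real.pi * |t| + (1 + |t|) * (3 / 16)) := by
    rw [Real.exp_add, sub_eq_add_neg, Real.exp_add]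
    ring
  have h6 : Real.exp (|t| - Real.pi * |t| + (1 + |t|) * (3 / 16)) ≤ Real.exp (3 / 16) * Real.exp (-|t|) := by
    rw [← Real.exp_add]
    apply Real.exp_le_exp.2
    nlinarith [Real.pi_gt_three]
  have h7 : Real.exp (3 / 16) ≤ 2 := by
    have h8 : Real.exp (3 / 16) ≤ Real.exp (Real.log 2) := by
      apply Real.exp_le_exp.2
      have := Real.log_two_gt_d9
      linarith
    rwa [Real.exp_log (by norm_num)] at h8
  have h9 : Real.exp (-|t|) ≤ 2 * (1 + t ^ 2)⁻¹ := by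
    rw [Real.exp_neg, ← div_eq_mul_inv, inv_le_comm₀ (Real.exp_pos _) (by positivity), inv_div, div_le_iff₀ (by norm_num)]
    linarith
  have h10 : Real.exp (3 / 16) * Real.exp (-|t|) ≤ 2 * (2 * (1 + t ^ 2)⁻¹) :=
    mul_le_mul h7 h9 (Real.exp_pos _).le (by norm_num)
  rw [h5] at h4
  linarith

theorem psi_meas {σ : ℕ → ℂ} (hσ : ∀ s : ℂ, 1 < s.re → LSeriesSummable σ s) (τ : ℝ) {u : ℂ} (hu : u ≠ 0) (J : ℂ) :
    Measurable (fun t : ℝ => (2 * Real.pi : ℂ) ^ (-(1 - ln t + I * τ)) * Gamma (1 - ln t + I * τ) *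
        (tan (Real.pi * ln t / 2) - J) * u ^ (-ln t) * LSeries σ (1 - ln t)) := by
  have hc : Continuous fun t : ℝ => 1 - ln t + I * τ := (continuous_const.sub psi_ln_cont).add continuous_const
  have h1 : Continuous fun t : ℝ => (2 * Real.pi : ℂ) ^ (-(1 - ln t + I * τ)) :=
    hc.neg.const_cpow (Or.inl (by simp [Real.pi_ne_zero]))
  have h2 : Continuous fun t : ℝ => Gamma (1 - ln t + I * τ) := by
    rw [continuous_iff_continuousAt]
    intro t
    have hd : DifferentiableAt ℂ Gamma (1 - ln t + I * τ) := by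
      apply Complex.differentiableAt_Gamma
      intro m h
      have := congrArg Complex.re h
      have h3 : (1 - ln t + I * τ).re = 3 / 2 := by simp [ln]; norm_num
      rw [h3] at this
      simp at this
      have hm : (0 : ℝ) ≤ m := Nat.cast_nonneg m
      linarith
    exact ContinuousAt.comp (f := fun t : ℝ => 1 - ln t + I * τ) (g := Gamma) hd.continuousAt hc.continuousAt
  have h3 : Measurable fun t : ℝ => tan (Real.pi * ln t / 2) - J := by
    have h4 : Measurable fun t : ℝ => (Real.pi * ln t / 2 : ℂ) :=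
      ((continuous_const.mul psi_ln_cont).div_const 2).measurable
    have h5 : (fun t : ℝ => tan (Real.pi * ln t / 2) - J) =
        fun t : ℝ => sin (Real.pi * ln t / 2) / cos (Real.pi * ln t / 2) - J := by
      funext t
      rw [Complex.tan_eq_sin_div_cos]
    rw [h5]
    exact ((Complex.measurable_sin.comp h4).div (Complex.measurable_cos.comp h4)).sub_const J
  have h4 : Continuous fun t : ℝ => u ^ (-ln t) := psi_ln_cont.neg.const_cpow (Or.inl hu)
  exact (((h1.measurable.mul h2.measurable).mul h3).mul h4.measurable).mul (psi_L_cont hσ).measurable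

theorem psi_lip {σ : ℕ → ℂ} (hσ : ∀ s : ℂ, 1 < s.re → LSeriesSummable σ s) (τ : ℝ) {q₂ : ℝ} (hq : 0 < q₂) {α : ℝ}
    (hα : α ≠ 0) :
    ∃ (c₀ : ℂ) (C r : ℝ), 0 < r ∧ ∀ w : ℂ, 0 < w.re → ‖w‖ < r →
      MeasureTheory.Integrable (fun t : ℝ => (2 * Real.pi : ℂ) ^ (-(1 - ln t + I * τ)) * Gamma (1 - ln t + I * τ) *
        (tan (Real.pi * ln t / 2) - (if 0 < α then I else -I)) * ((q₂ : ℂ) * (I * α + w)) ^ (-ln t) *
        LSeries σ (1 - ln t)) ∧
      ‖(∫ t : ℝ, (2 * Real.pi : ℂ) ^ (-(1 - ln t + I * τ)) * Gamma (1 - ln t + I * τ) *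
        (tan (Real.pi * ln t / 2) - (if 0 < α then I else -I)) * ((q₂ : ℂ) * (I * α + w)) ^ (-ln t) *
        LSeries σ (1 - ln t)) - c₀‖ ≤ C * ‖w‖ := by
  obtain ⟨M, hM0, hM⟩ := psi_L_bound hσ
  obtain ⟨A, hA0, hA⟩ := psi_gam τ
  obtain ⟨B, hB0, hB⟩ := psi_tk hq hα
  have hpos : 0 < |α| := abs_pos.2 hα
  -- the integrand at `w = 0`
  set g : ℝ → ℂ := fun t => (2 * Real.pi : ℂ) ^ (-(1 - ln t + I * τ)) * Gamma (1 - ln t + I * τ) *
        (tan (Real.pi * ln t / 2) - (if 0 < α then I else -I)) * ((q₂ : ℂ) * (I * α)) ^ (-ln t) *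
        LSeries σ (1 - ln t) with hg
  have hgb : ∀ t, ‖g t‖ ≤ A * B * M * ((1 + |t|) * Real.exp (-(Real.pi * |t|))) := by
    intro t
    have e : g t = ((2 * Real.pi : ℂ) ^ (-(1 - ln t + I * τ)) * Gamma (1 - ln t + I * τ)) *
        ((tan (Real.pi * ln t / 2) - (if 0 < α then I else -I)) * ((q₂ : ℂ) * (I * α)) ^ (-ln t)) *
        LSeries σ (1 - ln t) := by rw [hg]; ring
    rw [e, norm_mul, norm_mul]
    have h1 := hA t
    have h2 := hB t
    rw [← norm_mul] at h2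
    have h3 := hM t
    calc _ ≤ (A * (1 + |t|) * Real.exp (-(Real.pi * |t| / 2))) * (B * Real.exp (-(Real.pi * |t| / 2))) * M := by
          refine mul_le_mul (mul_le_mul h1 h2 (norm_nonneg _) (by positivity)) h3 (norm_nonneg _) (by positivity)
      _ = A * B * M * ((1 + |t|) * (Real.exp (-(Real.pi * |t| / 2)) * Real.exp (-(Real.pi * |t| / 2)))) := by ring
      _ = _ := by
          rw [← Real.exp_add]
          congr 3
          ring_nf
  have hne0 : (q₂ : ℂ) * (I * α) ≠ 0 := by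
    simp only [ne_eq, mul_eq_zero, ofReal_eq_zero, I_ne_zero, false_or, not_or]
    exact ⟨hq.ne', hα⟩
  have hgm : Measurable g := psi_meas hσ τ hne0 _
  have hdom : MeasureTheory.Integrable (fun t : ℝ => A * B * M * (8 * (1 + t ^ 2)⁻¹)) :=
    (integrable_inv_one_add_sq.const_mul 8).const_mul (A * B * M)
  have hABM : 0 ≤ A * B * M := by positivity
  have hgi : MeasureTheory.Integrable g := by
    refine MeasureTheory.Integrable.mono' hdom hgm.aestronglyMeasurable (Filter.Eventually.of_forall fun t => ?_)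
    refine (hgb t).trans (mul_le_mul_of_nonneg_left ?_ hABM)
    refine le_trans ?_ (psi_dom t)
    have h0 := abs_nonneg t
    have h1 : 1 ≤ Real.exp ((1 + |t|) * (3 / 16)) := Real.one_le_exp (by positivity)
    have h2 : (1 + |t|) * Real.exp (-(Real.pi * |t|)) ≤ (1 + |t|) * (1 + |t|) * Real.exp (-(Real.pi * |t|)) := by
      refine mul_le_mul_of_nonneg_right ?_ (Real.exp_pos _).le
      nlinarith
    exact h2.trans (le_mul_of_one_le_right (by positivity) h1)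
  refine ⟨∫ t, g t, A * B * M * (3 / 2 / |α|) * ∫ t : ℝ, 8 * (1 + t ^ 2)⁻¹, |α| / 8, by positivity, fun w hw0 hw => ?_⟩
  -- the integrand
  set G : ℝ → ℂ := fun t => (2 * Real.pi : ℂ) ^ (-(1 - ln t + I * τ)) * Gamma (1 - ln t + I * τ) *
        (tan (Real.pi * ln t / 2) - (if 0 < α then I else -I)) * ((q₂ : ℂ) * (I * α + w)) ^ (-ln t) *
        LSeries σ (1 - ln t) with hG
  have hGg : ∀ t, G t = g t * exp (-ln t * log (1 + w / (I * α))) := by
    intro t
    rw [hG, hg]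
    simp only
    rw [psi_shift hq hα hw (ln t)]
    ring
  have hv : ‖w / (I * α)‖ = ‖w‖ / |α| := by
    rw [norm_div, norm_mul, norm_I, one_mul, norm_real, Real.norm_eq_abs]
  have hv8 : ‖w / (I * α)‖ ≤ 1 / 8 := by
    rw [hv, div_le_iff₀ hpos]; linarith
  have hlog : ‖log (1 + w / (I * α))‖ ≤ 3 / 2 * (‖w‖ / |α|) := by
    have := Complex.norm_log_one_add_half_le_self (hv8.trans (by norm_num))
    rwa [hv] at this
  have hlog2 : ‖log (1 + w / (I * α))‖ ≤ 3 / 16 := by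
    refine hlog.trans ?_
    rw [← hv]
    linarith
  have hx : ∀ t, ‖-ln t * log (1 + w / (I * α))‖ ≤ (1 + |t|) * (3 / 2 * (‖w‖ / |α|)) := by
    intro t
    rw [norm_mul, norm_neg]
    exact mul_le_mul (psi_ln_norm t) hlog (norm_nonneg _) (by positivity)
  have hx2 : ∀ t, ‖-ln t * log (1 + w / (I * α))‖ ≤ (1 + |t|) * (3 / 16) := by
    intro t
    rw [norm_mul, norm_neg]
    exact mul_le_mul (psi_ln_norm t) hlog2 (norm_nonneg _) (by positivity)
  have hE : ∀ t, ‖exp (-ln t * log (1 + w / (I * α))) - 1‖ ≤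
      (1 + |t|) * (3 / 2 * (‖w‖ / |α|)) * Real.exp ((1 + |t|) * (3 / 16)) := by
    intro t
    have := Complex.norm_exp_sub_sum_le_norm_mul_exp (-ln t * log (1 + w / (I * α))) 1
    simp only [Finset.range_one, Finset.sum_singleton, pow_zero, Nat.factorial_zero, Nat.cast_one, div_one, pow_one] at this
    refine this.trans (mul_le_mul (hx t) (Real.exp_le_exp.2 (hx2 t)) (Real.exp_pos _).le (by positivity))
  have hwne : (q₂ : ℂ) * (I * α + w) ≠ 0 := by
    intro h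
    rcases mul_eq_zero.1 h with h | h
    · exact hq.ne' (by exact_mod_cast h)
    · have := congrArg Complex.re h
      simp at this
      linarith
  have hGm : Measurable G := psi_meas hσ τ hwne _
  have hdiff : ∀ t, ‖G t - g t‖ ≤ A * B * M * (3 / 2 / |α|) * ‖w‖ * (8 * (1 + t ^ 2)⁻¹) := by
    intro t
    have e : G t - g t = g t * (exp (-ln t * log (1 + w / (I * α))) - 1) := by rw [hGg]; ring
    rw [e, norm_mul]
    calc ‖g t‖ * ‖exp (-ln t * log (1 + w / (I * α))) - 1‖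
        ≤ (A * B * M * ((1 + |t|) * Real.exp (-(Real.pi * |t|)))) *
          ((1 + |t|) * (3 / 2 * (‖w‖ / |α|)) * Real.exp ((1 + |t|) * (3 / 16))) :=
          mul_le_mul (hgb t) (hE t) (norm_nonneg _) (by positivity)
      _ = A * B * M * (3 / 2 / |α|) * ‖w‖ *
          ((1 + |t|) * (1 + |t|) * Real.exp (-(Real.pi * |t|)) * Real.exp ((1 + |t|) * (3 / 16))) := by ring
      _ ≤ _ := mul_le_mul_of_nonneg_left (psi_dom t) (by positivity)
  have hdi : MeasureTheory.Integrable (fun t => G t - g t) := by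
    refine MeasureTheory.Integrable.mono' ((integrable_inv_one_add_sq.const_mul 8).const_mul
      (A * B * M * (3 / 2 / |α|) * ‖w‖)) (hGm.sub hgm).aestronglyMeasurable (Filter.Eventually.of_forall hdiff)
  have hGi : MeasureTheory.Integrable G := by
    have := hdi.add hgi
    refine this.congr (Filter.Eventually.of_forall fun t => ?_)
    simp
  refine ⟨hGi, ?_⟩
  have h1 : (∫ t, G t) - ∫ t, g t = ∫ t, (G t - g t) := (MeasureTheory.integral_sub hGi hgi).symm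
  rw [h1]
  refine (MeasureTheory.norm_integral_le_of_norm_le ((integrable_inv_one_add_sq.const_mul 8).const_mul
      (A * B * M * (3 / 2 / |α|) * ‖w‖)) (Filter.Eventually.of_forall hdiff)).trans (le_of_eq ?_)
  rw [MeasureTheory.integral_const_mul]
  ring

end Pool.Agent.Helper25.BC
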