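import Pool.Agent.Helper25.BC.Defs
import Pool.Agent.Helper25.BC.Kernel
import Pool.Agent.Helper25.BC.Inv
import Pool.Agent.Helper25.BC.Main
import Pool.Agent.Helper25.BC.Psi

/-!
Block BC-T (MP_bd232a_nt, part C). Transfer of the cusp property.
PROOF. For `Re z > 0` and `s = ln t`: `Γ(s)(2πz)^{-s} B(s) = C (2π)^{-(1-s+iτ)} Γ(1-s+iτ) Rk τ s (q₂z)^{-s} L(σ, 1-s)` (`h.fe`, `kernel`; `(2πz)^{-s} q₂^{-s} = (2π)^{-s} (q₂ z)^{-s}` since `2π, q₂ > 0`).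
With `Rk_up` (`α > 0`) or `Rk_dn` (`α < 0`), `f_eq`, `main_part`, `psi_lip` at `z = iα + w`:
`f(iα+w) = B(0) + C κ (q₂z)^{-(1+iτ)} g(1/(q₂z)) + (1/2π) C cosh(πτ/2) ψ(w)`, `κ = i e^{-πτ/2}` resp. `-i e^{πτ/2}`, `ψ(w) = c₀' + O(|w|)`.
`1/(q₂(iα+w)) = i(-1/(q₂α)) + w'`, `w' = w/(q₂(α² - iαw))`; for `|Im w| ≤ K Re w`, `|w|` small: `Re w' > 0`, `|Im w'| ≤ (2K+1) Re w'`, `|w'| ≤ 2|w|/(q₂α²)` (say); `(q₂z)^{-(1+iτ)}` is
differentiable at `iα ≠ 0` (not on the negative real axis): `= (q₂ iα)^{-(1+iτ)} + O(|w|)`. So the limit exists with error `O(|w|^{1/2})` (`|w| ≤ |w|^{1/2}` for `|w| ≤ 1`).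
-/

open Complex

namespace Pool.Agent.Helper25.BC

open Pool.Agent.Helper19.BD

theorem tr_mul {r : ℝ} (hr : 0 < r) {z : ℂ} (hz : z ≠ 0) (s : ℂ) :
    ((r : ℂ) * z) ^ s = (r : ℂ) ^ s * z ^ s := by
  have hrC : (r : ℂ) ≠ 0 := by exact_mod_cast hr.ne'
  rw [cpow_def_of_ne_zero (mul_ne_zero hrC hz), cpow_def_of_ne_zero hrC, cpow_def_of_ne_zero hz, ← exp_add,
    log_ofReal_mul hr hz, ofReal_log hr.le]
  congr 1; ring

/-- The constant in the main term. -/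
noncomputable def kap (τ α : ℝ) : ℂ :=
  if 0 < α then I * (Real.exp (-(Real.pi * τ / 2)) : ℂ) else -I * (Real.exp (Real.pi * τ / 2) : ℂ)

theorem tr_Rk (τ α : ℝ) (s : ℂ) : Rk τ s = kap τ α +
    (Real.cosh (Real.pi * τ / 2) : ℂ) * (tan (Real.pi * s / 2) - (if 0 < α then I else -I)) := by
  unfold kap
  split_ifs
  · exact Rk_up τ s
  · rw [sub_neg_eq_add]; exact Rk_dn τ s

theorem tr_int {τ q₂ : ℝ} {β σ : ℕ → ℂ} {B : ℂ → ℂ} {C : ℂ} (h : Dual τ q₂ β σ B C) (α : ℝ) {z : ℂ}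
    (hz : 0 < z.re) (t : ℝ) :
    Gamma (ln t) * (2 * Real.pi * z) ^ (-ln t) * B (ln t) =
      (C * kap τ α) * ((2 * Real.pi : ℂ) ^ (-(1 - ln t + I * τ)) * Gamma (1 - ln t + I * τ) *
        ((q₂ : ℂ) * z) ^ (-ln t) * LSeries σ (1 - ln t)) +
      (C * (Real.cosh (Real.pi * τ / 2) : ℂ)) *
        ((2 * Real.pi : ℂ) ^ (-(1 - ln t + I * τ)) * Gamma (1 - ln t + I * τ) *
        (tan (Real.pi * ln t / 2) - (if 0 < α then I else -I)) * ((q₂ : ℂ) * z) ^ (-ln t) *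
        LSeries σ (1 - ln t)) := by
  have hz0 : z ≠ 0 := by
    intro h; rw [h] at hz; simp at hz
  have hre := psi_ln_re t
  have hk := kernel τ hre
  have hR := tr_Rk τ α (ln t)
  have h1 : (2 * Real.pi * z : ℂ) ^ (-ln t) = (2 * Real.pi : ℂ) ^ (-ln t) * z ^ (-ln t) := by
    have := tr_mul (r := 2 * Real.pi) (by positivity) hz0 (-ln t)
    push_cast at this
    exact this
  have h2 : ((q₂ : ℂ) * z) ^ (-ln t) = (q₂ : ℂ) ^ (-ln t) * z ^ (-ln t) := tr_mul h.q_pos hz0 _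
  rw [h.fe _ hre, h1, h2]
  calc Gamma (ln t) * ((2 * Real.pi : ℂ) ^ (-ln t) * z ^ (-ln t)) *
        (C * (q₂ : ℂ) ^ (-ln t) * gam τ (ln t) * LSeries σ (1 - ln t))
      = (Gamma (ln t) * (2 * Real.pi : ℂ) ^ (-ln t) * gam τ (ln t)) *
        (C * ((q₂ : ℂ) ^ (-ln t) * z ^ (-ln t)) * LSeries σ (1 - ln t)) := by ring
    _ = _ := by
        rw [hk, hR]
        ring

theorem tr_f {τ q₂ : ℝ} {β σ : ℕ → ℂ} {B : ℂ → ℂ} {C : ℂ} (h : Dual τ q₂ β σ B C) (α : ℝ) {z : ℂ}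
    (hz : 0 < z.re)
    (hint : MeasureTheory.Integrable (fun t : ℝ => (2 * Real.pi : ℂ) ^ (-(1 - ln t + I * τ)) *
        Gamma (1 - ln t + I * τ) *
        (tan (Real.pi * ln t / 2) - (if 0 < α then I else -I)) * ((q₂ : ℂ) * z) ^ (-ln t) *
        LSeries σ (1 - ln t))) :
    fB β z = B 0 + (C * kap τ α) * (((q₂ : ℂ) * z) ^ (-(1 + I * τ)) *
        fB (fun n => σ n * npow n τ) (1 / ((q₂ : ℂ) * z))) +
      (1 / (2 * Real.pi : ℂ) * (C * (Real.cosh (Real.pi * τ / 2) : ℂ))) *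
      ∫ t : ℝ, (2 * Real.pi : ℂ) ^ (-(1 - ln t + I * τ)) *
        Gamma (1 - ln t + I * τ) *
        (tan (Real.pi * ln t / 2) - (if 0 < α then I else -I)) * ((q₂ : ℂ) * z) ^ (-ln t) *
        LSeries σ (1 - ln t) := by
  obtain ⟨_, h1⟩ := f_eq h hz
  obtain ⟨h2, h3⟩ := main_part h.sumσ τ h.q_pos hz
  rw [h1, ← h3]
  have h4 := MeasureTheory.integral_congr_ae (μ := MeasureTheory.volume)
    (Filter.Eventually.of_forall (tr_int h α hz))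
  rw [h4, MeasureTheory.integral_add (h2.const_mul _) (hint.const_mul _),
    MeasureTheory.integral_const_mul, MeasureTheory.integral_const_mul]
  ring

theorem tr_inv {q₂ α : ℝ} (hq : 0 < q₂) (hα : α ≠ 0) {w : ℂ} (hw : 0 < w.re) :
    1 / ((q₂ : ℂ) * (I * α + w)) = I * ((-1 / (q₂ * α) : ℝ) : ℂ) +
      ((1 / (q₂ * α ^ 2) : ℝ) : ℂ) * w * (1 - I * w / α)⁻¹ := by
  have hqC : (q₂ : ℂ) ≠ 0 := by exact_mod_cast hq.ne'
  have hαC : (α : ℂ) ≠ 0 := by exact_mod_cast hα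
  have hz : (I * α + w : ℂ) ≠ 0 := by
    intro h
    have := congrArg Complex.re h
    simp at this
    linarith
  have hu : (1 - I * w / α : ℂ) ≠ 0 := by
    intro h
    apply hz
    have h2 : (I * α + w : ℂ) = I * α * (1 - I * w / α) := by
      field_simp
      ring_nf
      rw [I_sq]; ring
    rw [h2, h, mul_zero]
  have hu2 : ((α : ℂ) - I * w) ≠ 0 := by
    intro h
    apply hu
    rw [← mul_div_cancel_left₀ (1 - I * w / α) hαC, mul_sub, mul_one, mul_div_cancel₀ _ hαC, h, zero_div]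
  have e1 : (I * α + w : ℂ) = I * (α - I * w) := by
    ring_nf; rw [I_sq]; ring
  have e2 : (1 - I * w / α : ℂ) = (α - I * w) / α := by
    field_simp
  rw [e1, e2]
  push_cast
  have hI : (I : ℂ)⁻¹ = -I := Complex.inv_I
  have h3 : (I : ℂ) ^ 3 = -I := by rw [pow_succ, I_sq]; ring
  field_simp
  ring_nf
  simp only [I_sq, h3]
  ring

/-- The point `w'` stays in a sector. -/
theorem tr_sector {q₂ α K : ℝ} (hq : 0 < q₂) (hα : α ≠ 0) {w : ℂ} (hw : 0 < w.re) (hK : |w.im| ≤ K * w.re)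
    (hs : ‖w‖ ≤ |α| / (12 * (1 + |K|))) :
    0 < (((1 / (q₂ * α ^ 2) : ℝ) : ℂ) * w * (1 - I * w / α)⁻¹).re ∧
    |(((1 / (q₂ * α ^ 2) : ℝ) : ℂ) * w * (1 - I * w / α)⁻¹).im| ≤
      (2 * |K| + 1) * (((1 / (q₂ * α ^ 2) : ℝ) : ℂ) * w * (1 - I * w / α)⁻¹).re ∧
    ‖((1 / (q₂ * α ^ 2) : ℝ) : ℂ) * w * (1 - I * w / α)⁻¹‖ ≤ 2 / (q₂ * α ^ 2) * ‖w‖ := by
  have hpos : 0 < |α| := abs_pos.2 hα
  have hα2 : 0 < α ^ 2 := by positivity
  have hK0 := abs_nonneg K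
  set a : ℝ := 1 / (q₂ * α ^ 2) with ha
  have ha0 : 0 < a := by positivity
  have hn : ‖I * w / α‖ = ‖w‖ / |α| := by
    rw [norm_div, norm_mul, norm_I, one_mul, norm_real, Real.norm_eq_abs]
  have h1 : ‖I * w / α‖ ≤ 1 / (12 * (1 + |K|)) := by
    rw [hn, div_le_iff₀ hpos]
    refine hs.trans (le_of_eq ?_)
    field_simp
  have h1' : ‖I * w / α‖ ≤ 1 / 12 := by
    refine h1.trans ?_
    apply one_div_le_one_div_of_le (by norm_num)
    linarith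
  set u : ℂ := 1 - I * w / α with hu
  have hun : 11 / 12 ≤ ‖u‖ := by
    have := norm_sub_norm_le (1 : ℂ) (I * w / α)
    rw [norm_one] at this
    rw [hu]
    linarith
  have hu0 : u ≠ 0 := by
    intro h
    rw [h, norm_zero] at hun
    norm_num at hun
  set δ : ℂ := u⁻¹ - 1 with hδ
  have hδn : ‖δ‖ ≤ 1 / (6 * (1 + |K|)) := by
    have e : δ = (I * w / α) / u := by
      rw [hδ, hu]
      rw [hu] at hu0
      field_simp
      ring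
    rw [e, norm_div, div_le_iff₀ (by linarith)]
    have h3 : 1 / (6 * (1 + |K|)) = 2 * (1 / (12 * (1 + |K|))) := by field_simp; norm_num
    rw [h3]
    have h4 : 0 < 1 / (12 * (1 + |K|)) := by positivity
    nlinarith
  have hinv : u⁻¹ = 1 + δ := by rw [hδ]; ring
  have hwn : ‖w‖ ≤ (1 + |K|) * w.re := by
    have h2 := Complex.norm_le_abs_re_add_abs_im w
    rw [abs_of_pos hw] at h2
    have h3 : |w.im| ≤ |K| * w.re := hK.trans (mul_le_mul_of_nonneg_right (le_abs_self K) hw.le)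
    linarith
  have hwδ : ‖w * δ‖ ≤ w.re / 6 := by
    rw [norm_mul]
    calc ‖w‖ * ‖δ‖ ≤ ((1 + |K|) * w.re) * (1 / (6 * (1 + |K|))) :=
          mul_le_mul hwn hδn (norm_nonneg _) (by positivity)
      _ = w.re / 6 := by field_simp
  have e1 : (a : ℂ) * w * u⁻¹ = (a : ℂ) * (w + w * δ) := by rw [hinv]; ring
  have hre : ((a : ℂ) * w * u⁻¹).re = a * (w.re + (w * δ).re) := by
    rw [e1, re_ofReal_mul, add_re]
  have him : ((a : ℂ) * w * u⁻¹).im = a * (w.im + (w * δ).im) := by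
    rw [e1, im_ofReal_mul, add_im]
  have hr1 := (Complex.abs_re_le_norm (w * δ)).trans hwδ
  have hi1 := (Complex.abs_im_le_norm (w * δ)).trans hwδ
  have hr2 := (abs_le.1 hr1).1
  refine ⟨?_, ?_, ?_⟩
  · rw [hre]
    apply mul_pos ha0
    linarith
  · rw [hre, him, abs_mul, abs_of_pos ha0]
    have h5 : |w.im + (w * δ).im| ≤ |K| * w.re + w.re / 6 := by
      refine (abs_add_le _ _).trans (add_le_add ?_ hi1)
      exact hK.trans (mul_le_mul_of_nonneg_right (le_abs_self K) hw.le)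
    have h6 : |K| * w.re + w.re / 6 ≤ (2 * |K| + 1) * (w.re + (w * δ).re) := by
      have h7 : 5 / 6 * w.re ≤ w.re + (w * δ).re := by linarith
      have h8 := mul_le_mul_of_nonneg_left h7 (by positivity : 0 ≤ 2 * |K| + 1)
      nlinarith [mul_nonneg hK0 hw.le]
    calc a * |w.im + (w * δ).im| ≤ a * ((2 * |K| + 1) * (w.re + (w * δ).re)) :=
          mul_le_mul_of_nonneg_left (h5.trans h6) ha0.le
      _ = _ := by ring
  · rw [norm_mul, norm_mul, norm_real, Real.norm_eq_abs, abs_of_pos ha0, norm_inv]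
    have h9 : ‖u‖⁻¹ ≤ 2 := by
      rw [inv_le_comm₀ (by linarith) (by norm_num)]
      linarith
    calc a * ‖w‖ * ‖u‖⁻¹ ≤ a * ‖w‖ * 2 := mul_le_mul_of_nonneg_left h9 (by positivity)
      _ = 2 / (q₂ * α ^ 2) * ‖w‖ := by rw [ha]; ring

/-- The power is Lipschitz at `iα`. -/
theorem tr_pow {q₂ α : ℝ} (hq : 0 < q₂) (hα : α ≠ 0) (s : ℂ) : ∃ A r : ℝ, 0 ≤ A ∧ 0 < r ∧ ∀ w : ℂ, ‖w‖ < r →
    ‖((q₂ : ℂ) * (I * α + w)) ^ s - ((q₂ : ℂ) * (I * α)) ^ s‖ ≤ A * ‖w‖ := by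
  have hd : DifferentiableAt ℂ (fun w : ℂ => ((q₂ : ℂ) * (I * α + w)) ^ s) 0 := by
    apply DifferentiableAt.cpow_const
    · fun_prop
    · right
      simp only [add_zero, mul_im, ofReal_re, I_re, ofReal_im, I_im, mul_re, zero_mul, one_mul, mul_zero, add_zero, zero_add,
        sub_zero]
      exact mul_ne_zero hq.ne' hα
  have hO := hd.isBigO_sub
  obtain ⟨A, hA⟩ := hO.bound
  obtain ⟨r, hr, hb⟩ := Metric.eventually_nhds_iff.1 hA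
  refine ⟨|A|, r, abs_nonneg _, hr, fun w hw => ?_⟩
  have := hb (y := w) (by rwa [dist_zero_right])
  simp only [add_zero, sub_zero] at this
  exact this.trans (mul_le_mul_of_nonneg_right (le_abs_self A) (norm_nonneg _))

theorem cusp_transfer {τ q₂ : ℝ} {β σ : ℕ → ℂ} {B : ℂ → ℂ} {C : ℂ} (h : Dual τ q₂ β σ B C) {α : ℝ} (hα : α ≠ 0)
    (hg : Cusp (fB (fun n => σ n * npow n τ)) (-1 / (q₂ * α))) : Cusp (fB β) α := by
  have hq := h.q_pos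
  obtain ⟨c₁, hc⟩ := hg
  obtain ⟨ψ₀, C₂, r₂, hr₂, hψ⟩ := psi_lip h.sumσ τ hq hα
  obtain ⟨A, r₃, hA0, hr₃, hP⟩ := tr_pow hq hα (-(1 + I * τ))
  set g := fB (fun n => σ n * npow n τ) with hgdef
  set P₀ : ℂ := ((q₂ : ℂ) * (I * α)) ^ (-(1 + I * τ)) with hP₀
  set c : ℂ := 1 / (2 * Real.pi : ℂ) * (C * (Real.cosh (Real.pi * τ / 2) : ℂ)) with hcdef
  refine ⟨B 0 + (C * kap τ α) * (P₀ * c₁) + c * ψ₀, fun K => ?_⟩
  obtain ⟨C₁, r₁, hr₁, hG⟩ := hc (2 * |K| + 1)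
  have hpos : 0 < |α| := abs_pos.2 hα
  have hα2 : 0 < α ^ 2 := by positivity
  have hK0 := abs_nonneg K
  set b : ℝ := 2 / (q₂ * α ^ 2) with hb
  have hb0 : 0 < b := by positivity
  set D : ℝ := |C₁| * Real.sqrt b with hD
  have hD0 : 0 ≤ D := by positivity
  refine ⟨‖C * kap τ α‖ * (A * D + A * ‖c₁‖ + ‖P₀‖ * D) + ‖c‖ * |C₂|,
    min (min r₂ r₃) (min (min (|α| / (12 * (1 + |K|))) (r₁ / b)) 1), by positivity, fun w hw0 hwK hwr => ?_⟩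
  rw [lt_min_iff, lt_min_iff, lt_min_iff, lt_min_iff] at hwr
  obtain ⟨⟨hw2, hw3⟩, ⟨hws, hw1⟩, hw1'⟩ := hwr
  obtain ⟨hi, hψw⟩ := hψ w hw0 hw2
  have hzre : 0 < (I * α + w : ℂ).re := by
    simpa using hw0
  have hf := tr_f h α hzre hi
  rw [hf]
  obtain ⟨s1, s2, s3⟩ := tr_sector hq hα hw0 hwK hws.le
  rw [tr_inv hq hα hw0]
  set w' : ℂ := ((1 / (q₂ * α ^ 2) : ℝ) : ℂ) * w * (1 - I * w / α)⁻¹ with hw'
  have hn' : ‖w'‖ < r₁ := by
    refine s3.trans_lt ?_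
    rw [lt_div_iff₀ hb0] at hw1
    linarith [mul_comm b ‖w‖]
  have hGw := hG w' s1 s2 hn'
  set G : ℂ := g (I * ((-1 / (q₂ * α) : ℝ) : ℂ) + w') with hGdef
  have hPw := hP w hw3
  set P : ℂ := ((q₂ : ℂ) * (I * α + w)) ^ (-(1 + I * τ)) with hPdef
  set Ψ : ℂ := ∫ t : ℝ, (2 * Real.pi : ℂ) ^ (-(1 - ln t + I * τ)) *
        Gamma (1 - ln t + I * τ) *
        (tan (Real.pi * ln t / 2) - (if 0 < α then I else -I)) * ((q₂ : ℂ) * (I * α + w)) ^ (-ln t) *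
        LSeries σ (1 - ln t) with hΨ
  set x : ℝ := Real.sqrt ‖w‖ with hx
  have hx0 : 0 ≤ x := Real.sqrt_nonneg _
  have hx1 : x ≤ 1 := by
    rw [hx]; exact Real.sqrt_le_one.2 hw1'.le
  have hxx : x * x = ‖w‖ := Real.mul_self_sqrt (norm_nonneg _)
  have hwx : ‖w‖ ≤ x := by nlinarith
  have g1 : ‖G - c₁‖ ≤ D * x := by
    refine hGw.trans ?_
    calc C₁ * Real.sqrt ‖w'‖ ≤ |C₁| * Real.sqrt (b * ‖w‖) :=
          mul_le_mul (le_abs_self _) (Real.sqrt_le_sqrt s3) (Real.sqrt_nonneg _) (abs_nonneg _)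
      _ = D * x := by rw [Real.sqrt_mul hb0.le]; ring
  have p1 : ‖P - P₀‖ ≤ A * x := hPw.trans (mul_le_mul_of_nonneg_left hwx hA0)
  have q1 : ‖Ψ - ψ₀‖ ≤ |C₂| * x :=
    hψw.trans (mul_le_mul (le_abs_self _) hwx (norm_nonneg _) (abs_nonneg _))
  have e : B 0 + C * kap τ α * (P * G) + c * Ψ - (B 0 + C * kap τ α * (P₀ * c₁) + c * ψ₀) =
      C * kap τ α * ((P - P₀) * (G - c₁) + (P - P₀) * c₁ + P₀ * (G - c₁)) + c * (Ψ - ψ₀) := by ring
  rw [e]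
  have m1 : ‖(P - P₀) * (G - c₁)‖ ≤ A * D * x := by
    rw [norm_mul]
    calc ‖P - P₀‖ * ‖G - c₁‖ ≤ (A * x) * (D * x) := mul_le_mul p1 g1 (norm_nonneg _) (by positivity)
      _ = A * D * (x * x) := by ring
      _ ≤ A * D * x := mul_le_mul_of_nonneg_left (by nlinarith) (by positivity)
  have m2 : ‖(P - P₀) * c₁‖ ≤ A * ‖c₁‖ * x := by
    rw [norm_mul]
    calc ‖P - P₀‖ * ‖c₁‖ ≤ (A * x) * ‖c₁‖ := mul_le_mul_of_nonneg_right p1 (norm_nonneg _)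
      _ = _ := by ring
  have m3 : ‖P₀ * (G - c₁)‖ ≤ ‖P₀‖ * D * x := by
    rw [norm_mul]
    calc ‖P₀‖ * ‖G - c₁‖ ≤ ‖P₀‖ * (D * x) := mul_le_mul_of_nonneg_left g1 (norm_nonneg _)
      _ = _ := by ring
  have m4 : ‖(P - P₀) * (G - c₁) + (P - P₀) * c₁ + P₀ * (G - c₁)‖ ≤ (A * D + A * ‖c₁‖ + ‖P₀‖ * D) * x := by
    refine (norm_add_le _ _).trans ?_
    have := norm_add_le ((P - P₀) * (G - c₁)) ((P - P₀) * c₁)
    linarith
  refine (norm_add_le _ _).trans ?_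
  rw [norm_mul (C * kap τ α), norm_mul c]
  have m5 := mul_le_mul_of_nonneg_left m4 (norm_nonneg (C * kap τ α))
  have m6 := mul_le_mul_of_nonneg_left q1 (norm_nonneg c)
  calc _ ≤ ‖C * kap τ α‖ * ((A * D + A * ‖c₁‖ + ‖P₀‖ * D) * x) + ‖c‖ * (|C₂| * x) := add_le_add m5 m6
    _ = _ := by ring

end Pool.Agent.Helper25.BC
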