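import Pool.Agent.Helper25.BC.Defs
import Pool.Agent.Helper25.BC.Transfer
import Pool.Agent.Helper25.BC.CuspZero

/-!
Block BC-C (MP_bd232a_nt, part C). The cusp property at `∓1/(q₂ m - 1)`.
PROOF. Let `f = fB β`, `ff = fB βf`, `βf n = conj(β n) n^{iτ}`. `cusp_transfer h1 : Cusp ff (-1/(q₂α)) → Cusp f α`; `cusp_transfer h2 : Cusp f (-1/(q₂α)) → Cusp ff α`
(`β n n^{-iτ} n^{iτ} = β n`, `npow` is an exponential). Both have the property at `0` (`cusp_zero`), at all integers (`cusp_add_int`), hence at `∓1/q₂` (`α = ∓1/q₂`: `-1/(q₂α) = ±1`),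
hence at `k ∓ 1/q₂`, hence at `α = ∓1/(q₂m-1)` (`-1/(q₂α) = ±(m - 1/q₂)`; `m - 1/q₂ ≠ 0`).
-/

open Complex

namespace Pool.Agent.Helper25.BC

open Pool.Agent.Helper19.BD

theorem cusp_chain_aux {τ q₂ : ℝ} {β : ℕ → ℂ} {B Bf : ℂ → ℂ} {C Cf : ℂ}
    (h1 : Dual τ q₂ β (fun n => (starRingEnd ℂ) (β n)) B C)
    (h2 : Dual τ q₂ (fun n => (starRingEnd ℂ) (β n) * npow n τ) (fun n => β n * npow n (-τ)) Bf Cf) (m : ℤ)
    (hm : q₂ * m - 1 ≠ 0) (e : ℤ) (he : e = 1 ∨ e = -1) : Cusp (fB β) ((e : ℝ) / (q₂ * m - 1)) := by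
  have hq : (0 : ℝ) < q₂ := h1.q_pos
  have hq' : q₂ ≠ 0 := hq.ne'
  have he0 : (e : ℝ) ≠ 0 := by rcases he with h | h <;> simp [h]
  have hee : (e : ℝ) * (e : ℝ) = 1 := by rcases he with h | h <;> simp [h]
  have hinv : (e : ℝ)⁻¹ = e := inv_eq_of_mul_eq_one_right hee
  have hβ : (fun n => β n * npow n (-τ) * npow n τ) = β := by
    funext n
    unfold npow
    rw [mul_assoc, ← Complex.exp_add]
    have : ((-τ : ℝ) : ℂ) * I * (Real.log n : ℂ) + (τ : ℂ) * I * (Real.log n : ℂ) = 0 := by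
      push_cast; ring
    rw [this, Complex.exp_zero, mul_one]
  -- at the integer `-e`
  have s1 : Cusp (fB β) ((0 : ℝ) + ((-e : ℤ) : ℝ)) := cusp_add_int β (-e) (cusp_zero h1)
  -- at `e / q₂`
  have s2 : Cusp (fB (fun n => (starRingEnd ℂ) (β n) * npow n τ)) ((e : ℝ) / q₂) := by
    refine cusp_transfer h2 (div_ne_zero he0 hq') ?_
    rw [hβ]
    have : -1 / (q₂ * ((e : ℝ) / q₂)) = (0 : ℝ) + ((-e : ℤ) : ℝ) := by
      rw [mul_div_cancel₀ _ hq', zero_add, div_eq_mul_inv, hinv]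
      push_cast; ring
    rw [this]
    exact s1
  -- at `e / q₂ - e m`
  have s3 := cusp_add_int _ (-(e * m)) s2
  refine cusp_transfer h1 (div_ne_zero he0 hm) ?_
  have : -1 / (q₂ * ((e : ℝ) / (q₂ * m - 1))) = (e : ℝ) / q₂ + ((-(e * m) : ℤ) : ℝ) := by
    have h3 : q₂ * ((e : ℝ) / (q₂ * m - 1)) = (e * q₂) / (q₂ * m - 1) := by ring
    rw [h3, div_div_eq_mul_div, div_eq_iff (mul_ne_zero he0 hq')]
    push_cast
    field_simp
    linear_combination (-(1 : ℝ) + q₂ * m) * hee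
  rw [this]
  exact s3

theorem cusp_chain {τ q₂ : ℝ} {β : ℕ → ℂ} {B Bf : ℂ → ℂ} {C Cf : ℂ}
    (h1 : Dual τ q₂ β (fun n => (starRingEnd ℂ) (β n)) B C)
    (h2 : Dual τ q₂ (fun n => (starRingEnd ℂ) (β n) * npow n τ) (fun n => β n * npow n (-τ)) Bf Cf) (m : ℤ)
    (hm : q₂ * m - 1 ≠ 0) : Cusp (fB β) (-1 / (q₂ * m - 1)) ∧ Cusp (fB β) (1 / (q₂ * m - 1)) := by
  have a := cusp_chain_aux h1 h2 m hm (-1) (Or.inr rfl)
  have b := cusp_chain_aux h1 h2 m hm 1 (Or.inl rfl)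
  push_cast at a b
  exact ⟨a, b⟩

end Pool.Agent.Helper25.BC
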