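import Pool.Agent.Helper25.BC.Defs

/-!
Block BC-9 (MP_bd232a_nt, part C). Analytic continuation of the additive twist. (Lean proof: helper57)
PROOF. `h(x) = (fB β (iα + x) + fB β (-iα + x))/2 = ∑_{n≥1} β(n) cos(2πnα) e^{-2πnx}` for `x > 0` (`β n = O(n²)` from summability at `s = 2`). By `Cusp` (take `K = 0`, `w = x` real): `h(x) = c₀ + O(x^{1/2})` as
`x → 0+`; `h(x) = O(e^{-x})` as `x → ∞`. `M(s) := mellin (fun x => h x - c₀ exp(-2πx)) s` is differentiable for `Re s > -1/2` (`mellin_differentiableAt_of_isBigO_rpow` with `O(x^{1/2})` at `0` and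
rapid decay at `∞`; local integrability from continuity). For `Re s > 1`: `M(s) = Γ(s)(2π)^{-s} (L(s) - c₀)`, `L = LSeries (β cos)` (termwise: `integral_cpow_mul_exp_neg_mul_Ioi`,
`hasSum_integral_of_summable_integral_norm`). `E(s) := c₀ + (2π)^s (Γ(s))⁻¹ M(s)`; `1/Γ` is entire (`Complex.differentiable_one_div_Gamma`).
-/

open Complex

namespace Pool.Agent.Helper25.BC

open Pool.Agent.Helper19.BD

open Set Filter Asymptotics MeasureTheory

/-- The elementary estimate `(n+1)² exp(-2π(n+1)x) ≤ (2/x²) exp(-x)`. -/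
theorem sq_mul_exp_le (n : ℕ) {x : ℝ} (hx : 0 < x) :
    ((n : ℝ) + 1) ^ 2 * Real.exp (-(2 * Real.pi * ((n : ℝ) + 1)) * x) ≤ 2 / x ^ 2 * Real.exp (-x) := by
  have hn : (1 : ℝ) ≤ (n : ℝ) + 1 := by
    have : (0 : ℝ) ≤ n := n.cast_nonneg
    linarith
  set y : ℝ := ((n : ℝ) + 1) * x with hy
  have hy0 : 0 < y := by positivity
  have hyx : x ≤ y := by rw [hy]; nlinarith
  have h1 : y ^ 2 ≤ 2 * Real.exp y := by
    have := Real.quadratic_le_exp_of_nonneg hy0.le
    nlinarith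
  have h2 : -(2 * Real.pi * ((n : ℝ) + 1)) * x = -(2 * Real.pi) * y := by rw [hy]; ring
  have h3 : ((n : ℝ) + 1) ^ 2 = y ^ 2 / x ^ 2 := by
    rw [hy]
    field_simp
  rw [h2, h3, div_mul_eq_mul_div, div_mul_eq_mul_div]
  refine div_le_div_of_nonneg_right ?_ (by positivity)
  calc y ^ 2 * Real.exp (-(2 * Real.pi) * y) ≤ 2 * Real.exp y * Real.exp (-(2 * Real.pi) * y) := by gcongr
    _ = 2 * Real.exp (y + -(2 * Real.pi) * y) := by rw [Real.exp_add]; ring
    _ ≤ 2 * Real.exp (-x) := by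
        gcongr
        nlinarith [Real.pi_gt_three]

theorem hs_congr {f g : ℕ → ℂ} {a : ℂ} (h : HasSum f a) (hfg : ∀ n, g n = f n) : HasSum g a := by
  rw [show g = f from funext hfg]
  exact h

/-- Summability of `‖b n‖ exp(-2π(n+1)x)` with explicit majorant. -/
theorem term_bound {b : ℕ → ℂ} (n : ℕ) {x : ℝ} (hx : 0 < x) :
    ‖b n * (Real.exp (-(2 * Real.pi * ((n : ℝ) + 1)) * x) : ℂ)‖ ≤
      ‖b n‖ / ((n : ℝ) + 1) ^ 2 * (2 / x ^ 2 * Real.exp (-x)) := by
  have hn : (0 : ℝ) < (n : ℝ) + 1 := by positivity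
  rw [norm_mul, norm_real, Real.norm_of_nonneg (Real.exp_pos _).le]
  calc ‖b n‖ * Real.exp (-(2 * Real.pi * ((n : ℝ) + 1)) * x)
      = ‖b n‖ / ((n : ℝ) + 1) ^ 2 * (((n : ℝ) + 1) ^ 2 * Real.exp (-(2 * Real.pi * ((n : ℝ) + 1)) * x)) := by
        field_simp
    _ ≤ _ := mul_le_mul_of_nonneg_left (sq_mul_exp_le n hx) (by positivity)

/-- Mellin continuation of a Dirichlet series from the behaviour of the exponential sum at `0`. -/
theorem mellin_cont {b : ℕ → ℂ} (hb : ∀ σ : ℝ, 1 < σ → Summable fun n => ‖b n‖ / ((n : ℝ) + 1) ^ σ)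
    {g : ℝ → ℂ} (hg : ∀ x : ℝ, 0 < x →
      HasSum (fun n : ℕ => b n * (Real.exp (-(2 * Real.pi * ((n : ℝ) + 1)) * x) : ℂ)) (g x))
    (hg0 : g =O[nhdsWithin 0 (Ioi 0)] (fun x => x ^ (-(-(1 / 2)) : ℝ))) :
    ∃ E : ℂ → ℂ, DifferentiableOn ℂ E {s : ℂ | -(1 / 2) < s.re} ∧
      ∀ s : ℂ, 1 < s.re → HasSum (fun n : ℕ => b n / ((n : ℂ) + 1) ^ s) (E s) := by
  have hb2 : Summable fun n => ‖b n‖ / ((n : ℝ) + 1) ^ 2 := by
    refine (hb 2 (by norm_num)).congr fun n => ?_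
    norm_cast
  set S : ℝ := ∑' n, ‖b n‖ / ((n : ℝ) + 1) ^ 2 with hS
  have hcont : ContinuousOn g (Ioi 0) := by
    intro x₀ hx₀
    have hx₀' : (0 : ℝ) < x₀ := hx₀
    have h1 : ContinuousOn (fun x : ℝ => ∑' n : ℕ, b n * (Real.exp (-(2 * Real.pi * ((n : ℝ) + 1)) * x) : ℂ))
        (Ioi (x₀ / 2)) := by
      refine continuousOn_tsum (u := fun n => ‖b n‖ / ((n : ℝ) + 1) ^ 2 * (2 / (x₀ / 2) ^ 2)) (fun n => ?_)
        (hb2.mul_right _) fun n x hx => ?_
      · exact Continuous.continuousOn (by fun_prop)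
      · have hx' : x₀ / 2 < x := hx
        have hx0 : 0 < x := by linarith
        refine (term_bound n hx0).trans ?_
        refine mul_le_mul_of_nonneg_left ?_ (by positivity)
        calc 2 / x ^ 2 * Real.exp (-x) ≤ 2 / x ^ 2 * 1 := by
              gcongr
              exact Real.exp_le_one_iff.mpr (by linarith)
          _ ≤ 2 / (x₀ / 2) ^ 2 := by
              rw [mul_one]
              gcongr
    have h2 : ContinuousOn g (Ioi (x₀ / 2)) := by
      refine h1.congr fun x hx => ?_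
      have hx' : x₀ / 2 < x := hx
      exact ((hg x (by linarith)).tsum_eq).symm
    exact (h2.continuousAt (Ioi_mem_nhds (by linarith))).continuousWithinAt
  have hloc : LocallyIntegrableOn g (Ioi 0) := hcont.locallyIntegrableOn measurableSet_Ioi
  have htop : g =O[atTop] fun t => Real.exp (-1 * t) := by
    refine IsBigO.of_bound (2 * S) ?_
    filter_upwards [eventually_ge_atTop (1 : ℝ)] with x hx
    have hx0 : 0 < x := by linarith
    rw [← (hg x hx0).tsum_eq]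
    have h1 := tsum_of_norm_bounded (hb2.hasSum.mul_right (2 / x ^ 2 * Real.exp (-x)))
      (fun n => term_bound (b := b) n hx0)
    refine h1.trans ?_
    rw [Real.norm_of_nonneg (Real.exp_pos _).le, neg_one_mul, ← hS]
    have hS0 : 0 ≤ S := tsum_nonneg fun n => by positivity
    have h2 : 2 / x ^ 2 ≤ 2 := by
      rw [div_le_iff₀ (by positivity)]
      nlinarith
    calc S * (2 / x ^ 2 * Real.exp (-x)) ≤ S * (2 * Real.exp (-x)) := by gcongr
      _ = 2 * S * Real.exp (-x) := by ring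
  have hdiff : ∀ s : ℂ, -(1 / 2) < s.re → DifferentiableAt ℂ (mellin g) s := fun s hs =>
    mellin_differentiableAt_of_isBigO_rpow_exp one_pos hloc htop hg0 (by linarith)
  have h2pi : ((2 * Real.pi : ℝ) : ℂ) ≠ 0 := by
    exact_mod_cast (by positivity : (2 * Real.pi : ℝ) ≠ 0)
  refine ⟨fun s => ((2 * Real.pi : ℝ) : ℂ) ^ s * (Gamma s)⁻¹ * mellin g s, ?_, ?_⟩
  · intro s hs
    have h1 : DifferentiableAt ℂ (fun s : ℂ => (Gamma s)⁻¹) s := differentiable_one_div_Gamma s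
    have h2 : DifferentiableAt ℂ (fun s : ℂ => ((2 * Real.pi : ℝ) : ℂ) ^ s) s :=
      DifferentiableAt.const_cpow differentiableAt_id (Or.inl h2pi)
    exact ((h2.mul h1).mul (hdiff s hs)).differentiableWithinAt
  · intro s hs
    have hs0 : 0 < s.re := by linarith
    have h1 := hasSum_mellin (a := b) (p := fun n => 2 * Real.pi * ((n : ℝ) + 1)) (F := g) (s := s)
      (fun n => Or.inr (by positivity)) hs0 (fun t ht => hg t ht) (by
        refine ((hb s.re hs).mul_left ((2 * Real.pi) ^ s.re)⁻¹).congr fun n => ?_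
        rw [Real.mul_rpow (x := 2 * Real.pi) (y := (n : ℝ) + 1) (by positivity) (by positivity),
          ← div_eq_inv_mul, div_div, mul_comm (((n : ℝ) + 1) ^ s.re)])
    have h2 := h1.mul_left (((2 * Real.pi : ℝ) : ℂ) ^ s * (Gamma s)⁻¹)
    refine hs_congr h2 fun n => ?_
    have hn : (0 : ℝ) < (n : ℝ) + 1 := by positivity
    have hG : Gamma s ≠ 0 := Gamma_ne_zero_of_re_pos hs0
    have h3 : ((2 * Real.pi : ℝ) : ℂ) ^ s ≠ 0 := by
      rw [Ne, cpow_eq_zero_iff]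
      tauto
    have h4 : ((2 * Real.pi * ((n : ℝ) + 1) : ℝ) : ℂ) ^ s = ((2 * Real.pi : ℝ) : ℂ) ^ s * ((n : ℂ) + 1) ^ s := by
      rw [ofReal_mul, mul_cpow_ofReal_nonneg (by positivity) hn.le]
      push_cast
      rfl
    have h5 : ((n : ℂ) + 1) ^ s ≠ 0 := by
      have : (n : ℂ) + 1 ≠ 0 := by exact_mod_cast hn.ne'
      rw [Ne, cpow_eq_zero_iff]
      tauto
    rw [h4]
    field_simp

theorem fB_hasSum {β : ℕ → ℂ} (hb2 : Summable fun n => ‖β (n + 1)‖ / ((n : ℝ) + 1) ^ 2) (α : ℝ) {x : ℝ} (hx : 0 < x) :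
    HasSum (fun n : ℕ => β (n + 1) * exp (-(2 * Real.pi * ((n : ℂ) + 1) * (I * α + x)))) (fB β (I * α + x)) := by
  refine Summable.hasSum (Summable.of_norm_bounded (hb2.mul_right (2 / x ^ 2 * Real.exp (-x))) fun n => ?_)
  refine le_trans (le_of_eq ?_) (term_bound (b := fun n => β (n + 1)) n hx)
  rw [norm_mul, norm_mul, norm_real, Real.norm_of_nonneg (Real.exp_pos _).le, norm_exp]
  congr 2
  simp

theorem cont_of_cusp {β : ℕ → ℂ} (hβ : ∀ s : ℂ, 1 < s.re → LSeriesSummable β s) {α : ℝ} (hp : Cusp (fB β) α)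
    (hm : Cusp (fB β) (-α)) :
    ∃ E : ℂ → ℂ, DifferentiableOn ℂ E {s : ℂ | -(1 / 2) < s.re} ∧
      ∀ s : ℂ, 1 < s.re → E s = LSeries (fun n => β n * (Real.cos (2 * Real.pi * n * α) : ℂ)) s := by
  -- summability
  have hβ' : ∀ σ : ℝ, 1 < σ → Summable fun n : ℕ => ‖β (n + 1)‖ / ((n : ℝ) + 1) ^ σ := by
    intro σ hσ
    have h1 : Summable fun n => ‖LSeries.term β (σ : ℂ) n‖ := (hβ (σ : ℂ) (by simpa using hσ)).norm
    refine ((summable_nat_add_iff 1).mpr h1).congr fun n => ?_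
    rw [LSeries.term_of_ne_zero (Nat.succ_ne_zero n), norm_div]
    congr 1
    rw [Complex.norm_natCast_cpow_of_pos (Nat.succ_pos n), ofReal_re]
    push_cast
    rfl
  have hb2 : Summable fun n : ℕ => ‖β (n + 1)‖ / ((n : ℝ) + 1) ^ 2 := by
    refine (hβ' 2 (by norm_num)).congr fun n => ?_
    norm_cast
  obtain ⟨c₁, h₁⟩ := hp
  obtain ⟨c₂, h₂⟩ := hm
  obtain ⟨C₁, r₁, hr₁, hC₁⟩ := h₁ 0
  obtain ⟨C₂, r₂, hr₂, hC₂⟩ := h₂ 0
  set c₀ : ℂ := (c₁ + c₂) / 2 with hc₀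
  set co : ℕ → ℝ := fun n => Real.cos (2 * Real.pi * ((n : ℝ) + 1) * α) with hco
  set b : ℕ → ℂ := fun n => β (n + 1) * (co n : ℂ) - (if n = 0 then c₀ else 0) with hb
  set h : ℝ → ℂ := fun x => (fB β (I * α + x) + fB β (I * ((-α : ℝ) : ℂ) + x)) / 2 with hh
  have hbs : ∀ σ : ℝ, 1 < σ → Summable fun n => ‖b n‖ / ((n : ℝ) + 1) ^ σ := by
    intro σ hσ
    have h1 : Summable fun n : ℕ => (if n = 0 then ‖c₀‖ else 0) := by
      exact (hasSum_ite_eq 0 ‖c₀‖).summable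
    refine Summable.of_nonneg_of_le (fun n => by positivity) (fun n => ?_) ((hβ' σ hσ).add h1)
    have hn : (1 : ℝ) ≤ ((n : ℝ) + 1) ^ σ := Real.one_le_rpow (by
      have : (0 : ℝ) ≤ n := n.cast_nonneg
      linarith) (by linarith)
    have h2 : ‖b n‖ ≤ ‖β (n + 1)‖ + (if n = 0 then ‖c₀‖ else 0) := by
      refine (norm_sub_le _ _).trans (add_le_add ?_ (by split_ifs <;> simp))
      rw [norm_mul, norm_real]
      exact mul_le_of_le_one_right (norm_nonneg _) (Real.abs_cos_le_one _)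
    have h3 : (0 : ℝ) ≤ (if n = 0 then ‖c₀‖ else 0) := by split_ifs <;> positivity
    calc ‖b n‖ / ((n : ℝ) + 1) ^ σ ≤ (‖β (n + 1)‖ + (if n = 0 then ‖c₀‖ else 0)) / ((n : ℝ) + 1) ^ σ := by gcongr
      _ = ‖β (n + 1)‖ / ((n : ℝ) + 1) ^ σ + (if n = 0 then ‖c₀‖ else 0) / ((n : ℝ) + 1) ^ σ := add_div _ _ _
      _ ≤ _ := by
        gcongr
        exact div_le_self h3 hn
  have hsum : ∀ x : ℝ, 0 < x → HasSum (fun n : ℕ => b n * (Real.exp (-(2 * Real.pi * ((n : ℝ) + 1)) * x) : ℂ))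
      (h x - c₀ * (Real.exp (-(2 * Real.pi) * x) : ℂ)) := by
    intro x hx
    have h1 := ((fB_hasSum hb2 α hx).add (fB_hasSum hb2 (-α) hx)).div_const 2
    have h2 : HasSum (fun n : ℕ => if n = 0 then c₀ * (Real.exp (-(2 * Real.pi) * x) : ℂ) else 0)
        (c₀ * (Real.exp (-(2 * Real.pi) * x) : ℂ)) := hasSum_ite_eq 0 _
    have h3 := h1.sub h2
    refine hs_congr h3 fun n => ?_
    have e1 : exp (-(2 * Real.pi * ((n : ℂ) + 1) * (I * α + x))) =
        exp (-((2 * Real.pi * ((n : ℝ) + 1) * α : ℝ) : ℂ) * I) * (Real.exp (-(2 * Real.pi * ((n : ℝ) + 1)) * x) : ℂ) := by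
      rw [ofReal_exp, ← exp_add]
      congr 1
      push_cast
      ring
    have e2 : exp (-(2 * Real.pi * ((n : ℂ) + 1) * (I * ((-α : ℝ) : ℂ) + x))) =
        exp (((2 * Real.pi * ((n : ℝ) + 1) * α : ℝ) : ℂ) * I) * (Real.exp (-(2 * Real.pi * ((n : ℝ) + 1)) * x) : ℂ) := by
      rw [ofReal_exp, ← exp_add]
      congr 1
      push_cast
      ring
    have e3 : (co n : ℂ) = (exp (((2 * Real.pi * ((n : ℝ) + 1) * α : ℝ) : ℂ) * I) +
        exp (-((2 * Real.pi * ((n : ℝ) + 1) * α : ℝ) : ℂ) * I)) / 2 := by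
      rw [hco]
      simp only []
      rw [ofReal_cos, Complex.cos]
    rw [e1, e2, hb]
    simp only []
    rw [e3]
    split_ifs with h0
    · subst h0
      simp only [Nat.cast_zero, zero_add, mul_one]
      ring
    · ring
  have hsmall : (fun x => h x - c₀ * (Real.exp (-(2 * Real.pi) * x) : ℂ)) =O[nhdsWithin 0 (Ioi 0)]
      (fun x => x ^ (-(-(1 / 2)) : ℝ)) := by
    refine IsBigO.of_bound ((C₁ + C₂) / 2 + ‖c₀‖ * (2 * Real.pi)) ?_
    have hmem : Ioo (0 : ℝ) (min 1 (min r₁ r₂)) ∈ nhdsWithin (0 : ℝ) (Ioi 0) :=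
      Ioo_mem_nhdsGT (lt_min one_pos (lt_min hr₁ hr₂))
    filter_upwards [hmem] with x hx
    have hx0 : 0 < x := hx.1
    have hx1 : x < 1 := hx.2.trans_le (min_le_left _ _)
    have hxr₁ : x < r₁ := hx.2.trans_le ((min_le_right _ _).trans (min_le_left _ _))
    have hxr₂ : x < r₂ := hx.2.trans_le ((min_le_right _ _).trans (min_le_right _ _))
    have hnx : ‖(x : ℂ)‖ = x := by rw [norm_real, Real.norm_of_nonneg hx0.le]
    have k₁ := hC₁ (x : ℂ) (by simpa using hx0) (by simp) (by rw [hnx]; exact hxr₁)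
    have k₂ := hC₂ (x : ℂ) (by simpa using hx0) (by simp) (by rw [hnx]; exact hxr₂)
    rw [hnx] at k₁ k₂
    have hsq : x ≤ Real.sqrt x := by
      refine Real.le_sqrt_of_sq_le ?_
      nlinarith
    have k₃ : ‖c₀ * (1 - (Real.exp (-(2 * Real.pi) * x) : ℂ))‖ ≤ ‖c₀‖ * (2 * Real.pi) * Real.sqrt x := by
      rw [norm_mul, mul_assoc]
      refine mul_le_mul_of_nonneg_left ?_ (norm_nonneg _)
      have e1 : (1 - (Real.exp (-(2 * Real.pi) * x) : ℂ)) = ((1 - Real.exp (-(2 * Real.pi) * x) : ℝ) : ℂ) := by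
        push_cast; ring
      have e2 : Real.exp (-(2 * Real.pi) * x) ≤ 1 := Real.exp_le_one_iff.mpr (by nlinarith [Real.pi_pos])
      rw [e1, norm_real, Real.norm_of_nonneg (by linarith)]
      have e3 := Real.add_one_le_exp (-(2 * Real.pi) * x)
      nlinarith [Real.pi_pos]
    have e : h x - c₀ * (Real.exp (-(2 * Real.pi) * x) : ℂ) =
        ((fB β (I * α + x) - c₁) + (fB β (I * ((-α : ℝ) : ℂ) + x) - c₂)) / 2 +
          c₀ * (1 - (Real.exp (-(2 * Real.pi) * x) : ℂ)) := by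
      rw [hh, hc₀]
      ring
    rw [e, neg_neg, ← Real.sqrt_eq_rpow, Real.norm_of_nonneg (Real.sqrt_nonneg _)]
    refine (norm_add_le _ _).trans ?_
    rw [norm_div, Complex.norm_ofNat]
    have k₄ := norm_add_le (fB β (I * α + x) - c₁) (fB β (I * ((-α : ℝ) : ℂ) + x) - c₂)
    nlinarith
  obtain ⟨E, hE, hE1⟩ := mellin_cont hbs hsum hsmall
  refine ⟨fun s => c₀ + E s, (differentiableOn_const _).add hE, fun s hs => ?_⟩
  have h1 := hE1 s hs
  have h2 : HasSum (fun n : ℕ => if n = 0 then c₀ else 0) c₀ := hasSum_ite_eq 0 c₀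
  have h3 := h2.add h1
  have h4 : HasSum (fun n : ℕ => LSeries.term (fun n => β n * (Real.cos (2 * Real.pi * n * α) : ℂ)) s (n + 1)) (c₀ + E s) := by
    refine hs_congr h3 fun n => ?_
    rw [LSeries.term_of_ne_zero (Nat.succ_ne_zero n), hb, hco]
    simp only []
    rcases eq_or_ne n 0 with rfl | hn
    · simp
    · simp only [if_neg hn]
      push_cast
      ring
  have h5 := (hasSum_nat_add_iff 1).mp h4
  rw [Finset.sum_range_one, LSeries.term_zero, add_zero] at h5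
  exact h5.tsum_eq.symm

end Pool.Agent.Helper25.BC
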