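import Pool.Agent.Helper25.BC.Defs

/-!
Block BC-B (MP_bd232a_nt, part C). The two dual pairs attached to `G`.
PROOF. `τ = ν₂ - ν₃`, `B(s) = G(s + iν₃)`, `B(s) = LSeries β s` with `β n = b n n^{-iν₃}` (`LSeries.term`, `n^{-(s+iν₃)} = n^{-s} n^{-iν₃}`). On `Re s = -1/2` apply `hfe` at `s + iν₃`:
`(1 - (s + iν₃) + iν₂) = 1 - s + iτ`, `(s + iν₃) - iν₂ = s - iτ`, `1 - (s+iν₃) + iν₃ = 1 - s`, `(s+iν₃) - iν₃ = s`, `conj G(1 - conj(s + iν₃)) = conj B(1 - conj s)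
= conj (LSeries β (1 - conj s)) = LSeries (conj β) (1 - s)`, constant `C = Cg q₂^{-iν₃}`. Second pair: `Bf(s) = conj B(conj s + iτ) = LSeries βf s`, `βf n = conj(β n) n^{iτ}`;
for `Re s = -1/2` conjugate the functional equation of `B` at `conj s + iτ`: `conj (gam τ (conj s + iτ)) = gam τ s` (`Gammaℝ` commutes with conj), and
`conj(conj B(1 - conj(conj s + iτ))) = B(1 - s + iτ) = LSeries β (1 - s + iτ) = LSeries (β n^{-iτ}) (1-s)`, constant `conj C q₂^{iτ}`.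
-/

open Complex

namespace Pool.Agent.Helper25.BC

open Pool.Agent.Helper19.BD

namespace BCB

lemma Gammaℝ_conj (z : ℂ) : Gammaℝ ((starRingEnd ℂ) z) = (starRingEnd ℂ) (Gammaℝ z) := by
  rw [Gammaℝ_def, Gammaℝ_def, map_mul]
  congr 1
  · have h1 : -(starRingEnd ℂ) z / 2 = (starRingEnd ℂ) (-z / 2) := by
      rw [map_div₀, map_neg, map_ofNat]
    rw [h1, cpow_conj _ _ (by rw [Complex.arg_ofReal_of_nonneg Real.pi_pos.le]; exact Real.pi_pos.ne)]
    simp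
  · have h1 : (starRingEnd ℂ) z / 2 = (starRingEnd ℂ) (z / 2) := by
      rw [map_div₀, map_ofNat]
    rw [h1, Gamma_conj]

lemma term_shift (f : ℕ → ℂ) (s : ℂ) (τ : ℝ) (n : ℕ) :
    LSeries.term f (s + I * τ) n = LSeries.term (fun n => f n * npow n (-τ)) s n := by
  rcases eq_or_ne n 0 with h | h
  · subst h
    simp
  · rw [LSeries.term_of_ne_zero h, LSeries.term_of_ne_zero h]
    have hn : (n : ℂ) ≠ 0 := by exact_mod_cast h
    have h1 : npow n (-τ) = (n : ℂ) ^ (-(I * τ)) := by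
      rw [npow, cpow_def_of_ne_zero hn, ← natCast_log]
      congr 1
      push_cast
      ring
    rw [h1, cpow_add _ _ hn, cpow_neg]
    have h2 : (n : ℂ) ^ s ≠ 0 := by
      rw [cpow_def_of_ne_zero hn]
      exact exp_ne_zero _
    have h3 : (n : ℂ) ^ (I * (τ : ℂ)) ≠ 0 := by
      rw [cpow_def_of_ne_zero hn]
      exact exp_ne_zero _
    field_simp

lemma summable_shift {f : ℕ → ℂ} {s : ℂ} {τ : ℝ} (h : LSeriesSummable f (s + I * τ)) :
    LSeriesSummable (fun n => f n * npow n (-τ)) s := by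
  unfold LSeriesSummable at *
  exact h.congr fun n => term_shift f s τ n

lemma lseries_shift (f : ℕ → ℂ) (s : ℂ) (τ : ℝ) :
    LSeries f (s + I * τ) = LSeries (fun n => f n * npow n (-τ)) s := by
  unfold LSeries
  exact tsum_congr fun n => term_shift f s τ n

lemma term_conj (f : ℕ → ℂ) (s : ℂ) (n : ℕ) :
    (starRingEnd ℂ) (LSeries.term f ((starRingEnd ℂ) s) n) =
      LSeries.term (fun n => (starRingEnd ℂ) (f n)) s n := by
  rcases eq_or_ne n 0 with h | h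
  · subst h
    simp
  · rw [LSeries.term_of_ne_zero h, LSeries.term_of_ne_zero h, map_div₀]
    congr 1
    have h1 : arg (n : ℂ) ≠ Real.pi := by
      rw [natCast_arg]
      exact Real.pi_pos.ne
    have h2 := cpow_conj (n : ℂ) s h1
    rw [conj_natCast] at h2
    rw [h2, conj_conj]

lemma summable_conj {f : ℕ → ℂ} {s : ℂ} (h : LSeriesSummable f ((starRingEnd ℂ) s)) :
    LSeriesSummable (fun n => (starRingEnd ℂ) (f n)) s := by
  unfold LSeriesSummable at *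
  have h1 : Summable (fun n => (starRingEnd ℂ) (LSeries.term f ((starRingEnd ℂ) s) n)) := by
    have h2 := h.map (starRingEnd ℂ).toAddMonoidHom Complex.continuous_conj
    exact h2
  exact h1.congr fun n => term_conj f s n

lemma lseries_conj (f : ℕ → ℂ) (s : ℂ) :
    (starRingEnd ℂ) (LSeries f ((starRingEnd ℂ) s)) = LSeries (fun n => (starRingEnd ℂ) (f n)) s := by
  unfold LSeries
  rw [conj_tsum]
  exact tsum_congr fun n => term_conj f s n

lemma gam_conj (τ : ℝ) (s : ℂ) :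
    (starRingEnd ℂ) (gam τ ((starRingEnd ℂ) s + I * τ)) = gam τ s := by
  unfold gam
  rw [map_div₀, map_mul, map_mul, ← Gammaℝ_conj, ← Gammaℝ_conj, ← Gammaℝ_conj, ← Gammaℝ_conj]
  have h1 : (starRingEnd ℂ) (1 - ((starRingEnd ℂ) s + I * τ)) = 1 - s + I * τ := by
    simp
    ring
  have h2 : (starRingEnd ℂ) (1 - ((starRingEnd ℂ) s + I * τ) + I * τ) = 1 - s := by
    simp
    ring
  have h3 : (starRingEnd ℂ) ((starRingEnd ℂ) s + I * τ) = s - I * τ := by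
    simp
    ring
  have h4 : (starRingEnd ℂ) ((starRingEnd ℂ) s + I * τ - I * τ) = s := by
    simp
  rw [h1, h2, h3, h4]
  ring

lemma growth_aux {G : ℂ → ℂ}
    (hgr : ∀ σ₁ σ₂ : ℝ, ∃ A K : ℝ, ∀ s : ℂ, σ₁ ≤ s.re → s.re ≤ σ₂ → ‖G s‖ ≤ K * (1 + |s.im|) ^ A) (ν : ℝ) :
    ∃ A K : ℝ, ∀ s s' : ℂ, -(1 / 2) ≤ s.re → s.re ≤ 2 → s'.re = s.re → |s'.im| ≤ |s.im| + |ν| →
      ‖G s'‖ ≤ K * (1 + |s.im|) ^ A := by
  obtain ⟨A, K, h⟩ := hgr (-(1 / 2)) 2
  refine ⟨|A|, |K| * (1 + |ν|) ^ |A|, fun s s' h1 h2 h3 h4 => ?_⟩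
  have h5 := h s' (by rw [h3]; exact h1) (by rw [h3]; exact h2)
  have h6 : (1 + |s'.im|) ^ A ≤ (1 + |s'.im|) ^ |A| :=
    Real.rpow_le_rpow_of_exponent_le (by linarith [abs_nonneg s'.im]) (le_abs_self A)
  have h7 : (1 + |s'.im|) ^ |A| ≤ ((1 + |ν|) * (1 + |s.im|)) ^ |A| := by
    apply Real.rpow_le_rpow (by linarith [abs_nonneg s'.im]) _ (abs_nonneg A)
    nlinarith [abs_nonneg s.im, abs_nonneg ν, mul_nonneg (abs_nonneg s.im) (abs_nonneg ν)]
  have h8 : ((1 + |ν|) * (1 + |s.im|)) ^ |A| = (1 + |ν|) ^ |A| * (1 + |s.im|) ^ |A| :=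
    Real.mul_rpow (by linarith [abs_nonneg ν]) (by linarith [abs_nonneg s.im])
  have h9 : 0 ≤ (1 + |s'.im|) ^ A := Real.rpow_nonneg (by linarith [abs_nonneg s'.im]) _
  calc ‖G s'‖ ≤ K * (1 + |s'.im|) ^ A := h5
    _ ≤ |K| * (1 + |s'.im|) ^ A := mul_le_mul_of_nonneg_right (le_abs_self K) h9
    _ ≤ |K| * ((1 + |ν|) ^ |A| * (1 + |s.im|) ^ |A|) := by
        apply mul_le_mul_of_nonneg_left _ (abs_nonneg K)
        rw [← h8]
        exact h6.trans h7
    _ = _ := by ring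

end BCB

open BCB in
theorem duals {G : ℂ → ℂ} {b : ℕ → ℂ} {q₂ ν₂ ν₃ : ℝ} (hq : 0 < q₂) (hd : Differentiable ℂ G)
    (hgr : ∀ σ₁ σ₂ : ℝ, ∃ A K : ℝ, ∀ s : ℂ, σ₁ ≤ s.re → s.re ≤ σ₂ → ‖G s‖ ≤ K * (1 + |s.im|) ^ A)
    (hs : ∀ s : ℂ, 1 < s.re → LSeriesSummable b s) (he : ∀ s : ℂ, 1 < s.re → G s = LSeries b s) {Cg : ℂ}
    (hfe : ∀ s : ℂ, s.re = -(1 / 2) →
      G s = Cg * (q₂ : ℂ) ^ (-s) * (Gammaℝ (1 - s + I * ν₂) / Gammaℝ (s - I * ν₂)) *
        (Gammaℝ (1 - s + I * ν₃) / Gammaℝ (s - I * ν₃)) * (starRingEnd ℂ) (G (1 - (starRingEnd ℂ) s))) :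
    ∃ (B Bf : ℂ → ℂ) (C Cf : ℂ),
      Dual (ν₂ - ν₃) q₂ (fun n => b n * npow n (-ν₃)) (fun n => (starRingEnd ℂ) (b n * npow n (-ν₃))) B C ∧
      Dual (ν₂ - ν₃) q₂ (fun n => (starRingEnd ℂ) (b n * npow n (-ν₃)) * npow n (ν₂ - ν₃))
        (fun n => b n * npow n (-ν₃) * npow n (-(ν₂ - ν₃))) Bf Cf := by
  have hq0 : (q₂ : ℂ) ≠ 0 := by exact_mod_cast hq.ne'
  set β : ℕ → ℂ := fun n => b n * npow n (-ν₃) with hβ
  set τ : ℝ := ν₂ - ν₃ with hτ
  let B : ℂ → ℂ := fun s => G (s + I * ν₃)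
  let C : ℂ := Cg * (q₂ : ℂ) ^ (-(I * ν₃))
  have hBsum : ∀ s : ℂ, 1 < s.re → LSeriesSummable β s := fun s h =>
    summable_shift (hs _ (by simpa using h))
  have hBeq : ∀ s : ℂ, 1 < s.re → B s = LSeries β s := fun s h => by
    rw [← lseries_shift, ← he _ (by simpa using h)]
  have hσsum : ∀ s : ℂ, 1 < s.re → LSeriesSummable (fun n => (starRingEnd ℂ) (β n)) s := fun s h =>
    summable_conj (hBsum _ (by simpa using h))
  have hBfe : ∀ s : ℂ, s.re = -(1 / 2) →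
      B s = C * (q₂ : ℂ) ^ (-s) * gam τ s * LSeries (fun n => (starRingEnd ℂ) (β n)) (1 - s) := by
    intro s h
    have h1 := hfe (s + I * ν₃) (by simpa using h)
    have h2 : (1 : ℂ) - (s + I * ν₃) + I * ν₂ = 1 - s + I * τ := by
      rw [hτ]
      push_cast
      ring
    have h3 : s + I * ν₃ - I * ν₂ = s - I * τ := by
      rw [hτ]
      push_cast
      ring
    have h4 : (1 : ℂ) - (s + I * ν₃) + I * ν₃ = 1 - s := by ring
    have h5 : s + I * ν₃ - I * ν₃ = s := by ring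
    have h6 : (1 : ℂ) - (starRingEnd ℂ) (s + I * ν₃) = (starRingEnd ℂ) (1 - s) + I * ν₃ := by
      simp
      ring
    have h7 : (starRingEnd ℂ) (G ((starRingEnd ℂ) (1 - s) + I * ν₃)) =
        LSeries (fun n => (starRingEnd ℂ) (β n)) (1 - s) := by
      rw [← lseries_conj, ← hBeq]
      have : ((starRingEnd ℂ) (1 - s)).re = 1 - s.re := by simp
      rw [this, h]
      norm_num
    have h8 : (q₂ : ℂ) ^ (-(s + I * ν₃)) = (q₂ : ℂ) ^ (-(I * ν₃)) * (q₂ : ℂ) ^ (-s) := by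
      rw [← cpow_add _ _ hq0]
      congr 1
      ring
    change G (s + I * ν₃) = _
    rw [h1, h2, h3, h4, h5, h6, h7, h8]
    simp only [C, gam]
    ring
  obtain ⟨A1, K1, hg1⟩ := growth_aux hgr ν₃
  obtain ⟨A2, K2, hg2⟩ := growth_aux hgr ν₂
  have hBd : Differentiable ℂ B := hd.comp (differentiable_id.add_const _)
  let Bf : ℂ → ℂ := fun s => (starRingEnd ℂ) (B ((starRingEnd ℂ) s + I * τ))
  have hBfsum : ∀ s : ℂ, 1 < s.re →
      LSeriesSummable (fun n => (starRingEnd ℂ) (β n) * npow n τ) s := fun s h => by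
    have h1 := hσsum (s + I * ((-τ : ℝ) : ℂ)) (by simpa using h)
    have h2 := summable_shift h1
    simpa using h2
  have hBfeq : ∀ s : ℂ, 1 < s.re → Bf s = LSeries (fun n => (starRingEnd ℂ) (β n) * npow n τ) s := by
    intro s h
    have h1 := lseries_shift (fun n => (starRingEnd ℂ) (β n)) s (-τ)
    simp only [neg_neg] at h1
    rw [← h1, ← lseries_conj, ← hBeq]
    · change (starRingEnd ℂ) (B ((starRingEnd ℂ) s + I * τ)) = _
      congr 2
      simp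
    · simpa using h
  refine ⟨B, Bf, C, (starRingEnd ℂ) C * (q₂ : ℂ) ^ (I * τ), ⟨hq, hBd, ⟨A1, K1, fun s h1 h2 => ?_⟩, hBsum, hBeq,
    hσsum, hBfe⟩, ⟨hq, ?_, ⟨A2, K2, fun s h1 h2 => ?_⟩, hBfsum, hBfeq, fun s h => ?_, fun s h => ?_⟩⟩
  · apply hg1 s _ h1 h2
    · simp
    · simp only [add_im, mul_im, I_re, I_im, ofReal_im, ofReal_re, zero_mul, one_mul, zero_add]
      exact abs_add_le _ _
  · intro z
    have h1 : DifferentiableAt ℂ (fun s => B (s + I * τ)) ((starRingEnd ℂ) z) :=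
      (hBd.comp (differentiable_id.add_const (I * (τ : ℂ)))) _
    have h2 := h1.conj_conj
    rw [conj_conj] at h2
    exact h2
  · change ‖(starRingEnd ℂ) (G ((starRingEnd ℂ) s + I * τ + I * ν₃))‖ ≤ _
    rw [RCLike.norm_conj]
    apply hg2 s _ h1 h2
    · simp
    · have : ((starRingEnd ℂ) s + I * τ + I * ν₃).im = -s.im + ν₂ := by
        simp [hτ]
        ring
      rw [this]
      exact (abs_add_le _ _).trans (by rw [abs_neg])
  · have h1 := hBsum (s + I * (τ : ℂ)) (by simpa using h)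
    exact summable_shift h1
  · change (starRingEnd ℂ) (B ((starRingEnd ℂ) s + I * τ)) = _
    rw [hBfe _ (by simpa using h), map_mul, map_mul, map_mul, gam_conj]
    have h1 : (starRingEnd ℂ) (LSeries (fun n => (starRingEnd ℂ) (β n)) (1 - ((starRingEnd ℂ) s + I * τ))) =
        LSeries (fun n => β n * npow n (-τ)) (1 - s) := by
      rw [← lseries_shift]
      have h2 : (1 : ℂ) - ((starRingEnd ℂ) s + I * τ) = (starRingEnd ℂ) (1 - s + I * τ) := by
        simp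
        ring
      rw [h2, lseries_conj]
      simp
    have h3 : (starRingEnd ℂ) ((q₂ : ℂ) ^ (-((starRingEnd ℂ) s + I * τ))) = (q₂ : ℂ) ^ (I * τ) * (q₂ : ℂ) ^ (-s) := by
      have h4 : -((starRingEnd ℂ) s + I * τ) = (starRingEnd ℂ) (I * τ + -s) := by
        simp
      have h5 : arg (q₂ : ℂ) ≠ Real.pi := by
        rw [arg_ofReal_of_nonneg hq.le]
        exact Real.pi_pos.ne
      rw [h4, cpow_conj _ _ h5, conj_conj, conj_ofReal, cpow_add _ _ hq0]
    rw [h1, h3]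
    ring


end Pool.Agent.Helper25.BC
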