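import Pool.Agent.Helper25.BC.Defs
import Pool.Agent.Helper25.BC.Lines
import Pool.Agent.Helper97.BD.FELeft
import Pool.Agent.Helper97.BD.Growth

/-!
Block BC-G (MP_bd232a_nt, part C). The second factor is entire.
PROOF. `G := Function.update F₂ 1 (H.F 1 / LFunction c (1 - iη))`. At `s ≠ 1`: `G = F₂` near `s`, `h₂.differentiableAt` (BD-S4). `LFunction c (1 - iη) ≠ 0` (`nice_ne_zero`, `η ≠ 0`); near `1`:
`G s = H.F s / LFunction c (s - iη)` (for `s ≠ 1`: `H.F s = F₁ s F₂ s`, `F₁ s = LFunction c (s - iη)`), which is differentiable at `1` (`ZMod.differentiableAt_LFunction` at `1 - iη ≠ 1`).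
Growth: `h₂.growth` (BD-S5) for `|Im s| ≥ 1`, continuity on the compact rectangle for `|Im s| ≤ 1` (`(1+|t|)^A ≥ |t|^A`, `≥ 1` for `A ≥ 0`).
-/

open Complex

namespace Pool.Agent.Helper25.BC

open Pool.Agent.Helper19.BD

theorem exists_G (H : HeckeF) {F₁ F₂ : ℂ → ℂ} {q : ℕ} [NeZero q] {c : ZMod q → ℂ} {η : ℝ} {C₂ : ℂ}
    (h₁ : Deg1Form F₁ q c η C₂) {a₂ : ℕ → ℂ} {D₂ : FE} (h₂ : IsSelbergWith F₂ a₂ D₂)
    (heq : EqOff H.F (fun s => F₁ s * F₂ s)) (hn : Nice q c) (hη : η ≠ 0) :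
    ∃ G : ℂ → ℂ, Differentiable ℂ G ∧ (∀ s : ℂ, s ≠ 1 → G s = F₂ s) ∧
      (∀ s : ℂ, H.F s = ZMod.LFunction c (s - I * η) * G s) ∧
      ∀ σ₁ σ₂ : ℝ, ∃ A K : ℝ, ∀ s : ℂ, σ₁ ≤ s.re → s.re ≤ σ₂ → ‖G s‖ ≤ K * (1 + |s.im|) ^ A := by
  classical
  have hIη : I * (η : ℂ) ≠ 0 := mul_ne_zero I_ne_zero (by exact_mod_cast hη)
  have hL1 : ZMod.LFunction c (1 - I * η) ≠ 0 := by
    refine nice_ne_zero hn ?_ ?_
    · simp
    · intro h
      exact hIη (by linear_combination -h)
  have hL1' : (1 : ℂ) - I * η ≠ 1 := by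
    intro h
    exact hIη (by linear_combination -h)
  have hne : ∀ s : ℂ, s ≠ 1 → H.F s = ZMod.LFunction c (s - I * η) * F₂ s := by
    intro s hs
    have h1 : H.F s = F₁ s * F₂ s := heq s hs
    rw [h1, h₁.lfun s hs, mul_comm (η : ℂ) I]
  set G : ℂ → ℂ := Function.update F₂ 1 (H.F 1 / ZMod.LFunction c (1 - I * η)) with hG
  have hG1 : G 1 = H.F 1 / ZMod.LFunction c (1 - I * η) := by rw [hG, Function.update_self]
  have hG2 : ∀ s : ℂ, s ≠ 1 → G s = F₂ s := fun s hs => by rw [hG, Function.update_of_ne hs]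
  have hdiff : Differentiable ℂ G := by
    intro s
    by_cases hs : s = 1
    · subst hs
      have hcont : ContinuousAt (fun s : ℂ => ZMod.LFunction c (s - I * η)) 1 := by
        have := (ZMod.differentiableAt_LFunction c (1 - I * η) (Or.inl hL1')).continuousAt
        exact ContinuousAt.comp (f := fun s : ℂ => s - I * η) (g := ZMod.LFunction c) this
          (by fun_prop)
      have hdL : DifferentiableAt ℂ (fun s : ℂ => ZMod.LFunction c (s - I * η)) 1 := by
        have := (ZMod.differentiableAt_LFunction c (1 - I * η) (Or.inl hL1'))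
        exact DifferentiableAt.comp (f := fun s : ℂ => s - I * η) (g := ZMod.LFunction c) 1 this
          (by fun_prop)
      have hev : ∀ᶠ s in nhds (1 : ℂ), ZMod.LFunction c (s - I * η) ≠ 0 := hcont.eventually_ne hL1
      have heqv : G =ᶠ[nhds 1] fun s => H.F s / ZMod.LFunction c (s - I * η) := by
        filter_upwards [hev] with s hs
        by_cases hs1 : s = 1
        · subst hs1; exact hG1
        · rw [hG2 s hs1, hne s hs1, mul_div_cancel_left₀ _ hs]
      refine DifferentiableAt.congr_of_eventuallyEq ?_ heqv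
      exact (H.diff 1).div hdL hL1
    · refine DifferentiableAt.congr_of_eventuallyEq (h₂.differentiableAt hs) ?_
      filter_upwards [isOpen_ne.mem_nhds hs] with z hz using hG2 z hz
  refine ⟨G, hdiff, hG2, ?_, ?_⟩
  · intro s
    by_cases hs : s = 1
    · subst hs
      rw [hG1, mul_div_cancel₀ _ hL1]
    · rw [hG2 s hs]; exact hne s hs
  · intro σ₁ σ₂
    obtain ⟨C, A, hC, hA, hb⟩ := h₂.growth σ₁ σ₂
    have hcomp : IsCompact (Set.Icc σ₁ σ₂ ×ℂ Set.Icc (-1 : ℝ) 1) := isCompact_Icc.reProdIm isCompact_Icc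
    obtain ⟨M, hM⟩ := hcomp.exists_bound_of_continuousOn hdiff.continuous.continuousOn
    refine ⟨A, max C M, fun s hs1 hs2 => ?_⟩
    have h1A : 1 ≤ (1 + |s.im|) ^ A := Real.one_le_rpow (by linarith [abs_nonneg s.im]) hA
    have hK : 0 < max C M := lt_of_lt_of_le hC (le_max_left _ _)
    by_cases him : 1 ≤ |s.im|
    · have hs : s ≠ 1 := by
        rintro rfl
        simp at him
        linarith
      rw [hG2 s hs]
      calc ‖F₂ s‖ ≤ C * |s.im| ^ A := hb s hs1 hs2 him
        _ ≤ max C M * (1 + |s.im|) ^ A := by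
            gcongr
            · exact le_max_left _ _
            · linarith
    · have him' := not_le.1 him
      have hmem : s ∈ (Set.Icc σ₁ σ₂ ×ℂ Set.Icc (-1 : ℝ) 1) := by
        rw [Complex.mem_reProdIm]
        exact ⟨⟨hs1, hs2⟩, abs_le.1 him'.le⟩
      calc ‖G s‖ ≤ M := hM s hmem
        _ ≤ max C M * 1 := by rw [mul_one]; exact le_max_right _ _
        _ ≤ max C M * (1 + |s.im|) ^ A := by gcongr

end Pool.Agent.Helper25.BC
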