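import Pool.Agent.Helper25.BC.Defs
import Pool.Agent.Helper97.BD.FELeft

/-!
Block BC-H (MP_bd232a_nt, part C). Functional equation of `F_ν` for `Re s < 1` with `Γ_ℝ`.
PROOF. `H.selberg.fe_left` (block BD-S4, may be sorried): `F s = X(s) conj F(1 - conj s)` with
`X(s) = om Q^{1-2s} ∏_j Γ((1-s)/2 + iν_j/2)/Γ(s/2 - iν_j/2)`, `Q = 7 π^{-3/2}`. `Γ_ℝ(w) = π^{-w/2} Γ(w/2)` (`Complex.Gammaℝ_def`), so
`Γ_ℝ(1-s+iν)/Γ_ℝ(s-iν) = π^{s-1/2-iν} Γ((1-s+iν)/2)/Γ((s-iν)/2)`; the product over `j` has `π^{3s-3/2}` (`∑ ν_j = 0`), and `Q^{1-2s} = 7^{1-2s} π^{3s-3/2}`.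
-/

open Complex

namespace Pool.Agent.Helper25.BC

open Pool.Agent.Helper19.BD

theorem H_fe (H : HeckeF) {s : ℂ} (hs : s.re < 1) (hs0 : s ≠ 0) :
    H.F s = H.om * (7 : ℂ) ^ (1 - 2 * s) * (∏ j, Gammaℝ (1 - s + I * H.nu j) / Gammaℝ (s - I * H.nu j)) *
      (starRingEnd ℂ) (H.F (1 - (starRingEnd ℂ) s)) := by
  rw [H.selberg.fe_left hs hs0]
  congr 1
  have hπ : (Real.pi : ℂ) ≠ 0 := by exact_mod_cast Real.pi_ne_zero
  have hlogπ : Complex.log (Real.pi : ℂ) = ((Real.log Real.pi : ℝ) : ℂ) := (Complex.ofReal_log Real.pi_pos.le).symm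
  have hQ : (((7 : ℝ) * Real.pi ^ (-(3 / 2) : ℝ) : ℝ) : ℂ) ^ (1 - 2 * s) =
      (7 : ℂ) ^ (1 - 2 * s) * (Real.pi : ℂ) ^ (3 * s - 3 / 2) := by
    have h7 : (0 : ℝ) < 7 * Real.pi ^ (-(3 / 2) : ℝ) := by positivity
    rw [cpow_def_of_ne_zero (by exact_mod_cast h7.ne'), cpow_def_of_ne_zero (by norm_num), cpow_def_of_ne_zero hπ,
      hlogπ, ← Complex.ofReal_log h7.le, Real.log_mul (by norm_num) (by positivity), Real.log_rpow Real.pi_pos,
      ← exp_add]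
    have h77 : Complex.log (7 : ℂ) = ((Real.log 7 : ℝ) : ℂ) := by
      rw [Complex.ofReal_log (by norm_num)]; norm_num
    rw [h77]
    congr 1
    push_cast
    ring
  have hterm : ∀ j : Fin 3, Gammaℝ (1 - s + I * H.nu j) / Gammaℝ (s - I * H.nu j) =
      (Real.pi : ℂ) ^ (s - 1 / 2 - I * H.nu j) * (Gamma (1 / 2 * (1 - s) + I * H.nu j / 2) /
        Gamma (1 / 2 * s - I * H.nu j / 2)) := by
    intro j
    rw [Complex.Gammaℝ_def, Complex.Gammaℝ_def]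
    have h1 : (1 - s + I * H.nu j) / 2 = 1 / 2 * (1 - s) + I * H.nu j / 2 := by ring
    have h2 : (s - I * H.nu j) / 2 = 1 / 2 * s - I * H.nu j / 2 := by ring
    rw [h1, h2, mul_div_mul_comm, ← cpow_sub _ _ hπ]
    congr 2
    ring
  have hprod : (∏ j, Gammaℝ (1 - s + I * H.nu j) / Gammaℝ (s - I * H.nu j)) =
      (Real.pi : ℂ) ^ (3 * s - 3 / 2) * ∏ j : Fin 3, (Gamma (1 / 2 * (1 - s) + I * H.nu j / 2) /
        Gamma (1 / 2 * s - I * H.nu j / 2)) := by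
    rw [Finset.prod_congr rfl fun j _ => hterm j, Finset.prod_mul_distrib]
    congr 1
    simp only [cpow_def_of_ne_zero hπ]
    rw [← exp_sum, ← Finset.mul_sum]
    congr 2
    have hsum : ∑ j, (H.nu j : ℂ) = 0 := by
      rw [← Complex.ofReal_sum, H.nu_sum, Complex.ofReal_zero]
    rw [Finset.sum_sub_distrib, ← Finset.mul_sum, hsum]
    simp
    ring
  rw [hprod]
  unfold FE.X feNu
  simp only
  rw [hQ]
  have hX : ∀ j : Fin 3, Gamma (((1 / 2 : ℝ) : ℂ) * (1 - s) + (starRingEnd ℂ) (-(I * (H.nu j : ℂ)) / 2)) /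
      Gamma (((1 / 2 : ℝ) : ℂ) * s + -(I * (H.nu j : ℂ)) / 2) =
      Gamma (1 / 2 * (1 - s) + I * H.nu j / 2) / Gamma (1 / 2 * s - I * H.nu j / 2) := by
    intro j
    have h1 : (starRingEnd ℂ) (-(I * (H.nu j : ℂ)) / 2) = I * H.nu j / 2 := by
      rw [map_div₀, map_neg, map_mul, conj_I, conj_ofReal, map_ofNat]; ring
    rw [h1]
    congr 2
    · push_cast; ring
    · push_cast; ring
  rw [Finset.prod_congr rfl fun j _ => hX j]
  ring

end Pool.Agent.Helper25.BC
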