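import Pool.Agent.Helper25.BC.Defs
import Pool.Agent.Helper25.BC.Lines
import Pool.Agent.Helper25.BC.LfunFE
import Pool.Agent.Helper25.BC.HFE

/-!
Block BC-E (MP_bd232a_nt, part C). Functional equation of the second factor on `Re s = -1/2`.
PROOF. `Re s = -1/2`. `H_fe` at `s`; `nice_fe` at `s - iη` (`Re ≤ 0`, `≠ 0`), note `1 - conj(s - iη) = (1 - conj s) - iη`, `1 - (s - iη) = 1 - s + iη`; `hG` at `s` and at `1 - conj s`.
Write `R_x = Γ_ℝ(1-s+ix)/Γ_ℝ(s-ix)` (`≠ 0`: `Gammaℝ_ne_zero_of_re_pos` for the numerator, `Gammaℝ_eq_zero_iff` for `s - ix`, real part `-1/2`), `E = conj LFunction c ((1 - conj s) - iη) ≠ 0`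
(`nice_ne_zero`, real part `3/2`). Then `C q^{-(s-iη)} R_η E G(s) = om 7^{1-2s} R_η R_ν₂ R_ν₃ E conj G(1 - conj s)`; cancel `R_η E`. `Cg = 7 om / (C q^{iη})`, `7^{-2s} q^{s} = (49/q)^{-s}`.
-/

open Complex

namespace Pool.Agent.Helper25.BC

open Pool.Agent.Helper19.BD

theorem G_fe (H : HeckeF) {q : ℕ} [NeZero q] {c : ZMod q → ℂ} (hn : Nice q c) {η ν₂ ν₃ : ℝ}
    (hν : ∀ f : ℝ → ℂ, ∏ j, f (H.nu j) = f η * f ν₂ * f ν₃) {G : ℂ → ℂ}
    (hG : ∀ s : ℂ, H.F s = ZMod.LFunction c (s - I * η) * G s) :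
    ∃ Cg : ℂ, ∀ s : ℂ, s.re = -(1 / 2) →
      G s = Cg * ((49 / (q : ℝ) : ℝ) : ℂ) ^ (-s) * (Gammaℝ (1 - s + I * ν₂) / Gammaℝ (s - I * ν₂)) *
        (Gammaℝ (1 - s + I * ν₃) / Gammaℝ (s - I * ν₃)) * (starRingEnd ℂ) (G (1 - (starRingEnd ℂ) s)) := by
  obtain ⟨C, hC0, hfe⟩ := nice_fe hn
  have hq0 : (q : ℂ) ≠ 0 := by exact_mod_cast NeZero.ne q
  have hqR : (0 : ℝ) < q := by exact_mod_cast Nat.pos_of_ne_zero (NeZero.ne q)
  have hqI : (q : ℂ) ^ (I * (η : ℂ)) ≠ 0 := by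
    rw [Complex.cpow_def_of_ne_zero hq0]; exact exp_ne_zero _
  refine ⟨7 * H.om / (C * (q : ℂ) ^ (I * (η : ℂ))), fun s hs => ?_⟩
  have hs1 : s.re < 1 := by rw [hs]; norm_num
  have hs0 : s ≠ 0 := by
    intro h; rw [h] at hs; norm_num at hs
  have hre : (s - I * (η : ℂ)).re = -(1 / 2) := by
    simp [hs]
  have hne : s - I * (η : ℂ) ≠ 0 := by
    intro h; rw [h] at hre; norm_num at hre
  have e1 := H_fe H hs1 hs0
  have e2 := hfe (s - I * (η : ℂ)) (by rw [hre]; norm_num) hne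
  have e3 : 1 - (starRingEnd ℂ) (s - I * (η : ℂ)) = 1 - (starRingEnd ℂ) s - I * (η : ℂ) := by
    simp only [map_sub, map_mul, conj_I, conj_ofReal]
    ring
  have e4 : 1 - (s - I * (η : ℂ)) = 1 - s + I * (η : ℂ) := by ring
  rw [e3, e4] at e2
  set E := ZMod.LFunction c (1 - (starRingEnd ℂ) s - I * (η : ℂ)) with hE
  have hE0 : E ≠ 0 := by
    apply nice_ne_zero hn
    · simp [hs]
    · intro h
      have := congrArg re h
      simp [hs] at this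
  have e5 := hG (1 - (starRingEnd ℂ) s)
  rw [← hE] at e5
  have e6 := hν (fun ν : ℝ => Gammaℝ (1 - s + I * ν) / Gammaℝ (s - I * ν))
  rw [e5, e6, hG s, e2, map_mul] at e1
  have hR0 : Gammaℝ (1 - s + I * (η : ℂ)) / Gammaℝ (s - I * (η : ℂ)) ≠ 0 := by
    apply div_ne_zero
    · apply Gammaℝ_ne_zero_of_re_pos
      simp [hs]; norm_num
    · intro h
      rw [Gammaℝ_eq_zero_iff] at h
      obtain ⟨n, hn'⟩ := h
      have := congrArg re hn'
      rw [hre] at this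
      simp at this
      have h4 : (4 : ℝ) * n = 1 := by linarith
      have h5 : (4 : ℕ) * n = 1 := by exact_mod_cast h4
      omega
  have hcE : (starRingEnd ℂ) E ≠ 0 := by
    intro h
    apply hE0
    have := congrArg (starRingEnd ℂ) h
    simpa using this
  have hq : (q : ℂ) ^ (-(s - I * (η : ℂ))) = (q : ℂ) ^ (-s) * (q : ℂ) ^ (I * (η : ℂ)) := by
    rw [← Complex.cpow_add _ _ hq0]; congr 1; ring
  have hqs : (q : ℂ) ^ (-s) ≠ 0 := by
    rw [Complex.cpow_def_of_ne_zero hq0]; exact exp_ne_zero _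
  have h7 : (7 : ℂ) ^ (1 - 2 * s) = 7 * (((49 / (q : ℝ) : ℝ) : ℂ) ^ (-s) * (q : ℂ) ^ (-s)) := by
    have a1 : ((49 / (q : ℝ) : ℝ) : ℂ) ^ (-s) * (q : ℂ) ^ (-s) = (49 : ℂ) ^ (-s) := by
      have h1 := Complex.mul_cpow_ofReal_nonneg (a := 49 / (q : ℝ)) (b := (q : ℝ)) (by positivity)
        hqR.le (-s)
      rw [← ofReal_mul, div_mul_cancel₀ _ hqR.ne'] at h1
      push_cast at h1 ⊢
      exact h1.symm
    rw [a1]
    have a2 : (49 : ℂ) ^ (-s) = (7 : ℂ) ^ (-(2 * s)) := by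
      have h1 := Complex.mul_cpow_ofReal_nonneg (a := 7) (b := 7) (by norm_num) (by norm_num) (-s)
      push_cast at h1
      rw [← Complex.cpow_add _ _ (by norm_num : (7 : ℂ) ≠ 0)] at h1
      rw [show (49 : ℂ) = 7 * 7 by norm_num, h1]
      congr 1; ring
    rw [a2, show (1 : ℂ) - 2 * s = 1 + (-(2 * s)) by ring,
      Complex.cpow_add _ _ (by norm_num), Complex.cpow_one]
  rw [hq, h7] at e1
  have key : (C * ((q : ℂ) ^ (-s) * (q : ℂ) ^ (I * (η : ℂ))) *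
      (Gammaℝ (1 - s + I * (η : ℂ)) / Gammaℝ (s - I * (η : ℂ))) * (starRingEnd ℂ) E) ≠ 0 :=
    mul_ne_zero (mul_ne_zero (mul_ne_zero hC0 (mul_ne_zero hqs hqI)) hR0) hcE
  apply mul_left_cancel₀ key
  rw [e1]
  set R := Gammaℝ (1 - s + I * (η : ℂ)) / Gammaℝ (s - I * (η : ℂ))
  field_simp

end Pool.Agent.Helper25.BC
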