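import Pool.Agent.Helper25.BC.Defs
import Pool.Agent.Helper97.BD.Mult

/-!
Block BC-O (MP_bd232a_nt, part C). Local factors of an element of the Selberg class have no zeros in `|u| ≤ 1/p`.
PROOF. Let `b, θ < 1/2, C` be as in `h.euler`, `α k := a(p^k)`, `β i := b(p^i)` (`β 0 = 0`). `h.conv` at `n = p^k` (divisors `p^i`, `i ≤ k`),
divided by `log p`: `k α k = ∑_{i ≤ k} i β i α(k-i)`. So on the disc `|u| < p^{-3/4}` the power series
`f(u) = ∑ α k u^k`, `R(u) = ∑ β i u^i` converge and `u f' = f u R'` (Cauchy product), `f(0) = a(1) = 1`. So `(f exp(-R))' = 0`, `f = exp R ≠ 0`.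
-/

open Complex

namespace Pool.Agent.Helper25.BC

open Pool.Agent.Helper19.BD

namespace LocalAux

theorem mul_deriv_series (α : ℕ → ℂ) {ρ : ℝ} (hα : Summable fun k => ‖α k‖ * ρ ^ k) {z : ℂ}
    (hz : z ∈ Metric.ball (0 : ℂ) ρ) :
    HasSum (fun k : ℕ => (k : ℂ) * α k * z ^ k) (z * deriv (fun w => ∑' k, α k * w ^ k) z) := by
  have h := hasSum_deriv_of_summable_norm (F := fun (k : ℕ) (w : ℂ) => α k * w ^ k)
    (U := Metric.ball (0 : ℂ) ρ) hα
    (fun k => (differentiable_id.pow k |>.const_mul (α k)).differentiableOn) Metric.isOpen_ball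
    (fun k w hw => by
      rw [norm_mul, norm_pow]
      have : ‖w‖ ≤ ρ := (mem_ball_zero_iff.mp hw).le
      gcongr) hz
  have h2 := h.mul_left z
  have e : (fun k : ℕ => z * deriv (fun w : ℂ => α k * w ^ k) z) = fun k : ℕ => (k : ℂ) * α k * z ^ k := by
    funext k
    rw [deriv_const_mul _ (differentiableAt_id.pow k)]
    rw [deriv_pow_field]
    rcases k with _ | k
    · simp
    · rw [Nat.add_sub_cancel, pow_succ]
      ring
  rw [← e]
  exact h2

theorem diff_series (α : ℕ → ℂ) {ρ : ℝ} (hα : Summable fun k => ‖α k‖ * ρ ^ k) :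
    DifferentiableOn ℂ (fun w => ∑' k, α k * w ^ k) (Metric.ball (0 : ℂ) ρ) :=
  differentiableOn_tsum_of_summable_norm hα
    (fun k => (differentiable_id.pow k |>.const_mul (α k)).differentiableOn) Metric.isOpen_ball
    (fun k w hw => by
      rw [norm_mul, norm_pow]
      have : ‖w‖ ≤ ρ := (mem_ball_zero_iff.mp hw).le
      gcongr)

theorem ps_ne_zero (α β : ℕ → ℂ) {ρ : ℝ} (hα : Summable fun k => ‖α k‖ * ρ ^ k)
    (hβ : Summable fun k => ‖β k‖ * ρ ^ k)
    (hrec : ∀ n : ℕ, (n : ℂ) * α n =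
      ∑ kl ∈ Finset.HasAntidiagonal.antidiagonal n, ((kl.1 : ℂ) * β kl.1) * α kl.2)
    (hα0 : α 0 = 1) {u : ℂ} (hu : ‖u‖ < ρ) : ∑' k, α k * u ^ k ≠ 0 := by
  set U := Metric.ball (0 : ℂ) ρ with hU
  have hρ : 0 < ρ := (norm_nonneg u).trans_lt hu
  set f : ℂ → ℂ := fun w => ∑' k, α k * w ^ k with hf
  set R : ℂ → ℂ := fun w => ∑' k, β k * w ^ k with hR
  have hfd : DifferentiableOn ℂ f U := diff_series α hα
  have hRd : DifferentiableOn ℂ R U := diff_series β hβ
  have key : ∀ z ∈ U, z * deriv f z = z * deriv R z * f z := by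
    intro z hz
    have h1 := mul_deriv_series α hα hz
    have h2 := mul_deriv_series β hβ hz
    have hz' : ‖z‖ < ρ := mem_ball_zero_iff.mp hz
    have hs1 : Summable fun k : ℕ => ‖(k : ℂ) * β k * z ^ k‖ := h2.summable.norm
    have hs2 : Summable fun k => ‖α k * z ^ k‖ := by
      refine Summable.of_nonneg_of_le (fun _ => norm_nonneg _) (fun k => ?_) hα
      rw [norm_mul, norm_pow]
      gcongr
    have h3 := tsum_mul_tsum_eq_tsum_sum_antidiagonal_of_summable_norm hs1 hs2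
    rw [h2.tsum_eq] at h3
    change z * deriv R z * f z = _ at h3
    rw [h3, ← h1.tsum_eq]
    refine tsum_congr fun n => ?_
    rw [hrec n, Finset.sum_mul]
    refine Finset.sum_congr rfl fun kl hkl => ?_
    rw [← Finset.HasAntidiagonal.mem_antidiagonal.1 hkl, pow_add]
    ring
  set g : ℂ → ℂ := fun w => f w * exp (-R w) with hg
  have hgd : DifferentiableOn ℂ g U := hfd.mul (hRd.neg.cexp)
  have hUo : IsOpen U := Metric.isOpen_ball
  have hzero : ∀ z ∈ U, z ≠ 0 → deriv g z = 0 := by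
    intro z hz hz0
    have hf1 : DifferentiableAt ℂ f z := hfd.differentiableAt (hUo.mem_nhds hz)
    have hR1 : DifferentiableAt ℂ R z := hRd.differentiableAt (hUo.mem_nhds hz)
    have hd : HasDerivAt g (deriv f z * exp (-R z) + f z * (exp (-R z) * (-deriv R z))) z :=
      hf1.hasDerivAt.mul (hR1.hasDerivAt.neg.cexp)
    rw [hd.deriv]
    have hk := key z hz
    have hk2 : deriv f z = deriv R z * f z := by
      apply mul_left_cancel₀ hz0
      rw [hk]
      ring
    rw [hk2]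
    ring
  have h0U : (0 : ℂ) ∈ U := Metric.mem_ball_self hρ
  have hzero0 : deriv g 0 = 0 := by
    have hc : ContinuousAt (deriv g) 0 := (hgd.deriv hUo).differentiableAt (hUo.mem_nhds h0U) |>.continuousAt
    have ht : Filter.Tendsto (deriv g) (nhdsWithin 0 {0}ᶜ) (nhds (deriv g 0)) :=
      hc.tendsto.mono_left nhdsWithin_le_nhds
    have ht2 : Filter.Tendsto (deriv g) (nhdsWithin 0 {0}ᶜ) (nhds 0) := by
      refine tendsto_const_nhds.congr' ?_
      have h1 : U ∈ nhdsWithin (0 : ℂ) {0}ᶜ := nhdsWithin_le_nhds (hUo.mem_nhds h0U)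
      filter_upwards [h1, self_mem_nhdsWithin] with w hw hw2
      exact (hzero w hw hw2).symm
    exact tendsto_nhds_unique ht ht2
  have hconst : g u = g 0 := by
    refine hUo.is_const_of_deriv_eq_zero (convex_ball 0 ρ).isPreconnected hgd ?_
      (mem_ball_zero_iff.mpr hu) h0U
    intro z hz
    by_cases hz0 : z = 0
    · rw [hz0]
      exact hzero0
    · exact hzero z hz hz0
  have hf0 : f 0 = 1 := by
    rw [hf]
    simp only
    rw [tsum_eq_single 0 (fun k hk => by rw [zero_pow hk, mul_zero])]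
    rw [pow_zero, mul_one, hα0]
  intro hcon
  have h1 : g u = 0 := by
    rw [hg]
    simp only
    rw [show f u = 0 from hcon, zero_mul]
  rw [h1, hg] at hconst
  simp only at hconst
  rw [hf0, one_mul] at hconst
  exact exp_ne_zero _ hconst.symm

end LocalAux

open LocalAux in
theorem local_ne_zero {F : ℂ → ℂ} {a : ℕ → ℂ} {D : FE} (h : IsSelbergWith F a D) {p : ℕ} (hp : p.Prime) {u : ℂ}
    (hu : ‖u‖ ≤ 1 / (p : ℝ)) : ∑' k : ℕ, a (p ^ k) * u ^ k ≠ 0 := by
  obtain ⟨b, θ, C, hθ, hb0, hbC, hb⟩ := h.euler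
  obtain ⟨C', hC'⟩ := h.ramanujan (1 / 2) (by norm_num)
  have hp0 : (0 : ℝ) < p := by exact_mod_cast hp.pos
  have hp1 : (1 : ℝ) < p := by exact_mod_cast hp.one_lt
  have hlogp : (Real.log p : ℂ) ≠ 0 := by
    exact_mod_cast (Real.log_pos hp1).ne'
  set r : ℝ := (p : ℝ) ^ (1 / 2 : ℝ) with hr
  set ρ : ℝ := (p : ℝ) ^ (-(3 / 4) : ℝ) with hρ
  have hr0 : 0 < r := by positivity
  have hρ0 : 0 < ρ := by positivity
  have hrρ : r * ρ < 1 := by
    rw [hr, hρ, ← Real.rpow_add hp0]
    exact Real.rpow_lt_one_of_one_lt_of_neg hp1 (by norm_num)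
  have hgeo : ∀ K : ℝ, Summable fun k : ℕ => K * r ^ k * ρ ^ k := by
    intro K
    have := (summable_geometric_of_lt_one (by positivity) hrρ).mul_left K
    refine this.congr fun k => ?_
    rw [mul_pow]
    ring
  have hpow : ∀ k : ℕ, ((p ^ k : ℕ) : ℝ) ^ (1 / 2 : ℝ) = r ^ k := by
    intro k
    push_cast
    rw [hr, ← Real.rpow_natCast, ← Real.rpow_mul hp0.le, ← Real.rpow_natCast, ← Real.rpow_mul hp0.le,
      mul_comm]
  have hC0 : 0 ≤ C := by
    have := hbC 1 le_rfl
    simp at this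
    exact (norm_nonneg _).trans this
  refine ps_ne_zero (fun k => a (p ^ k)) (fun k => b (p ^ k)) (ρ := ρ) ?_ ?_ ?_ ?_ ?_
  · refine Summable.of_nonneg_of_le (fun _ => by positivity) (fun k => ?_) (hgeo C')
    have := hC' (p ^ k) (Nat.one_le_pow _ _ hp.pos)
    rw [hpow] at this
    gcongr
  · refine Summable.of_nonneg_of_le (fun _ => by positivity) (fun k => ?_) (hgeo C)
    have h1 := hbC (p ^ k) (Nat.one_le_pow _ _ hp.pos)
    have h2 : ((p ^ k : ℕ) : ℝ) ^ θ ≤ r ^ k := by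
      rw [← hpow k]
      apply Real.rpow_le_rpow_of_exponent_le _ hθ.le
      exact_mod_cast Nat.one_le_pow _ _ hp.pos
    have h3 := h1.trans (mul_le_mul_of_nonneg_left h2 hC0)
    gcongr
  · intro n
    have hc := h.conv hb0 hb (n := p ^ n) (Nat.one_le_pow _ _ hp.pos)
    rw [Nat.sum_divisors_prime_pow hp] at hc
    rw [Finset.Nat.sum_antidiagonal_eq_sum_range_succ (fun i j => (i : ℂ) * b (p ^ i) * a (p ^ j))]
    apply mul_right_cancel₀ hlogp
    have hl : ∀ i : ℕ, (Real.log ((p ^ i : ℕ) : ℝ) : ℂ) = (i : ℂ) * (Real.log p : ℂ) := by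
      intro i
      rw [Nat.cast_pow, Real.log_pow]; push_cast; rfl
    rw [hl] at hc
    rw [Finset.sum_mul]
    calc (n : ℂ) * a (p ^ n) * (Real.log p : ℂ) = a (p ^ n) * ((n : ℂ) * (Real.log p : ℂ)) := by ring
      _ = _ := hc
      _ = _ := by
        refine Finset.sum_congr rfl fun i hi => ?_
        rw [Finset.mem_range] at hi
        rw [hl, Nat.pow_div (by omega) hp.pos]
        ring
  · simp [h.a_one]
  · refine hu.trans_lt ?_
    rw [hρ, one_div, ← Real.rpow_neg_one]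
    exact Real.rpow_lt_rpow_of_exponent_lt hp1 (by norm_num)

end Pool.Agent.Helper25.BC
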