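import Pool.Agent.Helper25.BC.Defs
import Pool.Agent.Helper25.BC.Local

/-!
Block BC-N (MP_bd232a_nt, part C). The degree 1 form gives a `Nice` function.
PROOF. `loc`: with `a` from `h.coeff`: `a(l^k) = exp(η i log(l^k)) c(l^k) = exp(η i log l)^k c(l^k)`; apply `local_ne_zero` to `u = exp(-η i log l) v` (`‖u‖ = ‖v‖`):
`a(l^k) u^k = c(l^k) v^k`. The other fields are fields of `Deg1Form` (`sum_zero` needs `η ≠ 0`).
-/

open Complex

namespace Pool.Agent.Helper25.BC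

open Pool.Agent.Helper19.BD

theorem nice_of_deg1 {F₁ : ℂ → ℂ} {q : ℕ} [NeZero q] {c : ZMod q → ℂ} {η : ℝ} {C₂ : ℂ}
    (h : Deg1Form F₁ q c η C₂) (he : ∀ x, c (-x) = c x) (hη : η ≠ 0) : Nice q c where
  c_one := h.c_one
  mult := h.mult
  even := he
  dft := ⟨C₂, h.C_ne, h.dft⟩
  sum_zero := h.sum_zero hη
  loc := by
    intro l hl v hv
    obtain ⟨a, D, hS, -, ha⟩ := h.coeff
    set z : ℂ := exp (((η * Real.log l : ℝ) : ℂ) * I) with hz
    have hzn : ‖z‖ = 1 := norm_exp_ofReal_mul_I _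
    have hz0 : z ≠ 0 := exp_ne_zero _
    have hu : ‖z⁻¹ * v‖ ≤ 1 / (l : ℝ) := by
      rw [norm_mul, norm_inv, hzn, inv_one, one_mul]
      exact hv
    have h1 := local_ne_zero hS hl hu
    have h2 : ∀ k : ℕ, a (l ^ k) * (z⁻¹ * v) ^ k = c ((l ^ k : ℕ) : ZMod q) * v ^ k := by
      intro k
      have e : exp ((η : ℂ) * I * (Real.log ((l ^ k : ℕ) : ℝ) : ℂ)) = z ^ k := by
        rw [hz, ← exp_nat_mul]
        congr 1
        rw [Nat.cast_pow, Real.log_pow]
        push_cast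
        ring
      rw [ha (l ^ k) (Nat.one_le_pow _ _ hl.pos), e, mul_pow, inv_pow]
      field_simp
    rwa [tsum_congr h2] at h1

end Pool.Agent.Helper25.BC
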