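import Pool.Agent.Helper25.BC.Defs
import Pool.Agent.Helper25.BC.CUnit
import Pool.Agent.Helper25.BC.LfunFE

/-!
Block BC-S (MP_bd232a_nt, part C). `c` is even and `η` is one of the `ν_j`.
PROOF. `c(-x) = c(-1) c(x)` (`c_mul`), `c(-1)^2 = c 1 = 1`. If `c(-1) = 1`: `lfun_fe` at `s = 3`: `exp(3πi/2) + exp(-3πi/2) = 0`, so `LFunction c (-2) = 0`, hence
`H.F (iη - 2) = F₁(iη-2) F₂(iη-2) = 0` (`lfun`), and `H.zeros_left` gives `iη - 2 = iν_j - 2m`: `m = 1`, `η = ν_j`. If `c(-1) = -1`: `lfun_fe` at `s = 2`: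
`exp(πi) - exp(-πi) = 0`, so `LFunction c (-1) = 0`, `H.F (iη - 1) = 0`, `iη - 1 = iν_j - 2m` is impossible (real parts).
-/

open Complex

namespace Pool.Agent.Helper25.BC

open Pool.Agent.Helper19.BD

theorem sign_eta_exp_three : exp ((Real.pi : ℂ) * I * 3 / 2) + 1 * exp (-((Real.pi : ℂ) * I * 3 / 2)) = 0 := by
  have h1 : (Real.pi : ℂ) * I * 3 / 2 = ((3 * Real.pi / 2 : ℝ) : ℂ) * I := by push_cast; ring
  have h2 : -((Real.pi : ℂ) * I * 3 / 2) = ((-(3 * Real.pi / 2) : ℝ) : ℂ) * I := by push_cast; ring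
  rw [h2, h1, exp_mul_I, exp_mul_I, ← ofReal_cos, ← ofReal_sin, ← ofReal_cos, ← ofReal_sin, Real.cos_neg, Real.sin_neg]
  have hc : Real.cos (3 * Real.pi / 2) = 0 := by
    have : 3 * Real.pi / 2 = Real.pi / 2 + Real.pi := by ring
    rw [this, Real.cos_add_pi, Real.cos_pi_div_two, neg_zero]
  rw [hc]
  push_cast
  ring

theorem sign_eta_exp_two : exp ((Real.pi : ℂ) * I * 2 / 2) + (-1) * exp (-((Real.pi : ℂ) * I * 2 / 2)) = 0 := by
  have h1 : (Real.pi : ℂ) * I * 2 / 2 = (Real.pi : ℂ) * I := by ring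
  rw [h1, exp_neg, exp_pi_mul_I]
  norm_num

theorem sign_eta (H : HeckeF) {F₁ F₂ : ℂ → ℂ} {q : ℕ} [NeZero q] {c : ZMod q → ℂ} {η : ℝ} {C₂ : ℂ}
    (h₁ : Deg1Form F₁ q c η C₂) (heq : EqOff H.F (fun s => F₁ s * F₂ s)) :
    (∀ x, c (-x) = c x) ∧ ∃ j, η = H.nu j := by
  have hneg : ∀ x, c (-x) = c (-1) * c x := by
    intro x
    have h := c_mul h₁.mult (-1 : (ZMod q)ˣ) x
    simpa using h
  have hsq : c (-1) * c (-1) = 1 := by
    have h := hneg (-1)
    rw [neg_neg, h₁.c_one] at h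
    exact h.symm
  have hcases : c (-1) = 1 ∨ c (-1) = -1 := mul_self_eq_one_iff.mp hsq
  have key : ∀ k : ℕ, 1 ≤ k → ZMod.LFunction c (-(k : ℂ)) = 0 →
      ∃ (j : Fin 3) (m : ℕ), 1 ≤ m ∧ (η : ℂ) * I - k = I * H.nu j - 2 * m := by
    intro k hk h0
    have hre : ((η : ℂ) * I - k).re = -(k : ℝ) := by simp
    have hkpos : (0 : ℝ) < k := by exact_mod_cast hk
    have hne : (η : ℂ) * I - k ≠ 1 := by
      intro h
      have := congrArg Complex.re h
      rw [hre, one_re] at this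
      linarith
    have hF : H.F ((η : ℂ) * I - k) = 0 := by
      rw [heq _ hne]
      simp only
      rw [h₁.lfun _ hne]
      have : (η : ℂ) * I - k - (η : ℂ) * I = -(k : ℂ) := by ring
      rw [this, h0, zero_mul]
    exact H.zeros_left _ (by rw [hre]; linarith) hF
  rcases hcases with h1 | h1
  · have heven : ∀ x, c (-x) = c x := by
      intro x
      rw [hneg x, h1, one_mul]
    refine ⟨heven, ?_⟩
    have hfe := lfun_fe (c := c) (C := C₂) (sg := 1) (s := 3) h₁.dft (fun x => by rw [heven x, one_mul])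
      (fun n h => by
        have := congrArg Complex.re h
        simp at this
        have hn : (0 : ℝ) ≤ n := Nat.cast_nonneg n
        linarith) (by norm_num)
    rw [sign_eta_exp_three, mul_zero, zero_mul] at hfe
    have h2 : (1 : ℂ) - 3 = -((2 : ℕ) : ℂ) := by push_cast; norm_num
    rw [h2] at hfe
    obtain ⟨j, m, hm, he⟩ := key 2 (by norm_num) hfe
    refine ⟨j, ?_⟩
    have him := congrArg Complex.im he
    simpa using him
  · exfalso
    have hfe := lfun_fe (c := c) (C := C₂) (sg := -1) (s := 2) h₁.dft (fun x => by rw [hneg x, h1])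
      (fun n h => by
        have := congrArg Complex.re h
        simp at this
        have hn : (0 : ℝ) ≤ n := Nat.cast_nonneg n
        linarith) (by norm_num)
    rw [sign_eta_exp_two, mul_zero, zero_mul] at hfe
    have h2 : (1 : ℂ) - 2 = -((1 : ℕ) : ℂ) := by push_cast; norm_num
    rw [h2] at hfe
    obtain ⟨j, m, hm, he⟩ := key 1 le_rfl hfe
    have hre := congrArg Complex.re he
    simp at hre
    have h3 : ((1 : ℕ) : ℝ) = ((2 * m : ℕ) : ℝ) := by push_cast; linarith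
    have h4 : 1 = 2 * m := by exact_mod_cast h3
    omega

end Pool.Agent.Helper25.BC
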