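import Pool.Agent.Helper25.BC.Defs
import Pool.Agent.Helper25.BC.SignEta
import Pool.Agent.Helper25.BC.NiceOf
import Pool.Agent.Helper25.BC.GEntire
import Pool.Agent.Helper25.BC.GFE
import Pool.Agent.Helper25.BC.DualG
import Pool.Agent.Helper25.BC.Chain
import Pool.Agent.Helper25.BC.Cont
import Pool.Agent.Helper25.BC.Arith
import Pool.Agent.Helper25.BC.Case1
import Pool.Agent.Helper25.BC.Case2

/-!
MP_bd232a_nt, part C: `F_ν` has no factor of degree 1 in the Selberg class (assembly).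
-/

open Complex

namespace Pool.Agent.Helper25.BC

open Pool.Agent.Helper19.BD

lemma prod_nu (H : HeckeF) (j : Fin 3) : ∃ ν₂ ν₃ : ℝ, ∀ f : ℝ → ℂ,
    ∏ i, f (H.nu i) = f (H.nu j) * f ν₂ * f ν₃ := by
  fin_cases j
  · exact ⟨H.nu 1, H.nu 2, fun f => by simp [Fin.prod_univ_three]⟩
  · exact ⟨H.nu 0, H.nu 2, fun f => by
      rw [Fin.prod_univ_three]
      change f (H.nu 0) * f (H.nu 1) * f (H.nu 2) = f (H.nu 1) * f (H.nu 0) * f (H.nu 2)
      ring⟩
  · exact ⟨H.nu 0, H.nu 1, fun f => by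
      rw [Fin.prod_univ_three]
      change f (H.nu 0) * f (H.nu 1) * f (H.nu 2) = f (H.nu 2) * f (H.nu 0) * f (H.nu 1)
      ring⟩

lemma lseries_shift (f : ℕ → ℂ) (ν : ℝ) (s : ℂ) :
    LSeries (fun n => f n * npow n (-ν)) (s - I * ν) = LSeries f s := by
  unfold LSeries
  refine tsum_congr fun n => ?_
  rcases Nat.eq_zero_or_pos n with h | h
  · subst h; simp
  · have hn : n ≠ 0 := by omega
    rw [LSeries.term_of_ne_zero hn, LSeries.term_of_ne_zero hn]
    have hn' : (n : ℂ) ≠ 0 := by exact_mod_cast hn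
    rw [cpow_sub _ _ hn']
    have e1 : npow n (-ν) * (n : ℂ) ^ (I * (ν : ℂ)) = 1 := by
      unfold npow
      rw [cpow_def_of_ne_zero hn', ← natCast_log, ← exp_add]
      rw [show ((-ν : ℝ) : ℂ) * I * (Real.log n : ℂ) + (Real.log n : ℂ) * (I * (ν : ℂ)) = 0 by
        push_cast; ring]
      exact exp_zero
    have e2 : (n : ℂ) ^ (I * (ν : ℂ)) ≠ 0 := by
      intro h0; rw [h0, mul_zero] at e1; exact zero_ne_one e1
    have e3 : (n : ℂ) ^ s ≠ 0 := by
      rw [cpow_def_of_ne_zero hn']; exact exp_ne_zero _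
    field_simp
    linear_combination f n * e1

/-- `F_ν` has no factor of degree 1. -/
theorem no_deg_one (H : HeckeF) {F₁ F₂ : ℂ → ℂ} (h₁ : IsSelbergDeg F₁ 1) (h₂ : IsSelberg F₂)
    (heq : EqOff H.F (fun s => F₁ s * F₂ s)) : False := by
  obtain ⟨a₁, D₁, hs₁, hd⟩ := h₁
  obtain ⟨a₂, D₂, hs₂⟩ := h₂
  obtain ⟨q, _, c, η, C₂, hf⟩ := deg_one hs₁ hd
  obtain ⟨heven, j, hj⟩ := sign_eta H hf heq
  have hη : η ≠ 0 := hj ▸ H.nu_ne j
  have hn := nice_of_deg1 hf heven hη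
  obtain ⟨G, hGd, hG2, hGF, hGg⟩ := exists_G H hf hs₂ heq hn hη
  obtain ⟨ν₂, ν₃, hν⟩ := prod_nu H j
  rw [← hj] at hν
  obtain ⟨Cg, hfe⟩ := G_fe H hn hν hGF
  have hq0 : 0 < q := Nat.pos_of_ne_zero (NeZero.ne q)
  have hq2 : (0 : ℝ) < 49 / (q : ℝ) := by positivity
  have hGL : ∀ s : ℂ, 1 < s.re → G s = LSeries a₂ s := fun s hs => by
    rw [hG2 s (by rintro rfl; simp at hs), hs₂.eq s hs]
  obtain ⟨B, Bf, C, Cf, hB, hBf⟩ := duals hq2 hGd hGg hs₂.summable hGL hfe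
  have hch := cusp_chain hB hBf
  have hext : ∀ α : ℝ, Cusp (fB (fun n => a₂ n * npow n (-ν₃))) α →
      Cusp (fB (fun n => a₂ n * npow n (-ν₃))) (-α) →
      ∃ E : ℂ → ℂ, DifferentiableOn ℂ E {s : ℂ | -(1 / 2) < s.re} ∧
        ∀ s : ℂ, 1 < s.re → E s = LSeries (fun n => a₂ n * (Real.cos (2 * Real.pi * n * α) : ℂ)) s := by
    intro α hp hm
    obtain ⟨E, hE, hE1⟩ := cont_of_cusp hB.sumβ hp hm
    refine ⟨fun s => E (s - I * ν₃), ?_, ?_⟩
    · refine hE.comp (by fun_prop) (fun s hs => ?_)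
      simpa using hs
    · intro s hs
      change E (s - I * ν₃) = _
      rw [hE1 _ (by simpa using hs)]
      rw [← lseries_shift (fun n => a₂ n * (Real.cos (2 * Real.pi * n * α) : ℂ)) ν₃ s]
      congr 1
      funext n
      ring
  rcases arith q hq0 with ⟨a, ha, hS⟩ | ⟨hqo, a, ha, hS⟩
  · obtain ⟨p, ⟨hp, h70, h71, h76, m, hm, hα⟩, hN, hc3⟩ := exists_prime hn hη hS (fun p h => h.1)
      (2 + q + a.natAbs)
    have hp2 : 2 < p := by omega
    have hpq : p.Coprime q := by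
      rw [hp.coprime_iff_not_dvd]
      intro h
      exact absurd (Nat.le_of_dvd hq0 h) (by omega)
    have hpa : ¬ (p : ℤ) ∣ a := by
      intro h
      have := Int.natAbs_dvd_natAbs.2 h
      have := Nat.le_of_dvd (Int.natAbs_pos.2 ha) this
      simp at this
      omega
    obtain ⟨h1, h2⟩ := hch m hm
    rw [hα] at h1
    have h3 : (1 : ℝ) / (49 / (q : ℝ) * m - 1) = -((a : ℝ) / p) := by
      rw [← hα]; ring
    rw [h3] at h2
    obtain ⟨E, hE, hE1⟩ := hext _ h1 h2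
    exact case_one H hf hs₂ heq hn hp hp2 hpq h70 h71 h76 hc3 hpa hE hE1
  · obtain ⟨p, ⟨hp, h70, h71, h76, m, hm, hα⟩, hN, hc3⟩ := exists_prime hn hη hS (fun p h => h.1)
      (2 + q + a.natAbs)
    have ha0 : a ≠ 0 := by
      rintro rfl; simp at ha
    have hp2 : 2 < p := by omega
    have hpq : p.Coprime q := by
      rw [hp.coprime_iff_not_dvd]
      intro h
      exact absurd (Nat.le_of_dvd hq0 h) (by omega)
    have hpa : ¬ (p : ℤ) ∣ a := by
      intro h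
      have := Int.natAbs_dvd_natAbs.2 h
      have := Nat.le_of_dvd (Int.natAbs_pos.2 ha0) this
      simp at this
      omega
    obtain ⟨h1, h2⟩ := hch m hm
    rw [hα] at h1
    have h3 : (1 : ℝ) / (49 / (q : ℝ) * m - 1) = -((a : ℝ) / (2 * p)) := by
      rw [← hα]; ring
    rw [h3] at h2
    obtain ⟨E, hE, hE1⟩ := hext _ h1 h2
    exact case_two H hf hs₂ heq hn hqo hp hp2 hpq h70 h71 h76 hc3 hpa ha hE hE1

end Pool.Agent.Helper25.BC
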