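import Pool.Agent.Helper19.BD.Interface
import Pool.Agent.Helper97.BD.Base
import Pool.Agent.Helper97.BD.B3

/-!
MP_bd232a_nt, part C (a degree 1 factor of `F_ν` is impossible): definitions.

* `Nice q c`   : the properties of the coefficient function `c : ZMod q → ℂ` of the degree 1 factor and of its twists.
* `tw c ψ`     : the twist `c ψ` modulo `q p`.
* `gam τ s`    : `Γ_ℝ(1-s) Γ_ℝ(1-s+iτ) / (Γ_ℝ(s) Γ_ℝ(s-iτ))`.
* `Rk τ s`     : `tan(π s/2) cosh(π τ/2) - i sinh(π τ/2)`.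
* `fB β z`     : `∑_{n ≥ 1} β(n) exp(-2 π n z)`.
* `Dual`       : `B(s) = ∑ β(n) n^{-s}` entire with `B(s) = C q₂^{-s} gam(s) ∑ σ(n) n^{-(1-s)}` on `Re s = -1/2`.
* `Cusp g α`   : `g(iα + w) = c₀ + O(|w|^{1/2})` for `w → 0` in every sector `|Im w| ≤ K Re w`.
-/

open Complex

namespace Pool.Agent.Helper25.BC

open Pool.Agent.Helper19.BD

/-- The properties of `c : ZMod q → ℂ` used in part C: normalised, multiplicative, local factors without zeros in `|v| ≤ 1/ℓ`,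
even, `dft c = C conj c`, `∑ c = 0`. -/
structure Nice (q : ℕ) [NeZero q] (c : ZMod q → ℂ) : Prop where
  c_one : c 1 = 1
  mult : ∀ m n : ℕ, 1 ≤ m → 1 ≤ n → Nat.Coprime m n → c ((m * n : ℕ) : ZMod q) = c (m : ZMod q) * c (n : ZMod q)
  loc : ∀ l : ℕ, l.Prime → ∀ v : ℂ, ‖v‖ ≤ 1 / (l : ℝ) → ∑' k : ℕ, c ((l ^ k : ℕ) : ZMod q) * v ^ k ≠ 0
  even : ∀ x, c (-x) = c x
  dft : ∃ C : ℂ, C ≠ 0 ∧ ∀ k : ZMod q, ZMod.dft c k = C * (starRingEnd ℂ) (c k)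
  sum_zero : ∑ j, c j = 0

/-- The twist of `c` by a Dirichlet character. -/
noncomputable def tw {q p : ℕ} (c : ZMod q → ℂ) (ψ : DirichletCharacter ℂ p) (x : ZMod (q * p)) : ℂ :=
  c (ZMod.castHom (Dvd.intro p rfl) (ZMod q) x) * ψ (ZMod.castHom (Dvd.intro_left q rfl) (ZMod p) x)

/-- The gamma quotient of the functional equation of degree 2. -/
noncomputable def gam (τ : ℝ) (s : ℂ) : ℂ :=
  Gammaℝ (1 - s) * Gammaℝ (1 - s + I * τ) / (Gammaℝ s * Gammaℝ (s - I * τ))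

/-- The trigonometric kernel. -/
noncomputable def Rk (τ : ℝ) (s : ℂ) : ℂ :=
  tan (Real.pi * s / 2) * (Real.cosh (Real.pi * τ / 2) : ℂ) - I * (Real.sinh (Real.pi * τ / 2) : ℂ)

/-- `∑_{n ≥ 1} β(n) exp(-2 π n z)`. -/
noncomputable def fB (β : ℕ → ℂ) (z : ℂ) : ℂ :=
  ∑' n : ℕ, β (n + 1) * exp (-(2 * Real.pi * ((n : ℂ) + 1) * z))

/-- A Dirichlet series `B` with coefficients `β` and dual coefficients `σ`. -/
structure Dual (τ q₂ : ℝ) (β σ : ℕ → ℂ) (B : ℂ → ℂ) (C : ℂ) : Prop where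
  q_pos : 0 < q₂
  diff : Differentiable ℂ B
  growth : ∃ A K : ℝ, ∀ s : ℂ, -(1 / 2) ≤ s.re → s.re ≤ 2 → ‖B s‖ ≤ K * (1 + |s.im|) ^ A
  sumβ : ∀ s : ℂ, 1 < s.re → LSeriesSummable β s
  eqβ : ∀ s : ℂ, 1 < s.re → B s = LSeries β s
  sumσ : ∀ s : ℂ, 1 < s.re → LSeriesSummable σ s
  fe : ∀ s : ℂ, s.re = -(1 / 2) → B s = C * (q₂ : ℂ) ^ (-s) * gam τ s * LSeries σ (1 - s)

/-- Behaviour of `g` near the point `i α` of the boundary of the right half plane. -/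
def Cusp (g : ℂ → ℂ) (α : ℝ) : Prop :=
  ∃ c₀ : ℂ, ∀ K : ℝ, ∃ C r : ℝ, 0 < r ∧ ∀ w : ℂ, 0 < w.re → |w.im| ≤ K * w.re → ‖w‖ < r →
    ‖g (I * α + w) - c₀‖ ≤ C * Real.sqrt ‖w‖

/-- The point `-1/2 + i t`. -/
noncomputable def ln (t : ℝ) : ℂ := ((-(1 / 2) : ℝ) : ℂ) + (t : ℂ) * I

/-- Completely multiplicative functions bounded by `1`. -/
structure CM (ψ : ℕ → ℂ) : Prop where
  one : ψ 1 = 1
  mul : ∀ m n : ℕ, ψ (m * n) = ψ m * ψ n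
  bound : ∀ n, ‖ψ n‖ ≤ 1

/-- Remove the multiples of `p`. -/
noncomputable def rem (p : ℕ) (ψ : ℕ → ℂ) (n : ℕ) : ℂ := if p ∣ n then 0 else ψ n

/-- `n^{iτ}`. -/
noncomputable def npow (n : ℕ) (τ : ℝ) : ℂ := exp ((τ : ℂ) * I * (Real.log n : ℂ))

end Pool.Agent.Helper25.BC
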